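import Pool.Agent.ZOL.Targets
import Pool.Agent.RainbowSun.Lower

/-!
# Zero-one law for rainbow sunflowers: amplification by codes
-/

set_option autoImplicit false

namespace Pool.Agent.ZOL

open Finset

namespace CODE_

/-- the number of configurations with many good coordinates -/
lemma many_good {A : Type} [Fintype A] [DecidableEq A] (s : Finset A) (w r : ℕ) :
    (univ.filter fun χ : Fin w → A => r ≤ (univ.filter fun j => χ j ∈ s).card).card ≤
      w.choose r * (s.card ^ r * (Fintype.card A) ^ (w - r)) := by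
  classical
  have hsub : (univ.filter fun χ : Fin w → A => r ≤ (univ.filter fun j => χ j ∈ s).card) ⊆
      (powersetCard r (univ : Finset (Fin w))).biUnion fun J =>
        Fintype.piFinset fun j => if j ∈ J then s else univ := by
    intro χ hχ
    rw [mem_filter] at hχ
    obtain ⟨J, hJ1, hJ2⟩ := exists_subset_card_eq hχ.2
    rw [mem_biUnion]
    refine ⟨J, mem_powersetCard.mpr ⟨subset_univ _, hJ2⟩, ?_⟩
    rw [Fintype.mem_piFinset]
    intro j
    by_cases hj : j ∈ J
    · simp only [hj, if_true]
      exact (mem_filter.mp (hJ1 hj)).2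
    · simp [hj]
  refine (card_le_card hsub).trans (card_biUnion_le.trans ?_)
  calc _ ≤ ∑ _J ∈ powersetCard r (univ : Finset (Fin w)),
        s.card ^ r * (Fintype.card A) ^ (w - r) := by
        refine sum_le_sum fun J hJ => ?_
        rw [Fintype.card_piFinset]
        have h1 : ∀ j, (if j ∈ J then s else univ).card =
            if j ∈ J then s.card else Fintype.card A := by
          intro j
          split_ifs <;> simp
        rw [prod_congr rfl fun j _ => h1 j, prod_ite, prod_const, prod_const,
          filter_mem_eq_inter, univ_inter, (mem_powersetCard.mp hJ).2]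
        have h2 : (univ.filter fun j => j ∉ J).card = w - r := by
          have : (univ.filter fun j => j ∉ J) = Jᶜ := by ext j; simp
          rw [this, card_compl, Fintype.card_fin, (mem_powersetCard.mp hJ).2]
        rw [h2]
    _ = _ := by
        rw [sum_const, card_powersetCard, card_univ, Fintype.card_fin, smul_eq_mul]

/-- the set of a word -/
def st {X : Type} [Fintype X] [DecidableEq X] {N m : ℕ} (D : ℕ) (g : Fin m → Finset X)
    (c : Fin N → Fin m) : Finset ((Fin N × X) ⊕ Fin D) :=
  (univ.filter fun p : Fin N × X => p.2 ∈ g (c p.1)).disjSum univ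

lemma mem_st {X : Type} [Fintype X] [DecidableEq X] {N m D : ℕ} {g : Fin m → Finset X}
    {c : Fin N → Fin m} {j : Fin N} {x : X} :
    (Sum.inl (j, x) : (Fin N × X) ⊕ Fin D) ∈ st D g c ↔ x ∈ g (c j) := by
  rw [st, inl_mem_disjSum, mem_filter]
  simp

lemma card_st {X : Type} [Fintype X] [DecidableEq X] {N m D u : ℕ} {g : Fin m → Finset X}
    (hg : ∀ i, (g i).card = u) (c : Fin N → Fin m) : (st D g c).card = u * N + D := by
  rw [st, card_disjSum, card_univ, Fintype.card_fin, card_filter, Fintype.sum_prod_type]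
  have h1 : ∀ j : Fin N, ∑ x : X, (if x ∈ g (c j) then 1 else 0) = u := by
    intro j
    rw [← hg (c j), Finset.sum_boole, filter_mem_eq_inter, univ_inter]
    rfl
  rw [sum_congr rfl fun j _ => h1 j, sum_const, card_univ, Fintype.card_fin, smul_eq_mul,
    mul_comm]

lemma st_injective {X : Type} [Fintype X] [DecidableEq X] {N m D : ℕ} {g : Fin m → Finset X}
    (hg : Function.Injective g) :
    Function.Injective (st D g : (Fin N → Fin m) → Finset ((Fin N × X) ⊕ Fin D)) := by
  intro c d h
  funext j
  apply hg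
  ext x
  rw [← mem_st (D := D) (c := c) (j := j), h, mem_st]

/-- A rainbow sunflower in the code gives good blocks. -/
lemma good {X : Type} [Fintype X] [DecidableEq X] {N m D u k r : ℕ} (hk : 2 ≤ k)
    (G : Finset (Finset X)) (g : Fin m → Finset X) (hg : ∀ i, (g i).card = u)
    (hgi : Function.Injective g) (hgG : ∀ i, g i ∈ G) (F : Finset (Fin N → Fin m))
    (hF : ∀ c ∈ F, ∀ d ∈ F, c ≠ d → r ≤ hammingDist c d) (χ : (Fin N × X) ⊕ Fin D → Fin k)
    (h : HasRainbowSunflower (F.image (st D g)) χ)
    [DecidablePred fun j : Fin N => HasRainbowSunflower G fun x => χ (Sum.inl (j, x))] :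
    r ≤ (univ.filter fun j => HasRainbowSunflower G fun x => χ (Sum.inl (j, x))).card := by
  obtain ⟨S, hinj, hSF, hS⟩ := h
  have h1 : ∀ i, ∃ c ∈ F, st D g c = S i := fun i => mem_image.mp (hSF i)
  choose c hcF hc using h1
  have hcol : ∀ i l : Fin k, i ≠ l → ∀ (j : Fin N) (x : X), x ∈ g (c i j) → x ∉ g (c l j) →
      χ (Sum.inl (j, x)) = i := by
    intro i l hil j x hx hx'
    have h3 : (Sum.inl (j, x) : (Fin N × X) ⊕ Fin D) ∈ S i \ S l := by
      rw [Finset.mem_sdiff, ← hc i, ← hc l, mem_st, mem_st]
      exact ⟨hx, hx'⟩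
    have h4 := hS i l hil h3
    rw [part, mem_filter] at h4
    exact h4.2
  set z : Fin k := ⟨0, by omega⟩
  set o : Fin k := ⟨1, by omega⟩
  have hzo : c z ≠ c o := by
    intro he
    have : S z = S o := by rw [← hc z, ← hc o, he]
    have := hinj this
    simp [z, o, Fin.ext_iff] at this
  refine (hF _ (hcF z) _ (hcF o) hzo).trans ?_
  unfold hammingDist
  refine card_le_card ?_
  intro j hj
  rw [mem_filter] at hj ⊢
  refine ⟨mem_univ _, fun i => g (c i j), ?_, fun i => hgG _, ?_⟩
  · -- the traces are distinct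
    intro i l hil
    by_contra hne
    change g (c i j) = g (c l j) at hil
    have h2 : ∃ t, c t j ≠ c i j := by
      by_contra hcon
      push Not at hcon
      exact hj.2 ((hcon z).trans (hcon o).symm)
    obtain ⟨t, ht⟩ := h2
    have h3 : g (c t j) ≠ g (c i j) := fun h => ht (hgi h)
    have h4 : ¬ g (c i j) ⊆ g (c t j) := by
      intro h5
      exact h3 (eq_of_subset_of_card_le h5 (by rw [hg, hg])).symm
    obtain ⟨x, hx, hx'⟩ := not_subset.mp h4
    have hit : i ≠ t := by
      rintro rfl
      exact hx' hx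
    have hlt : l ≠ t := by
      rintro rfl
      exact hx' (hil ▸ hx)
    have e1 := hcol i t hit j x hx hx'
    have e2 := hcol l t hlt j x (hil ▸ hx) hx'
    exact hne (e1.symm.trans e2)
  · intro i l hil x hx
    rw [Finset.mem_sdiff] at hx
    rw [part, mem_filter]
    exact ⟨mem_univ _, hcol i l hil j x hx.1 hx.2⟩

end CODE_

theorem p_CODE : T_CODE := by
  classical
  intro k u M w C1 X _ _ G hk hu hM hw1 hw2 hC1 hG hpr
  obtain ⟨hGu, hGc⟩ := hG
  -- enumeration of the members
  obtain ⟨m, hm⟩ : ∃ m, m = G.card := ⟨_, rfl⟩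
  set e := G.equivFin with he
  set g : Fin m → Finset X := fun i => (e.symm (Fin.cast hm i) : Finset X) with hgdef
  have hgG : ∀ i, g i ∈ G := fun i => (e.symm (Fin.cast hm i)).2
  have hgu : ∀ i, (g i).card = u := fun i => hGu _ (hgG i)
  have hgi : Function.Injective g := by
    intro i j hij
    have h1 : e.symm (Fin.cast hm i) = e.symm (Fin.cast hm j) := Subtype.ext hij
    have h2 := e.symm.injective h1
    exact Fin.cast_injective hm h2
  set N := 2 * M with hN
  set D := w - u * N with hD
  have hNw : u * N + D = w := by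
    have h1 : u * N = 2 * u * M := by rw [hN]; ring
    rw [hD]
    omega
  obtain ⟨F0, hF0, hF0c⟩ := RainbowSun.Lower.exists_code N m M hM (by omega)
  refine ⟨(Fin N × X) ⊕ Fin D, inferInstance, inferInstance, F0.image (CODE_.st D g), ⟨?_, ?_⟩, ?_⟩
  · intro S hS
    obtain ⟨c, _, rfl⟩ := mem_image.mp hS
    rw [CODE_.card_st hgu, hNw]
  · -- the size
    rw [card_image_of_injective _ (CODE_.st_injective hgi)]
    have hC1' : (0 : ℝ) < C1 := by linarith
    have hm1 : (4 * C1 ^ 4) ^ u ≤ (m : ℝ) := by rw [hm]; exact hGc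
    have hm0 : (0 : ℝ) < m := lt_of_lt_of_le (by positivity) hm1
    have h1 : ((m ^ N : ℕ) : ℝ) ≤ ((F0.card * (N.choose M * m ^ M) : ℕ) : ℝ) := by
      exact_mod_cast hF0c
    push_cast at h1
    have h2 : (N.choose M : ℝ) ≤ 4 ^ M := by
      have h3 : N.choose M ≤ 2 ^ N := Nat.choose_le_two_pow N M
      have h4 : (N.choose M : ℝ) ≤ (2 : ℝ) ^ N := by exact_mod_cast h3
      rw [hN, pow_mul] at h4
      norm_num at h4
      exact h4
    have h5 : (m : ℝ) ^ M * (m : ℝ) ^ M ≤ (F0.card * 4 ^ M) * (m : ℝ) ^ M := by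
      calc (m : ℝ) ^ M * (m : ℝ) ^ M = (m : ℝ) ^ N := by rw [← pow_add, hN]; congr 1; ring
        _ ≤ F0.card * (N.choose M * (m : ℝ) ^ M) := h1
        _ ≤ F0.card * (4 ^ M * (m : ℝ) ^ M) := by gcongr
        _ = _ := by ring
    have h6 : (m : ℝ) ^ M ≤ F0.card * 4 ^ M := le_of_mul_le_mul_right h5 (by positivity)
    have h7 : C1 ^ w * 4 ^ M ≤ (m : ℝ) ^ M := by
      calc C1 ^ w * 4 ^ M ≤ C1 ^ (4 * (u * M)) * 4 ^ (u * M) := by
            refine mul_le_mul ?_ ?_ (by positivity) (by positivity)
            · refine pow_le_pow_right₀ hC1 ?_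
              have h8 : 2 * u * (M + 1) ≤ 4 * (u * M) := by
                have h9 : u * 1 ≤ u * M := Nat.mul_le_mul_left u hM
                have h10 : 2 * u * (M + 1) = 2 * (u * M) + 2 * u := by ring
                omega
              omega
            · refine pow_le_pow_right₀ (by norm_num) ?_
              exact Nat.le_mul_of_pos_left M hu
        _ = ((4 * C1 ^ 4) ^ u) ^ M := by
            rw [← pow_mul, mul_pow, ← pow_mul]
            ring
        _ ≤ (m : ℝ) ^ M := pow_le_pow_left₀ (by positivity) hm1 _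
    exact le_of_mul_le_mul_right (h7.trans h6) (by positivity)
  · -- the probability
    set s : Finset (X → Fin k) := univ.filter fun χ => HasRainbowSunflower G χ with hs
    set K : ℕ := Fintype.card (X → Fin k) with hK
    have hkpos : 0 < k := by omega
    have hne : Nonempty (Fin k) := ⟨⟨0, hkpos⟩⟩
    have hKpos : (0 : ℝ) < K := by
      have : 0 < K := Fintype.card_pos
      exact_mod_cast this
    have hDpos : (0 : ℝ) < ((Fintype.card (Fin D → Fin k) : ℕ) : ℝ) := by
      have : 0 < Fintype.card (Fin D → Fin k) := Fintype.card_pos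
      exact_mod_cast this
    have h1 : (s.card : ℝ) < K * (1 / 16) := by
      rw [pr, prob, Nat.card_eq_fintype_card, Nat.card_eq_fintype_card, Fintype.card_subtype,
        ← hK, div_lt_iff₀ hKpos] at hpr
      have h2 : (univ.filter fun χ : X → Fin k => HasRainbowSunflower G χ).card = s.card := rfl
      rw [h2] at hpr
      linarith
    have h2 : (univ.filter fun χ : (Fin N × X) ⊕ Fin D → Fin k =>
        HasRainbowSunflower (F0.image (CODE_.st D g)) χ).card ≤
        (N.choose M * (s.card ^ M * K ^ (N - M))) * Fintype.card (Fin D → Fin k) := by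
      refine le_trans ?_ (Nat.mul_le_mul_right _ (CODE_.many_good s N M))
      rw [← card_univ, ← card_product]
      refine card_le_card_of_injOn
        (fun χ => ((fun j x => χ (Sum.inl (j, x))), fun d => χ (Sum.inr d))) ?_ ?_
      · intro χ hχ
        have hχ' : HasRainbowSunflower (F0.image (CODE_.st D g)) χ := by simpa using hχ
        have h3 := CODE_.good hk G g hgu hgi hgG F0 hF0 χ hχ'
        simp only [coe_product, coe_univ, Set.mem_prod, mem_coe, mem_filter, mem_univ, true_and,
          Set.mem_univ, and_true, hs]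
        exact h3
      · intro χ _ χ' _ h
        funext y
        rcases y with ⟨j, x⟩ | d
        · exact congrFun (congrFun (Prod.ext_iff.mp h).1 j) x
        · exact congrFun (Prod.ext_iff.mp h).2 d
    have h3 : Fintype.card ((Fin N × X) ⊕ Fin D → Fin k) =
        K ^ N * Fintype.card (Fin D → Fin k) := by
      simp only [hK, Fintype.card_fun, Fintype.card_sum, Fintype.card_prod, Fintype.card_fin]
      rw [pow_add, ← pow_mul, mul_comm N]
    rw [pr, prob, Nat.card_eq_fintype_card, Nat.card_eq_fintype_card, Fintype.card_subtype, h3]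
    rw [div_le_iff₀ (by push_cast; positivity)]
    have h4 : ((univ.filter fun χ : (Fin N × X) ⊕ Fin D → Fin k =>
        HasRainbowSunflower (F0.image (CODE_.st D g)) χ).card : ℝ) ≤
        (N.choose M * ((s.card : ℝ) ^ M * (K : ℝ) ^ (N - M))) *
          (Fintype.card (Fin D → Fin k) : ℝ) := by exact_mod_cast h2
    refine h4.trans ?_
    have h5 : (N.choose M : ℝ) ≤ 4 ^ M := by
      have h3 : N.choose M ≤ 2 ^ N := Nat.choose_le_two_pow N M
      have h4 : (N.choose M : ℝ) ≤ (2 : ℝ) ^ N := by exact_mod_cast h3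
      rw [hN, pow_mul] at h4
      norm_num at h4
      exact h4
    have h6 : (N.choose M * ((s.card : ℝ) ^ M * (K : ℝ) ^ (N - M))) ≤
        (1 / 4) ^ M * (K : ℝ) ^ N := by
      calc (N.choose M * ((s.card : ℝ) ^ M * (K : ℝ) ^ (N - M))) ≤
          4 ^ M * ((K * (1 / 16)) ^ M * (K : ℝ) ^ (N - M)) := by
            refine mul_le_mul h5 ?_ (by positivity) (by positivity)
            refine mul_le_mul_of_nonneg_right ?_ (by positivity)
            exact pow_le_pow_left₀ (by positivity) h1.le _
        _ = (4 ^ M * (1 / 16) ^ M) * ((K : ℝ) ^ M * (K : ℝ) ^ (N - M)) := by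
            rw [mul_pow]; ring
        _ = (1 / 4) ^ M * (K : ℝ) ^ N := by
            rw [← mul_pow, ← pow_add, Nat.add_sub_cancel' (by omega)]
            norm_num
    calc _ ≤ ((1 / 4) ^ M * (K : ℝ) ^ N) * (Fintype.card (Fin D → Fin k) : ℝ) :=
          mul_le_mul_of_nonneg_right h6 hDpos.le
      _ = _ := by push_cast; ring

end Pool.Agent.ZOL
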