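import Pool.Agent.ZOL.Defs

/-!
# Zero-one law for rainbow sunflowers, strong form: the targets

Each `T_XXX : Prop` is one job; the proof is a theorem `p_XXX : T_XXX`.
-/

set_option autoImplicit false

namespace Pool.Agent.ZOL

open Finset Filter

/-- the members containing `K`, with `K` removed -/
def link {X : Type} [DecidableEq X] (F : Finset (Finset X)) (K : Finset X) : Finset (Finset X) :=
  (F.filter fun S => K ⊆ S).image fun S => S \ K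

/-- a rainbow sunflower of a link gives one of `F` -/
def T_LINKPR : Prop := ∀ (k : ℕ) (X : Type) [Fintype X] [DecidableEq X]
  (F : Finset (Finset X)) (K : Finset X), pr k (link F K) ≤ pr k F

/-- a spread link -/
def T_SPR : Prop := ∀ (w : ℕ) (R : ℝ) (X : Type) [Fintype X] [DecidableEq X]
  (F : Finset (Finset X)), 1 ≤ w → 1 ≤ R → Big w R F →
  ∃ K : Finset X, K.card < w ∧ (∀ S ∈ link F K, S.card = w - K.card) ∧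
    (F.card : ℝ) ≤ (link F K).card * R ^ K.card ∧
    (∀ L : Finset X, (((link F K).filter fun S => L ⊆ S).card : ℝ) * R ^ L.card ≤
      (link F K).card)

/-- a family with small intersections inside a link -/
def T_FAR : Prop := ∀ (k u : ℕ) (R δ : ℝ) (X : Type) [Fintype X] [DecidableEq X]
  (G : Finset (Finset X)), 1 ≤ u → 1 ≤ R → 0 < δ → δ < 1 → Big u R G →
  ∃ (v : ℕ) (G' : Finset (Finset X)), 1 ≤ v ∧ v ≤ u ∧ Big v (R ^ δ / 2) G' ∧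
    (∀ S ∈ G', ∀ S' ∈ G', S ≠ S' → ((S ∩ S').card : ℝ) ≤ δ * v) ∧ pr k G' ≤ pr k G

/-- amplification by codes of large distance -/
def T_CODE2 : Prop := ∀ (k v N r : ℕ) (B δ : ℝ) (X : Type) [Fintype X] [DecidableEq X]
  (G : Finset (Finset X)), 2 ≤ k → 1 ≤ v → 0 < δ → δ ≤ 1 / 4 → 1 ≤ δ * N → 1 ≤ B →
  Big v B G → pr k G < 1 / 16 →
  (∀ S ∈ G, ∀ S' ∈ G, S ≠ S' → ((S ∩ S').card : ℝ) ≤ δ * v) →
  ∃ (Y : Type) (_ : Fintype Y) (_ : DecidableEq Y) (F : Finset (Finset Y)),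
    (∀ S ∈ F, S.card = v * N + r) ∧ (B ^ (δ / 2) / 2) ^ (v * N) ≤ (F.card : ℝ) ∧
    (∀ S ∈ F, ∀ S' ∈ F, S ≠ S' → ((S ∩ S').card : ℝ) ≤ 2 * δ * (v * N) + r) ∧
    pr k F ≤ (1 / 4) ^ N ∧ (pr k G = 0 → pr k F = 0)

/-- independence of disjoint blocks -/
def T_INDEP : Prop := ∀ (X : Type) [Fintype X] [DecidableEq X] (k r : ℕ) (τ : X → Fin r)
  (g : Fin r → (X → Fin k) → ℝ), 1 ≤ k →
  (∀ j χ χ', (∀ x, τ x = j → χ x = χ' x) → g j χ = g j χ') →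
  (∑ χ : X → Fin k, ∏ j, g j χ) / (k : ℝ) ^ Fintype.card X =
    ∏ j, ((∑ χ : X → Fin k, g j χ) / (k : ℝ) ^ Fintype.card X)

/-- `r` independent rounds -/
def T_ROUNDS : Prop := ∀ (k r w v₀ : ℕ) (C M η : ℝ) (X : Type) [Fintype X] [DecidableEq X]
  (F : Finset (Finset X)), 2 ≤ k → 1 ≤ r → 1 ≤ w → 1 ≤ v₀ → 0 ≤ C → 0 ≤ M → 0 ≤ η →
  (∀ v, v₀ ≤ v → Low k C v (1 - η)) → (∀ S ∈ F, S.card = w) → F.Nonempty →
  (∀ S ∈ F, ((F.filter fun S' => (S' \ S).card < v₀).card : ℝ) ≤ M) →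
  1 - pr k F ≤ r * (r : ℝ) ^ w * ((1 + C) ^ w + M) / F.card + η ^ r

/-- every exponent -/
def T_EXP : Prop := ∀ (k : ℕ) (a₀ a : ℝ), 2 ≤ k → 0 < a₀ → 0 < a → ∃ A : ℝ, 1 ≤ A ∧
  ∀ C : ℝ, 1 ≤ C → (∀ v, 1 ≤ v → Low k C v (1 / 16)) →
  (∀ v : ℕ, 1 ≤ v → Low k C v (1 - (v : ℝ) ^ (-a₀))) →
  ∀ w : ℕ, 1 ≤ w → Low k (A * C ^ 4) w (1 - (w : ℝ) ^ (-a))

/-- the zero-one law, strong form -/
def T_MAIN2 : Prop := ∀ (k : ℕ) (δ a : ℝ), 2 ≤ k → 0 < δ → δ < 1 → 0 < a →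
  ∃ A : ℝ, 1 ≤ A ∧ ∀ C : ℝ, 1 ≤ C →
  (∀ w : ℕ, 1 ≤ w → Low k (A * C ^ (256 / δ ^ 2)) w (1 - (w : ℝ) ^ (-a))) ∨
  (∃ z : ℝ, 0 < z ∧ ∃ w₀ : ℕ, ∀ w : ℕ, w₀ ≤ w →
    ∃ (X : Type) (_ : Fintype X) (_ : DecidableEq X) (F : Finset (Finset X)),
      Big w C F ∧ (∀ S ∈ F, ∀ S' ∈ F, S ≠ S' → ((S ∩ S').card : ℝ) ≤ δ * w) ∧
      pr k F ≤ Real.exp (-z * w))

end Pool.Agent.ZOL
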