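import Pool.Agent.ZOL.CODE
import Pool.Agent.ZOL.Targets2

/-!
# Zero-one law for rainbow sunflowers: amplification by codes of large distance
-/

set_option autoImplicit false

namespace Pool.Agent.ZOL

open Finset

/-- the intersection of two word sets -/
theorem card_inter_st {X : Type} [Fintype X] [DecidableEq X] {N m D v : ℕ} {δ : ℝ}
    (hδ : 0 ≤ δ) {g : Fin m → Finset X} (hg : ∀ i, (g i).card = v)
    (hgi : ∀ i j, i ≠ j → ((g i ∩ g j).card : ℝ) ≤ δ * v) (c d : Fin N → Fin m) :
    ((CODE_.st D g c ∩ CODE_.st D g d).card : ℝ) ≤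
      v * (N - hammingDist c d : ℝ) + δ * v * N + D := by
  have h1 : CODE_.st D g c ∩ CODE_.st D g d =
      (univ.filter fun p : Fin N × X => p.2 ∈ g (c p.1) ∩ g (d p.1)).disjSum univ := by
    ext y
    rcases y with p | e
    · rw [mem_inter, CODE_.st, CODE_.st, inl_mem_disjSum, inl_mem_disjSum, inl_mem_disjSum]
      simp [mem_filter, mem_inter]
    · rw [mem_inter, CODE_.st, CODE_.st, inr_mem_disjSum, inr_mem_disjSum, inr_mem_disjSum]
      simp
  have h2 : (CODE_.st D g c ∩ CODE_.st D g d).card =
      ∑ j : Fin N, (g (c j) ∩ g (d j)).card + D := by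
    rw [h1, card_disjSum, card_univ, Fintype.card_fin, card_filter, Fintype.sum_prod_type]
    congr 1
    apply sum_congr rfl
    intro j _
    rw [Finset.sum_boole, Nat.cast_id]
    have e5 : (univ.filter fun x : X => x ∈ g (c j) ∩ g (d j)) = g (c j) ∩ g (d j) := by
      ext x
      simp
    exact congrArg card e5
  have h3 : ∀ j : Fin N, ((g (c j) ∩ g (d j)).card : ℝ) ≤
      (if c j ≠ d j then (0 : ℝ) else v) + δ * v := by
    intro j
    split
    · rename_i h
      linarith [hgi _ _ h]
    · rename_i h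
      push Not at h
      rw [h, inter_self, hg]
      have : 0 ≤ δ * v := by positivity
      linarith
  have h4 : ∑ j : Fin N, (if c j ≠ d j then (0 : ℝ) else v) = v * (N - hammingDist c d : ℝ) := by
    have e1 : ∀ j : Fin N, (if c j ≠ d j then (0 : ℝ) else v) =
        v - (if c j ≠ d j then (1 : ℝ) else 0) * v := by
      intro j
      split <;> ring
    rw [sum_congr rfl fun j _ => e1 j, sum_sub_distrib, sum_const, card_univ, Fintype.card_fin,
      nsmul_eq_mul, ← sum_mul, sum_boole]
    unfold hammingDist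
    ring
  rw [h2]
  push_cast
  calc ∑ j : Fin N, ((g (c j) ∩ g (d j)).card : ℝ) + D ≤
        ∑ j : Fin N, ((if c j ≠ d j then (0 : ℝ) else v) + δ * v) + D := by
          linarith [sum_le_sum fun j (_ : j ∈ (univ : Finset (Fin N))) => h3 j]
    _ = v * (N - hammingDist c d : ℝ) + δ * v * N + D := by
      rw [sum_add_distrib, h4, sum_const, card_univ, Fintype.card_fin, nsmul_eq_mul]
      ring

theorem p_CODE2 : T_CODE2 := by
  classical
  intro k v N D B δ X _ _ G hk hv hδ0 hδ1 hδN hB hG hpr hint
  obtain ⟨hGu, hGc⟩ := hG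
  -- enumeration of the members
  obtain ⟨m, hm⟩ : ∃ m, m = G.card := ⟨_, rfl⟩
  set e := G.equivFin with he
  set g : Fin m → Finset X := fun i => (e.symm (Fin.cast hm i) : Finset X) with hgdef
  have hgG : ∀ i, g i ∈ G := fun i => (e.symm (Fin.cast hm i)).2
  have hgu : ∀ i, (g i).card = v := fun i => hGu _ (hgG i)
  have hgi : Function.Injective g := by
    intro i j hij
    have h1 : e.symm (Fin.cast hm i) = e.symm (Fin.cast hm j) := Subtype.ext hij
    have h2 := e.symm.injective h1
    exact Fin.cast_injective hm h2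
  -- the parameters
  set n := ⌊δ * N⌋₊ with hn
  have hδN0 : 0 ≤ δ * N := by linarith
  have hNpos : 1 ≤ N := by
    rcases Nat.eq_zero_or_pos N with h | h
    · rw [h] at hδN
      norm_num at hδN
    · exact h
  have hNR : (1 : ℝ) ≤ N := by exact_mod_cast hNpos
  have hn1 : (n : ℝ) ≤ δ * N := Nat.floor_le hδN0
  have hn2 : δ * N / 2 ≤ n := by
    have h1 : δ * N < n + 1 := Nat.lt_floor_add_one _
    have h2 : 1 ≤ n := by
      rw [hn]
      exact (Nat.one_le_floor_iff _).2 hδN
    have h3 : (1 : ℝ) ≤ n := by exact_mod_cast h2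
    linarith
  have hn4 : 4 * n ≤ N := by
    have : (4 : ℝ) * n ≤ N := by nlinarith
    exact_mod_cast this
  obtain ⟨M, hM⟩ : ∃ M, M = N - n := ⟨_, rfl⟩
  have hMn : M + n = N := by omega
  have hM1 : 1 ≤ M := by omega
  have hM3 : 3 * N ≤ 4 * M := by omega
  obtain ⟨F0, hF0, hF0c⟩ := RainbowSun.Lower.exists_code N m M hM1 (by omega)
  refine ⟨(Fin N × X) ⊕ Fin D, inferInstance, inferInstance, F0.image (CODE_.st D g), ?_, ?_, ?_, ?_, ?_⟩
  · intro S hS
    obtain ⟨c, _, rfl⟩ := mem_image.mp hS
    rw [CODE_.card_st hgu]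
  · -- the size
    rw [card_image_of_injective _ (CODE_.st_injective hgi)]
    have hm1 : B ^ v ≤ (m : ℝ) := by rw [hm]; exact hGc
    have hm0 : (0 : ℝ) < m := lt_of_lt_of_le (by positivity) hm1
    have h1 : ((m ^ N : ℕ) : ℝ) ≤ ((F0.card * (N.choose M * m ^ M) : ℕ) : ℝ) := by
      exact_mod_cast hF0c
    push_cast at h1
    have h2 : (N.choose M : ℝ) ≤ 2 ^ (v * N) := by
      have h3 : N.choose M ≤ 2 ^ N := Nat.choose_le_two_pow N M
      have h4 : (N.choose M : ℝ) ≤ (2 : ℝ) ^ N := by exact_mod_cast h3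
      exact h4.trans (pow_le_pow_right₀ (by norm_num) (Nat.le_mul_of_pos_left N hv))
    have h5 : (m : ℝ) ^ n * (m : ℝ) ^ M ≤ (F0.card * 2 ^ (v * N)) * (m : ℝ) ^ M := by
      calc (m : ℝ) ^ n * (m : ℝ) ^ M = (m : ℝ) ^ N := by
            rw [← pow_add]
            congr 1
            omega
        _ ≤ F0.card * (N.choose M * (m : ℝ) ^ M) := h1
        _ ≤ F0.card * (2 ^ (v * N) * (m : ℝ) ^ M) := by gcongr
        _ = _ := by ring
    have h6 : (m : ℝ) ^ n ≤ F0.card * 2 ^ (v * N) := le_of_mul_le_mul_right h5 (by positivity)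
    have h7 : (B ^ (δ / 2)) ^ (v * N) ≤ (m : ℝ) ^ n := by
      calc (B ^ (δ / 2)) ^ (v * N) = B ^ (v * (δ * N / 2)) := by
            rw [← Real.rpow_natCast, ← Real.rpow_mul (by linarith)]
            congr 1
            push_cast
            ring
        _ ≤ B ^ ((v : ℝ) * n) := by
            apply Real.rpow_le_rpow_of_exponent_le hB
            exact mul_le_mul_of_nonneg_left hn2 (Nat.cast_nonneg _)
        _ = (B ^ v) ^ n := by
            rw [← pow_mul, ← Real.rpow_natCast]
            push_cast
            rfl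
        _ ≤ (m : ℝ) ^ n := pow_le_pow_left₀ (by positivity) hm1 n
    rw [div_pow, div_le_iff₀ (by positivity)]
    exact h7.trans h6
  · -- the intersections
    intro S hS S' hS' hne
    obtain ⟨c, hc, rfl⟩ := mem_image.mp hS
    obtain ⟨d, hd, rfl⟩ := mem_image.mp hS'
    have hcd : c ≠ d := by
      rintro rfl
      exact hne rfl
    have h1 := card_inter_st (D := D) hδ0.le hgu
      (fun i j hij => hint _ (hgG i) _ (hgG j) fun h => hij (hgi h)) c d
    refine h1.trans ?_
    have h2 : (M : ℝ) ≤ hammingDist c d := by exact_mod_cast hF0 c hc d hd hcd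
    have h3 : (N : ℝ) - hammingDist c d ≤ δ * N := by
      have : (M : ℝ) + n = N := by exact_mod_cast hMn
      linarith
    have h4 : (v : ℝ) * (N - hammingDist c d : ℝ) ≤ v * (δ * N) :=
      mul_le_mul_of_nonneg_left h3 (Nat.cast_nonneg _)
    calc (v : ℝ) * (N - hammingDist c d : ℝ) + δ * v * N + D ≤
          v * (δ * N) + δ * v * N + D := by linarith
      _ = _ := by ring
  · -- the probability
    set s : Finset (X → Fin k) := univ.filter fun χ => HasRainbowSunflower G χ with hs
    set K : ℕ := Fintype.card (X → Fin k) with hK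
    have hkpos : 0 < k := by omega
    have hne : Nonempty (Fin k) := ⟨⟨0, hkpos⟩⟩
    have hKpos : (0 : ℝ) < K := by
      have : 0 < K := Fintype.card_pos
      exact_mod_cast this
    have hDpos : (0 : ℝ) < ((Fintype.card (Fin D → Fin k) : ℕ) : ℝ) := by
      have : 0 < Fintype.card (Fin D → Fin k) := Fintype.card_pos
      exact_mod_cast this
    have h1 : (s.card : ℝ) < K * (1 / 16) := by
      rw [pr, prob, Nat.card_eq_fintype_card, Nat.card_eq_fintype_card, Fintype.card_subtype,
        ← hK, div_lt_iff₀ hKpos] at hpr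
      have h2 : (univ.filter fun χ : X → Fin k => HasRainbowSunflower G χ).card = s.card := rfl
      rw [h2] at hpr
      linarith
    have h2 : (univ.filter fun χ : (Fin N × X) ⊕ Fin D → Fin k =>
        HasRainbowSunflower (F0.image (CODE_.st D g)) χ).card ≤
        (N.choose M * (s.card ^ M * K ^ (N - M))) * Fintype.card (Fin D → Fin k) := by
      refine le_trans ?_ (Nat.mul_le_mul_right _ (CODE_.many_good s N M))
      rw [← card_univ, ← card_product]
      refine card_le_card_of_injOn
        (fun χ => ((fun j x => χ (Sum.inl (j, x))), fun d => χ (Sum.inr d))) ?_ ?_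
      · intro χ hχ
        have hχ' : HasRainbowSunflower (F0.image (CODE_.st D g)) χ := by simpa using hχ
        have h3 := CODE_.good hk G g hgu hgi hgG F0 hF0 χ hχ'
        simp only [coe_product, coe_univ, Set.mem_prod, mem_coe, mem_filter, mem_univ, true_and,
          Set.mem_univ, and_true, hs]
        exact h3
      · intro χ _ χ' _ h
        funext y
        rcases y with ⟨j, x⟩ | d
        · exact congrFun (congrFun (Prod.ext_iff.mp h).1 j) x
        · exact congrFun (Prod.ext_iff.mp h).2 d
    have h3 : Fintype.card ((Fin N × X) ⊕ Fin D → Fin k) =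
        K ^ N * Fintype.card (Fin D → Fin k) := by
      simp only [hK, Fintype.card_fun, Fintype.card_sum, Fintype.card_prod, Fintype.card_fin]
      rw [pow_add, ← pow_mul, mul_comm N]
    rw [pr, prob, Nat.card_eq_fintype_card, Nat.card_eq_fintype_card, Fintype.card_subtype, h3]
    rw [div_le_iff₀ (by push_cast; positivity)]
    have h4 : ((univ.filter fun χ : (Fin N × X) ⊕ Fin D → Fin k =>
        HasRainbowSunflower (F0.image (CODE_.st D g)) χ).card : ℝ) ≤
        (N.choose M * ((s.card : ℝ) ^ M * (K : ℝ) ^ (N - M))) *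
          (Fintype.card (Fin D → Fin k) : ℝ) := by exact_mod_cast h2
    refine h4.trans ?_
    have h5 : (N.choose M : ℝ) ≤ 2 ^ N := by
      have h3 : N.choose M ≤ 2 ^ N := Nat.choose_le_two_pow N M
      exact_mod_cast h3
    have h5' : (2 : ℝ) ^ N * (1 / 16) ^ M ≤ (1 / 4) ^ N := by
      have e1 : ((1 : ℝ) / 16) ^ M ≤ (1 / 8) ^ N := by
        have e2 : ((1 : ℝ) / 16) = (1 / 2) ^ 4 := by norm_num
        have e3 : ((1 : ℝ) / 8) = (1 / 2) ^ 3 := by norm_num
        rw [e2, e3, ← pow_mul, ← pow_mul]
        exact pow_le_pow_of_le_one (by norm_num) (by norm_num) hM3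
      calc (2 : ℝ) ^ N * (1 / 16) ^ M ≤ 2 ^ N * (1 / 8) ^ N :=
            mul_le_mul_of_nonneg_left e1 (by positivity)
        _ = (1 / 4) ^ N := by
          rw [← mul_pow]
          norm_num
    have h6 : (N.choose M * ((s.card : ℝ) ^ M * (K : ℝ) ^ (N - M))) ≤
        (1 / 4) ^ N * (K : ℝ) ^ N := by
      calc (N.choose M * ((s.card : ℝ) ^ M * (K : ℝ) ^ (N - M))) ≤
          2 ^ N * ((K * (1 / 16)) ^ M * (K : ℝ) ^ (N - M)) := by
            refine mul_le_mul h5 ?_ (by positivity) (by positivity)
            refine mul_le_mul_of_nonneg_right ?_ (by positivity)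
            exact pow_le_pow_left₀ (by positivity) h1.le _
        _ = (2 ^ N * (1 / 16) ^ M) * ((K : ℝ) ^ M * (K : ℝ) ^ (N - M)) := by
            rw [mul_pow]; ring
        _ = (2 ^ N * (1 / 16) ^ M) * (K : ℝ) ^ N := by
            rw [← pow_add, Nat.add_sub_cancel' (by omega)]
        _ ≤ (1 / 4) ^ N * (K : ℝ) ^ N := mul_le_mul_of_nonneg_right h5' (by positivity)
    calc _ ≤ ((1 / 4) ^ N * (K : ℝ) ^ N) * (Fintype.card (Fin D → Fin k) : ℝ) :=
          mul_le_mul_of_nonneg_right h6 hDpos.le
      _ = _ := by push_cast; ring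
  · -- probability zero
    intro h0
    have hkpos : 0 < k := by omega
    have hne : Nonempty (Fin k) := ⟨⟨0, hkpos⟩⟩
    set s : Finset (X → Fin k) := univ.filter fun χ => HasRainbowSunflower G χ with hs
    have hs0 : s = ∅ := by
      rw [pr, prob, Nat.card_eq_fintype_card, Nat.card_eq_fintype_card, Fintype.card_subtype,
        div_eq_zero_iff] at h0
      rcases h0 with h0 | h0
      · have : s.card = 0 := by exact_mod_cast h0
        exact card_eq_zero.1 this
      · exfalso
        have : 0 < Fintype.card (X → Fin k) := Fintype.card_pos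
        have h1 : Fintype.card (X → Fin k) = 0 := by exact_mod_cast h0
        omega
    have hno : ∀ χ : (Fin N × X) ⊕ Fin D → Fin k,
        ¬ HasRainbowSunflower (F0.image (CODE_.st D g)) χ := by
      intro χ hχ
      have h3 := CODE_.good hk G g hgu hgi hgG F0 hF0 χ hχ
      have h4 : M ≤ 0 := by
        refine h3.trans ?_
        rw [Nat.le_zero, card_eq_zero, filter_eq_empty_iff]
        intro j _ hj
        have h5 : (fun x => χ (Sum.inl (j, x))) ∈ s := mem_filter.2 ⟨mem_univ _, hj⟩
        rw [hs0] at h5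
        exact absurd h5 (notMem_empty _)
      omega
    rw [pr, prob, Nat.card_eq_fintype_card, Fintype.card_subtype, div_eq_zero_iff]
    left
    have : (univ.filter fun χ : (Fin N × X) ⊕ Fin D → Fin k =>
        HasRainbowSunflower (F0.image (CODE_.st D g)) χ) = ∅ :=
      filter_eq_empty_iff.2 fun χ _ => hno χ
    rw [this]
    simp

end Pool.Agent.ZOL
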