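import Mathlib

/-!
# Zero-one law for rainbow sunflowers (MP_2812e0_co): definitions
-/

set_option autoImplicit false

namespace Pool.Agent.ZOL

open Finset Filter

/-! ### Finite product spaces -/

section Product

variable {X A : Type} [Fintype X] [DecidableEq X] [Fintype A]

/-- the weight of a configuration -/
noncomputable def wt (μ : A → ℝ) (ω : X → A) : ℝ := ∏ x, μ (ω x)

/-- the expectation -/
noncomputable def Ex (μ : A → ℝ) (g : (X → A) → ℝ) : ℝ := ∑ ω : X → A, wt μ ω * g ω

/-- `ω` on `U` and `η` elsewhere -/
def mix (U : Finset X) (ω η : X → A) : X → A := fun x => if x ∈ U then ω x else η x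

/-- the conditional expectation given the coordinates in `U` -/
noncomputable def cond (μ : A → ℝ) (U : Finset X) (g : (X → A) → ℝ) (ω : X → A) : ℝ :=
  Ex μ (fun η => g (mix U ω η))

/-- the value at `ω` depends on the coordinate `x` -/
def Piv (f : (X → A) → ℝ) (x : X) (ω : X → A) : Prop :=
  ∃ a b, f (Function.update ω x a) ≠ f (Function.update ω x b)

open Classical in
/-- the probability that the coordinate `x` matters -/
noncomputable def infl (μ : A → ℝ) (f : (X → A) → ℝ) (x : X) : ℝ :=
  Ex μ (fun ω => if Piv f x ω then 1 else 0)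

/-- the sum of these probabilities -/
noncomputable def tot (μ : A → ℝ) (f : (X → A) → ℝ) : ℝ := ∑ x, infl μ f x

end Product

/-! ### Colourings with dead elements -/

/-- An element is alive (`true`) with probability `q`, and has one of `k` colours. -/
noncomputable def mu (k : ℕ) (q : ℝ) (s : Bool × Fin k) : ℝ := (if s.1 = true then q else 1 - q) / k

/-- A rainbow sunflower in `F` all of whose petals are alive; the kernel may contain any
elements. -/
def Succ {X : Type} [DecidableEq X] {k : ℕ} (F : Finset (Finset X))
    (ω : X → Bool × Fin k) : Prop :=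
  ∃ S : Fin k → Finset X, Function.Injective S ∧ (∀ i, S i ∈ F) ∧
    ∀ i j, i ≠ j → ∀ x ∈ S i \ S j, ω x = (true, i)

open Classical in
/-- the indicator of `Succ` -/
noncomputable def suc {X : Type} [DecidableEq X] {k : ℕ} (F : Finset (Finset X))
    (ω : X → Bool × Fin k) : ℝ := if Succ F ω then 1 else 0

/-! ### The notions of the problem -/

/-- The part `X_i` of the partition of `X` described by `χ : X → Fin k`. -/
def part {X : Type} [Fintype X] {k : ℕ} (χ : X → Fin k) (i : Fin k) : Finset X :=
  univ.filter fun x => χ x = i

/-- The probability that the uniformly random partition of `X` into `k` parts has the property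
`P`. -/
noncomputable def prob (X : Type) [Fintype X] (k : ℕ) (P : (X → Fin k) → Prop) : ℝ :=
  (Nat.card {χ : X → Fin k // P χ} : ℝ) / (Nat.card (X → Fin k) : ℝ)

/-- A rainbow `k`-petal sunflower in `F` with respect to the partition given by `χ`. -/
def HasRainbowSunflower {X : Type} [Fintype X] [DecidableEq X] {k : ℕ} (F : Finset (Finset X))
    (χ : X → Fin k) : Prop :=
  ∃ S : Fin k → Finset X, Function.Injective S ∧ (∀ i, S i ∈ F) ∧
    ∀ i j, i ≠ j → S i \ S j ⊆ part χ i

/-- the probability of a rainbow sunflower in `F` -/
noncomputable def pr {X : Type} [Fintype X] [DecidableEq X] (k : ℕ) (F : Finset (Finset X)) : ℝ :=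
  prob X k (fun χ => HasRainbowSunflower F χ)

/-- All members of `F` have `w` elements and there are at least `C ^ w` of them. -/
def Big {X : Type} (w : ℕ) (C : ℝ) (F : Finset (Finset X)) : Prop :=
  (∀ S ∈ F, S.card = w) ∧ C ^ w ≤ (F.card : ℝ)

/-- every set system with base `C` has a rainbow sunflower with probability at least `p w` -/
def Low (k : ℕ) (C : ℝ) (w : ℕ) (p : ℝ) : Prop :=
  ∀ (X : Type) [Fintype X] [DecidableEq X] (F : Finset (Finset X)), Big w C F → p ≤ pr k F

end Pool.Agent.ZOL
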