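import Pool.Agent.ZOL.Targets2

/-!
# Zero-one law for rainbow sunflowers: every exponent
-/

set_option autoImplicit false

namespace Pool.Agent.ZOL

open Finset Filter

section

variable {X : Type} [Fintype X] [DecidableEq X]

omit [Fintype X] in
theorem near_one {w : ℕ} {F : Finset (Finset X)} (hF : ∀ S ∈ F, S.card = w) :
    ∀ S ∈ F, ((F.filter fun S' => (S' \ S).card < 1).card : ℝ) ≤ 1 := by
  intro S hS
  have : (F.filter fun S' => (S' \ S).card < 1) ⊆ {S} := by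
    intro S' hS'
    obtain ⟨h1, h2⟩ := mem_filter.1 hS'
    have h3 : S' \ S = ∅ := by
      rw [← card_eq_zero]
      omega
    have h4 : S' ⊆ S := sdiff_eq_empty_iff_subset.1 h3
    rw [mem_singleton]
    exact eq_of_subset_of_card_le h4 (by rw [hF S hS, hF S' h1])
  have h := card_le_card this
  rw [card_singleton] at h
  exact_mod_cast h

omit [Fintype X] in
/-- spread families have few pairs of close members -/
theorem near_half {v v₀ t : ℕ} {R : ℝ} (hR : 1 ≤ R) {G : Finset (Finset X)}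
    (hG : ∀ S ∈ G, S.card = v) (hv₀ : 1 ≤ v₀) (ht : t + v₀ = v + 1)
    (hs : ∀ L : Finset X, ((G.filter fun S => L ⊆ S).card : ℝ) * R ^ L.card ≤ G.card) :
    ∀ S ∈ G, ((G.filter fun S' => (S' \ S).card < v₀).card : ℝ) ≤ 2 ^ v * G.card / R ^ t := by
  classical
  intro S hS
  have hRt : 0 < R ^ t := by positivity
  have h1 : (G.filter fun S' => (S' \ S).card < v₀) ⊆
      (powersetCard t S).biUnion fun L => G.filter fun S' => L ⊆ S' := by
    intro S' hS'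
    obtain ⟨h1, h2⟩ := mem_filter.1 hS'
    have h3 : t ≤ (S' ∩ S).card := by
      have := card_sdiff_add_card_inter S' S
      rw [hG S' h1] at this
      omega
    obtain ⟨L, hL1, hL2⟩ := exists_subset_card_eq h3
    rw [mem_biUnion]
    refine ⟨L, mem_powersetCard.2 ⟨hL1.trans inter_subset_right, hL2⟩, ?_⟩
    exact mem_filter.2 ⟨h1, hL1.trans inter_subset_left⟩
  have h2 : ((G.filter fun S' => (S' \ S).card < v₀).card : ℝ) ≤
      ∑ L ∈ powersetCard t S, ((G.filter fun S' => L ⊆ S').card : ℝ) := by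
    exact_mod_cast (card_le_card h1).trans card_biUnion_le
  refine h2.trans ?_
  have h3 : ∀ L ∈ powersetCard t S, ((G.filter fun S' => L ⊆ S').card : ℝ) ≤ G.card / R ^ t := by
    intro L hL
    have := hs L
    rw [(mem_powersetCard.1 hL).2] at this
    rwa [le_div_iff₀ hRt]
  refine (sum_le_sum h3).trans ?_
  rw [sum_const, card_powersetCard, hG S hS, nsmul_eq_mul, mul_div_assoc]
  apply mul_le_mul_of_nonneg_right _ (by positivity)
  exact_mod_cast Nat.choose_le_two_pow v t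

end

/-- the final comparison -/
theorem pow_le_target {a : ℝ} {m v w : ℕ} (ha : 0 < a) (hm : 2 * a ≤ m) (hv : 1 ≤ v)
    (hw : 1 ≤ w) (hwv : w ≤ v ^ 2) : 1 / (v : ℝ) ^ m ≤ (w : ℝ) ^ (-a) := by
  have hvR : (1 : ℝ) ≤ v := by exact_mod_cast hv
  have hwR : (0 : ℝ) < w := by exact_mod_cast hw
  have hwv' : (w : ℝ) ≤ (v : ℝ) ^ (2 : ℕ) := by exact_mod_cast hwv
  calc 1 / (v : ℝ) ^ m = (v : ℝ) ^ (-(m : ℝ)) := by
        rw [Real.rpow_neg (by linarith), Real.rpow_natCast, one_div]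
    _ ≤ (v : ℝ) ^ (-(2 * a)) := Real.rpow_le_rpow_of_exponent_le hvR (by linarith)
    _ = ((v : ℝ) ^ (2 : ℕ)) ^ (-a) := by
        rw [← Real.rpow_natCast, ← Real.rpow_mul (by linarith)]
        congr 1
        push_cast
        ring
    _ ≤ (w : ℝ) ^ (-a) := Real.rpow_le_rpow_of_nonpos hwR hwv' (by linarith)

/-- case 1, numerical part -/
theorem ev_one (m : ℕ) : ∃ V : ℕ, ∀ r : ℕ, V ≤ r →
    2 * (r : ℝ) ^ r * (1 / 16) ^ ((r - 1) ^ 2) + (15 / 16) ^ r ≤ 1 / (r : ℝ) ^ m := by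
  have h := tendsto_pow_const_mul_const_pow_of_abs_lt_one m
    (show |(15 / 16 : ℝ)| < 1 by rw [abs_of_pos (by norm_num)]; norm_num)
  have h1 : ∀ᶠ r : ℕ in atTop, (r : ℝ) ^ m * (15 / 16) ^ r < 1 / 3 :=
    h.eventually_lt_const (by norm_num)
  obtain ⟨V, hV⟩ := eventually_atTop.1 h1
  refine ⟨max V 2, fun r hr => ?_⟩
  have hr2 : 2 ≤ r := (le_max_right _ _).trans hr
  have hrR : (2 : ℝ) ≤ r := by exact_mod_cast hr2
  have hV' := hV r ((le_max_left _ _).trans hr)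
  -- `r ^ r * 16 ^ (-(r-1)^2) ≤ (1/2)^r`
  have h2 : (r : ℝ) ^ r * (1 / 16) ^ ((r - 1) ^ 2) ≤ (1 / 2) ^ r := by
    have e1 : r * r ≤ 4 * (r - 1) ^ 2 := by
      obtain ⟨s, rfl⟩ : ∃ s, r = s + 2 := ⟨r - 2, by omega⟩
      have : s + 2 - 1 = s + 1 := by omega
      rw [this]
      nlinarith
    have e2 : ((1 : ℝ) / 16) ^ ((r - 1) ^ 2) ≤ ((1 / 2) ^ r) ^ r := by
      have : ((1 : ℝ) / 16) = (1 / 2) ^ 4 := by norm_num
      rw [this, ← pow_mul, ← pow_mul]
      exact pow_le_pow_of_le_one (by norm_num) (by norm_num) e1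
    have e3 : (r : ℝ) * (1 / 2) ^ r ≤ 1 / 2 := by
      have : r ≤ 2 ^ (r - 1) := by
        have := Nat.lt_two_pow_self (n := r - 1)
        omega
      have h3 : (r : ℝ) ≤ 2 ^ (r - 1) := by exact_mod_cast this
      have h4 : (2 : ℝ) ^ (r - 1) * (1 / 2) ^ r = 1 / 2 := by
        obtain ⟨s, rfl⟩ : ∃ s, r = s + 1 := ⟨r - 1, by omega⟩
        rw [Nat.add_sub_cancel, pow_succ, ← mul_assoc, ← mul_pow]
        norm_num
      calc (r : ℝ) * (1 / 2) ^ r ≤ 2 ^ (r - 1) * (1 / 2) ^ r :=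
            mul_le_mul_of_nonneg_right h3 (by positivity)
        _ = 1 / 2 := h4
    calc (r : ℝ) ^ r * (1 / 16) ^ ((r - 1) ^ 2) ≤ (r : ℝ) ^ r * ((1 / 2) ^ r) ^ r :=
          mul_le_mul_of_nonneg_left e2 (by positivity)
      _ = ((r : ℝ) * (1 / 2) ^ r) ^ r := by rw [mul_pow]
      _ ≤ (1 / 2) ^ r := pow_le_pow_left₀ (by positivity) e3 r
  have h3 : ((1 : ℝ) / 2) ^ r ≤ (15 / 16) ^ r := pow_le_pow_left₀ (by norm_num) (by norm_num) r
  have hrm : (0 : ℝ) < (r : ℝ) ^ m := by positivity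
  rw [le_div_iff₀ hrm]
  nlinarith

/-- case 2, numerical part -/
theorem ev_two (m r₁ : ℕ) : ∃ V : ℕ, ∀ v : ℕ, V ≤ v →
    2 * (r₁ : ℝ) * (1 / 4) ^ v + (2 / (v : ℝ)) ^ (m + 1) ≤ 1 / (v : ℝ) ^ m := by
  have h := tendsto_pow_const_mul_const_pow_of_abs_lt_one m
    (show |(1 / 4 : ℝ)| < 1 by rw [abs_of_pos (by norm_num)]; norm_num)
  have h1 : ∀ᶠ v : ℕ in atTop, (v : ℝ) ^ m * (1 / 4) ^ v < 1 / (4 * (r₁ + 1)) :=
    h.eventually_lt_const (by positivity)
  obtain ⟨V, hV⟩ := eventually_atTop.1 h1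
  refine ⟨max V (2 ^ (m + 2)), fun v hv => ?_⟩
  have hv2 : 2 ^ (m + 2) ≤ v := (le_max_right _ _).trans hv
  have hvR : (2 : ℝ) ^ (m + 2) ≤ v := by exact_mod_cast hv2
  have hv0 : (0 : ℝ) < v := lt_of_lt_of_le (by positivity) hvR
  have hV' := hV v ((le_max_left _ _).trans hv)
  have hvm : (0 : ℝ) < (v : ℝ) ^ m := by positivity
  rw [le_div_iff₀ hvm, add_mul]
  have e1 : 2 * (r₁ : ℝ) * (1 / 4) ^ v * (v : ℝ) ^ m ≤ 1 / 2 := by
    have hr : (0 : ℝ) < 4 * (r₁ + 1) := by positivity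
    have h2 : 2 * (r₁ : ℝ) * ((v : ℝ) ^ m * (1 / 4) ^ v) ≤ 2 * r₁ * (1 / (4 * (r₁ + 1))) :=
      mul_le_mul_of_nonneg_left hV'.le (by positivity)
    have h3 : 2 * (r₁ : ℝ) * (1 / (4 * (r₁ + 1))) ≤ 1 / 2 := by
      rw [mul_one_div, div_le_div_iff₀ hr (by norm_num)]
      linarith
    calc 2 * (r₁ : ℝ) * (1 / 4) ^ v * (v : ℝ) ^ m = 2 * (r₁ : ℝ) * ((v : ℝ) ^ m * (1 / 4) ^ v) := by
          ring
      _ ≤ _ := h2.trans h3
  have e2 : (2 / (v : ℝ)) ^ (m + 1) * (v : ℝ) ^ m ≤ 1 / 2 := by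
    rw [div_pow, pow_succ (v : ℝ) m, div_mul_eq_mul_div, div_le_div_iff₀ (by positivity)
      (by norm_num)]
    calc (2 : ℝ) ^ (m + 1) * (v : ℝ) ^ m * 2 = 2 ^ (m + 2) * (v : ℝ) ^ m := by ring
      _ ≤ v * (v : ℝ) ^ m := mul_le_mul_of_nonneg_right hvR hvm.le
      _ = _ := by ring
  linarith

theorem Big_anti {X : Type} {w : ℕ} {C C1 : ℝ} {F : Finset (Finset X)} (h0 : 0 ≤ C) (h : C ≤ C1)
    (hF : Big w C1 F) : Big w C F :=
  ⟨hF.1, (pow_le_pow_left₀ h0 h w).trans hF.2⟩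

theorem p_EXP (hSPR : T_SPR) (hLP : T_LINKPR) (hR : T_ROUNDS) : T_EXP := by
  classical
  intro k a₀ a hk ha₀ ha
  obtain ⟨m, hm⟩ := exists_nat_ge (2 * a)
  obtain ⟨r₁', hr₁'⟩ := exists_nat_ge (((m : ℝ) + 1) / a₀)
  obtain ⟨r₁, hr₁def⟩ : ∃ r₁, r₁ = r₁' + 1 := ⟨_, rfl⟩
  have hr₁1 : 1 ≤ r₁ := by omega
  have hr₁R : (1 : ℝ) ≤ r₁ := by exact_mod_cast hr₁1
  have hr₁a : (m : ℝ) + 1 ≤ a₀ * r₁ := by
    rw [div_le_iff₀ ha₀] at hr₁'
    rw [hr₁def]
    push_cast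
    nlinarith
  obtain ⟨V1, hV1⟩ := ev_one m
  obtain ⟨V2, hV2⟩ := ev_two m r₁
  -- the threshold between small and large `w`
  obtain ⟨ws, hws⟩ : ∃ ws : ℕ, ws = (V1 + V2 + 2) ^ 2 := ⟨_, rfl⟩
  have hws1 : 1 ≤ ws := by
    rw [hws]
    exact Nat.one_le_pow _ _ (by omega)
  have hwsR : (1 : ℝ) ≤ ws := by exact_mod_cast hws1
  have hta : 0 < (ws : ℝ) ^ (-a) := Real.rpow_pos_of_pos (by linarith) _
  obtain ⟨r₂', hr₂'⟩ := exists_pow_lt_of_lt_one (half_pos hta) (show (15 / 16 : ℝ) < 1 by norm_num)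
  obtain ⟨r₂, hr₂def⟩ : ∃ r₂, r₂ = r₂' + 1 := ⟨_, rfl⟩
  have hr₂1 : 1 ≤ r₂ := by omega
  have hr₂R : (1 : ℝ) ≤ r₂ := by exact_mod_cast hr₂1
  have hr₂ : (15 / 16 : ℝ) ^ r₂ ≤ (ws : ℝ) ^ (-a) / 2 := by
    refine le_trans ?_ hr₂'.le
    exact pow_le_pow_of_le_one (by norm_num) (by norm_num) (by omega)
  set A : ℝ := max (4096 * (r₁ : ℝ) ^ 4) (8 * (r₂ : ℝ) ^ 2 / (ws : ℝ) ^ (-a)) with hA
  have hA1 : 4096 * (r₁ : ℝ) ^ 4 ≤ A := le_max_left _ _
  have hA2 : 8 * (r₂ : ℝ) ^ 2 / (ws : ℝ) ^ (-a) ≤ A := le_max_right _ _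
  have hr₁4 : (1 : ℝ) ≤ (r₁ : ℝ) ^ 4 := one_le_pow₀ hr₁R
  have hAone : 1 ≤ A := by linarith
  refine ⟨A, hAone, ?_⟩
  intro C hC hlow hlowa w hw X _ _ F hF
  have hwR : (1 : ℝ) ≤ w := by exact_mod_cast hw
  have hwpos : (0 : ℝ) < w := by linarith
  have hC4 : (1 : ℝ) ≤ C ^ 4 := one_le_pow₀ hC
  have hlow' : ∀ v, 1 ≤ v → Low k C v (1 - 15 / 16) := by
    intro v hv
    have : (1 - 15 / 16 : ℝ) = 1 / 16 := by norm_num
    rw [this]
    exact hlow v hv
  suffices h : 1 - pr k F ≤ (w : ℝ) ^ (-a) by linarith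
  have hcardpos : ∀ {G : Finset (Finset X)} {B : ℝ} {n : ℕ}, 1 ≤ B → B ^ n ≤ (G.card : ℝ) →
      G.Nonempty := by
    intro G B n hB hG
    rw [nonempty_iff_ne_empty]
    rintro rfl
    have : (1 : ℝ) ≤ B ^ n := one_le_pow₀ hB
    simp at hG
    linarith
  by_cases hcase : w < ws
  · -- small `w`
    have h1 := hR k r₂ w 1 C 1 (15 / 16) X F hk hr₂1 hw le_rfl (by linarith) zero_le_one
      (by norm_num) hlow' hF.1 (hcardpos (by nlinarith) hF.2) (near_one hF.1)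
    refine h1.trans ?_
    have hwws : (ws : ℝ) ^ (-a) ≤ (w : ℝ) ^ (-a) :=
      Real.rpow_le_rpow_of_nonpos hwpos (by exact_mod_cast hcase.le) (by linarith)
    -- the first term
    have h2 : (r₂ : ℝ) * (r₂ : ℝ) ^ w * ((1 + C) ^ w + 1) / F.card ≤ (ws : ℝ) ^ (-a) / 2 := by
      have hAC : 0 < A * C ^ 4 := by positivity
      have g1 : (1 + C) ^ w + 1 ≤ 2 * (2 * C) ^ w := by
        have e1 : (1 + C) ^ w ≤ (2 * C) ^ w := pow_le_pow_left₀ (by linarith) (by linarith) w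
        have e2 : (1 : ℝ) ≤ (2 * C) ^ w := one_le_pow₀ (by linarith)
        linarith
      have g2 : (r₂ : ℝ) * (r₂ : ℝ) ^ w * ((1 + C) ^ w + 1) / F.card ≤
          (r₂ : ℝ) * (r₂ : ℝ) ^ w * (2 * (2 * C) ^ w) / (A * C ^ 4) ^ w := by
        apply div_le_div₀ (by positivity) _ (by positivity) hF.2
        exact mul_le_mul_of_nonneg_left g1 (by positivity)
      have g3 : (r₂ : ℝ) * (r₂ : ℝ) ^ w * (2 * (2 * C) ^ w) / (A * C ^ 4) ^ w =
          2 * r₂ * (r₂ * (2 * C) / (A * C ^ 4)) ^ w := by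
        rw [div_pow, mul_pow (r₂ : ℝ) (2 * C) w]
        ring
      have hApos : 0 < A := by linarith
      have g4 : r₂ * (2 * C) / (A * C ^ 4) ≤ 2 * r₂ / A := by
        rw [div_le_div_iff₀ hAC hApos]
        have hCC : C ≤ C ^ 4 := by
          calc C = C ^ 1 := (pow_one C).symm
            _ ≤ C ^ 4 := pow_le_pow_right₀ hC (by norm_num)
        calc (r₂ : ℝ) * (2 * C) * A = 2 * r₂ * A * C := by ring
          _ ≤ 2 * r₂ * A * C ^ 4 := mul_le_mul_of_nonneg_left hCC (by positivity)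
          _ = _ := by ring
      have hbA : 8 * (r₂ : ℝ) ^ 2 ≤ A * (ws : ℝ) ^ (-a) := by
        rwa [div_le_iff₀ hta] at hA2
      have hta1 : (ws : ℝ) ^ (-a) ≤ 1 := Real.rpow_le_one_of_one_le_of_nonpos hwsR (by linarith)
      have g5 : 2 * (r₂ : ℝ) / A ≤ 1 := by
        rw [div_le_one hApos]
        nlinarith
      have g6 : (r₂ * (2 * C) / (A * C ^ 4)) ^ w ≤ 2 * r₂ / A := by
        have hn : 0 ≤ r₂ * (2 * C) / (A * C ^ 4) := by positivity
        calc (r₂ * (2 * C) / (A * C ^ 4)) ^ w ≤ (r₂ * (2 * C) / (A * C ^ 4)) ^ 1 :=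
              pow_le_pow_of_le_one hn (g4.trans g5) hw
          _ = r₂ * (2 * C) / (A * C ^ 4) := pow_one _
          _ ≤ _ := g4
      calc _ ≤ 2 * r₂ * (r₂ * (2 * C) / (A * C ^ 4)) ^ w := by rw [← g3]; exact g2
        _ ≤ 2 * r₂ * (2 * r₂ / A) := mul_le_mul_of_nonneg_left g6 (by positivity)
        _ ≤ (ws : ℝ) ^ (-a) / 2 := by
          rw [mul_div_assoc', div_le_div_iff₀ hApos (by norm_num)]
          nlinarith
    linarith
  · -- large `w`
    push Not at hcase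
    obtain ⟨ρ, hρ⟩ : ∃ ρ : ℝ, ρ = 8 * r₁ * C := ⟨_, rfl⟩
    have hρ8 : 8 ≤ ρ := by
      rw [hρ]
      nlinarith
    have hρpos : 0 < ρ := by linarith
    have hρ2 : 1 ≤ ρ ^ 2 := one_le_pow₀ (by linarith)
    have hρAC : (ρ ^ 2) ^ 2 ≤ A * C ^ 4 := by
      calc (ρ ^ 2) ^ 2 = 4096 * (r₁ : ℝ) ^ 4 * C ^ 4 := by rw [hρ]; ring
        _ ≤ A * C ^ 4 := mul_le_mul_of_nonneg_right hA1 (by positivity)
    have hρAC' : ρ ^ 2 ≤ A * C ^ 4 := by
      refine le_trans ?_ hρAC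
      calc ρ ^ 2 = (ρ ^ 2) ^ 1 := (pow_one _).symm
        _ ≤ _ := pow_le_pow_right₀ hρ2 (by norm_num)
    obtain ⟨K, hK, hGu, hGc, hGs⟩ := hSPR w (ρ ^ 2) X F hw hρ2
      (Big_anti (by positivity) hρAC' hF)
    refine le_trans (by linarith [hLP k X F K] : 1 - pr k F ≤ 1 - pr k (link F K)) ?_
    set G := link F K with hG
    obtain ⟨v, hv⟩ : ∃ v, v = w - K.card := ⟨_, rfl⟩
    rw [← hv] at hGu
    have hv1 : 1 ≤ v := by omega
    have hvw : v ≤ w := by omega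
    -- `G` is large
    have hGbig : (ρ ^ 2) ^ w ≤ (G.card : ℝ) := by
      have h1 : ((ρ ^ 2) ^ 2) ^ w ≤ G.card * (ρ ^ 2) ^ K.card :=
        ((pow_le_pow_left₀ (by positivity) hρAC w).trans hF.2).trans hGc
      have h2 : (G.card : ℝ) * (ρ ^ 2) ^ K.card ≤ G.card * (ρ ^ 2) ^ w :=
        mul_le_mul_of_nonneg_left (pow_le_pow_right₀ hρ2 hK.le) (Nat.cast_nonneg _)
      have h3 : ((ρ ^ 2) ^ 2) ^ w = (ρ ^ 2) ^ w * (ρ ^ 2) ^ w := by
        rw [← mul_pow, ← sq]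
      rw [h3] at h1
      exact le_of_mul_le_mul_right (h1.trans h2) (by positivity)
    have hGne : G.Nonempty := hcardpos hρ2 hGbig
    have hGpos : (0 : ℝ) < G.card := lt_of_lt_of_le (by positivity) hGbig
    obtain ⟨s, hs⟩ : ∃ s, s = Nat.sqrt w := ⟨_, rfl⟩
    have hs1 : s * s ≤ w := by rw [hs]; exact Nat.sqrt_le w
    have hs2 : w < (s + 1) * (s + 1) := by rw [hs]; exact Nat.lt_succ_sqrt w
    have hsV : V1 + V2 + 2 ≤ s := by
      rw [hs, Nat.le_sqrt, ← sq, ← hws]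
      exact hcase
    by_cases hvs : v ≤ s
    · -- case 1: many rounds
      have h1 := hR k (s + 1) v 1 C 1 (15 / 16) X G hk (by omega) hv1 le_rfl (by linarith)
        zero_le_one (by norm_num) hlow' hGu hGne (near_one hGu)
      refine h1.trans ?_
      have h2 := hV1 (s + 1) (by omega)
      have h3 := pow_le_target ha hm (show 1 ≤ s + 1 by omega) hw
        (by rw [sq]; exact hs2.le)
      refine le_trans (le_trans (add_le_add ?_ le_rfl) h2) h3
      -- the first term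
      have hrR : (1 : ℝ) ≤ ((s + 1 : ℕ) : ℝ) := by exact_mod_cast (show 1 ≤ s + 1 by omega)
      set r : ℝ := ((s + 1 : ℕ) : ℝ) with hr
      have g1 : (1 + C) ^ v + 1 ≤ 2 * (2 * C) ^ w := by
        have e1 : (1 + C) ^ v ≤ (2 * C) ^ w := by
          calc (1 + C) ^ v ≤ (2 * C) ^ v := pow_le_pow_left₀ (by linarith) (by linarith) v
            _ ≤ (2 * C) ^ w := pow_le_pow_right₀ (by linarith) hvw
        have e2 : (1 : ℝ) ≤ (2 * C) ^ w := one_le_pow₀ (by linarith)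
        linarith
      have g2 : r * r ^ v ≤ r ^ (s + 1) := by
        rw [← pow_succ']
        exact pow_le_pow_right₀ hrR (by omega)
      have g3 : r * r ^ v * ((1 + C) ^ v + 1) / G.card ≤
          r ^ (s + 1) * (2 * (2 * C) ^ w) / (ρ ^ 2) ^ w := by
        apply div_le_div₀ (by positivity) _ (by positivity) hGbig
        exact mul_le_mul g2 g1 (by positivity) (by positivity)
      have g4 : (2 * C) ^ w / (ρ ^ 2) ^ w ≤ (1 / 16) ^ w := by
        rw [← div_pow]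
        apply pow_le_pow_left₀ (by positivity)
        rw [div_le_div_iff₀ (by positivity) (by norm_num)]
        have : ρ ^ 2 = ρ * ρ := sq ρ
        have e1 : 8 * C ≤ ρ := by
          rw [hρ]
          nlinarith
        nlinarith
      have g5 : ((1 : ℝ) / 16) ^ w ≤ (1 / 16) ^ ((s + 1 - 1) ^ 2) := by
        apply pow_le_pow_of_le_one (by norm_num) (by norm_num)
        rw [Nat.add_sub_cancel, sq]
        exact hs1
      calc r * r ^ v * ((1 + C) ^ v + 1) / G.card ≤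
            r ^ (s + 1) * (2 * (2 * C) ^ w) / (ρ ^ 2) ^ w := g3
        _ = 2 * r ^ (s + 1) * ((2 * C) ^ w / (ρ ^ 2) ^ w) := by ring
        _ ≤ 2 * r ^ (s + 1) * (1 / 16) ^ ((s + 1 - 1) ^ 2) :=
          mul_le_mul_of_nonneg_left (g4.trans g5) (by positivity)
    · -- case 2: `v` is large
      push Not at hvs
      obtain ⟨v₀, hv₀⟩ : ∃ v₀, v₀ = (v + 1) / 2 := ⟨_, rfl⟩
      obtain ⟨t, ht⟩ : ∃ t, t = v + 1 - v₀ := ⟨_, rfl⟩
      have hv₀1 : 1 ≤ v₀ := by omega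
      have ht1 : t + v₀ = v + 1 := by omega
      have ht2 : v ≤ 2 * t := by omega
      have hv₀2 : v ≤ 2 * v₀ := by omega
      have hv₀R : (1 : ℝ) ≤ v₀ := by exact_mod_cast hv₀1
      have hvR : (1 : ℝ) ≤ v := by exact_mod_cast hv1
      have hη : ∀ v', v₀ ≤ v' → Low k C v' (1 - (v₀ : ℝ) ^ (-a₀)) := by
        intro v' hv' Y _ _ F' hF'
        have h1 := hlowa v' (by omega) Y F' hF'
        have h2 : (v' : ℝ) ^ (-a₀) ≤ (v₀ : ℝ) ^ (-a₀) :=
          Real.rpow_le_rpow_of_nonpos (by linarith) (by exact_mod_cast hv') (by linarith)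
        linarith
      have hM : ∀ S ∈ G, ((G.filter fun S' => (S' \ S).card < v₀).card : ℝ) ≤
          2 ^ v * G.card / ρ ^ v := by
        intro S hS
        refine (near_half hρ2 hGu hv₀1 ht1 hGs S hS).trans ?_
        apply div_le_div_of_nonneg_left (by positivity) (by positivity)
        rw [← pow_mul]
        exact pow_le_pow_right₀ (by linarith) ht2
      have h1 := hR k r₁ v v₀ C (2 ^ v * G.card / ρ ^ v) ((v₀ : ℝ) ^ (-a₀)) X G hk hr₁1 hv1 hv₀1
        (by linarith) (by positivity) (Real.rpow_nonneg (by linarith) _) hη hGu hGne hM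
      refine h1.trans ?_
      have h2 := hV2 v (by omega)
      have h3 := pow_le_target ha hm hv1 hw (by nlinarith)
      refine le_trans (le_trans (add_le_add ?_ ?_) h2) h3
      · -- the first term
        have g1 : (r₁ : ℝ) * (r₁ : ℝ) ^ v * ((1 + C) ^ v + 2 ^ v * G.card / ρ ^ v) / G.card =
            r₁ * ((r₁ * (1 + C)) ^ v / G.card) + r₁ * (r₁ * 2 / ρ) ^ v := by
          rw [div_pow, mul_pow, mul_pow]
          field_simp
        have g2 : (r₁ * (1 + C)) ^ v / G.card ≤ (1 / 4) ^ v := by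
          have e1 : (ρ ^ 2) ^ v ≤ (G.card : ℝ) := (pow_le_pow_right₀ hρ2 hvw).trans hGbig
          calc (r₁ * (1 + C)) ^ v / G.card ≤ (r₁ * (1 + C)) ^ v / (ρ ^ 2) ^ v :=
                div_le_div_of_nonneg_left (by positivity) (by positivity) e1
            _ = (r₁ * (1 + C) / ρ ^ 2) ^ v := by rw [div_pow]
            _ ≤ (1 / 4) ^ v := by
              apply pow_le_pow_left₀ (by positivity)
              rw [div_le_div_iff₀ (by positivity) (by norm_num)]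
              have e2 : r₁ * (1 + C) * 4 ≤ ρ := by
                rw [hρ]
                nlinarith
              nlinarith
        have g3 : (r₁ * 2 / ρ) ^ v ≤ (1 / 4) ^ v := by
          apply pow_le_pow_left₀ (by positivity)
          rw [div_le_div_iff₀ hρpos (by norm_num), hρ]
          nlinarith
        rw [g1]
        have hr₁0 : (0 : ℝ) ≤ r₁ := by linarith
        have g4 := mul_le_mul_of_nonneg_left g2 hr₁0
        have g5 := mul_le_mul_of_nonneg_left g3 hr₁0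
        linarith
      · -- the second term
        have hv₀v : (v : ℝ) ≤ 2 * v₀ := by exact_mod_cast hv₀2
        have hvpos : (0 : ℝ) < v := by linarith
        have e0 : (v : ℝ) / 2 ≤ v₀ := by linarith
        calc ((v₀ : ℝ) ^ (-a₀)) ^ r₁ = (v₀ : ℝ) ^ (-(a₀ * r₁)) := by
              rw [← Real.rpow_natCast, ← Real.rpow_mul (by linarith)]
              congr 1
              ring
          _ ≤ (v₀ : ℝ) ^ (-((m + 1 : ℕ) : ℝ)) := by
              apply Real.rpow_le_rpow_of_exponent_le hv₀R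
              push_cast
              linarith
          _ = (1 / (v₀ : ℝ)) ^ (m + 1) := by
              rw [Real.rpow_neg (by linarith), Real.rpow_natCast, one_div, inv_pow]
          _ ≤ (2 / (v : ℝ)) ^ (m + 1) := by
              apply pow_le_pow_left₀ (by positivity)
              rw [div_le_div_iff₀ (by linarith) hvpos]
              linarith

end Pool.Agent.ZOL
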