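import Pool.Agent.ZOL.Targets2

/-!
# Zero-one law for rainbow sunflowers: spread links and subfamilies with small intersections
-/

set_option autoImplicit false

namespace Pool.Agent.ZOL

open Finset

section

variable {X : Type} [DecidableEq X]

theorem mem_link {F : Finset (Finset X)} {K S : Finset X} :
    S ∈ link F K ↔ Disjoint S K ∧ S ∪ K ∈ F := by
  unfold link
  rw [mem_image]
  constructor
  · rintro ⟨S', hS', rfl⟩
    obtain ⟨h1, h2⟩ := mem_filter.1 hS'
    exact ⟨sdiff_disjoint, by rwa [sdiff_union_of_subset h2]⟩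
  · rintro ⟨h1, h2⟩
    refine ⟨S ∪ K, mem_filter.2 ⟨h2, subset_union_right⟩, ?_⟩
    rw [union_sdiff_right]
    exact sdiff_eq_self_of_disjoint h1

theorem card_link {w : ℕ} {F : Finset (Finset X)} (hF : ∀ S ∈ F, S.card = w) (K : Finset X) :
    ∀ S ∈ link F K, S.card = w - K.card := by
  intro S hS
  obtain ⟨h1, h2⟩ := mem_link.1 hS
  have := hF _ h2
  rw [card_union_of_disjoint h1] at this
  omega

/-- the number of members containing `K` -/
theorem card_link_eq (F : Finset (Finset X)) (K : Finset X) :
    (link F K).card = (F.filter fun S => K ⊆ S).card := by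
  unfold link
  apply card_image_of_injOn
  intro S hS S' hS' h
  have h1 := (mem_filter.1 (mem_coe.1 hS)).2
  have h2 := (mem_filter.1 (mem_coe.1 hS')).2
  dsimp only at h
  rw [← sdiff_union_of_subset h1, ← sdiff_union_of_subset h2, h]

/-- members of a link containing `L` -/
theorem card_link_filter (F : Finset (Finset X)) {K L : Finset X} (h : Disjoint L K) :
    ((link F K).filter fun S => L ⊆ S).card = (F.filter fun S => K ∪ L ⊆ S).card := by
  apply card_bij' (fun S _ => S ∪ K) (fun S _ => S \ K)
  · intro S hS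
    obtain ⟨h1, h2⟩ := mem_filter.1 hS
    obtain ⟨h3, h4⟩ := mem_link.1 h1
    exact mem_filter.2 ⟨h4, union_subset subset_union_right (h2.trans subset_union_left)⟩
  · intro S hS
    obtain ⟨h1, h2⟩ := mem_filter.1 hS
    have hK : K ⊆ S := subset_union_left.trans h2
    have hL : L ⊆ S := subset_union_right.trans h2
    refine mem_filter.2 ⟨mem_link.2 ⟨sdiff_disjoint, ?_⟩, ?_⟩
    · rwa [sdiff_union_of_subset hK]
    · intro x hx
      exact mem_sdiff.2 ⟨hL hx, disjoint_left.1 h hx⟩
  · intro S hS
    obtain ⟨h3, h4⟩ := mem_link.1 (mem_filter.1 hS).1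
    rw [union_sdiff_right]
    exact sdiff_eq_self_of_disjoint h3
  · intro S hS
    obtain ⟨h1, h2⟩ := mem_filter.1 hS
    exact sdiff_union_of_subset (subset_union_left.trans h2)

theorem link_empty_filter (F : Finset (Finset X)) {K L : Finset X} (h : ¬ Disjoint L K) :
    ((link F K).filter fun S => L ⊆ S) = ∅ := by
  rw [filter_eq_empty_iff]
  intro S hS hL
  exact h (disjoint_of_subset_left hL (mem_link.1 hS).1)

end

theorem pr_mono {X : Type} [Fintype X] [DecidableEq X] {k : ℕ} {F G : Finset (Finset X)}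
    (h : ∀ χ : X → Fin k, HasRainbowSunflower G χ → HasRainbowSunflower F χ) :
    pr k G ≤ pr k F := by
  classical
  unfold pr prob
  apply div_le_div_of_nonneg_right _ (Nat.cast_nonneg _)
  rw [Nat.card_eq_fintype_card, Nat.card_eq_fintype_card]
  exact_mod_cast Fintype.card_subtype_mono _ _ h

theorem p_LINKPR : T_LINKPR := by
  intro k X _ _ F K
  apply pr_mono
  rintro χ ⟨S, h1, h2, h3⟩
  have hd : ∀ i, Disjoint (S i) K := fun i => (mem_link.1 (h2 i)).1
  refine ⟨fun i => S i ∪ K, ?_, fun i => (mem_link.1 (h2 i)).2, ?_⟩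
  · intro i j hij
    apply h1
    dsimp only at hij
    have e : ∀ i, (S i ∪ K) \ K = S i := fun i => by
      rw [union_sdiff_right]
      exact sdiff_eq_self_of_disjoint (hd i)
    rw [← e i, ← e j, hij]
  · intro i j hij x hx
    simp only [mem_sdiff, mem_union, not_or] at hx
    obtain ⟨hx1, hx2, hx3⟩ := hx
    exact h3 i j hij (mem_sdiff.2 ⟨hx1.resolve_right hx3, hx2⟩)

theorem p_SPR : T_SPR := by
  classical
  intro w R X _ _ F hw hR hF
  have hR0 : (0 : ℝ) < R := by linarith
  obtain ⟨K, hKm, hmax⟩ := exists_max_image ((univ : Finset (Finset X)).filter fun K => K.card < w)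
    (fun K => ((F.filter fun S => K ⊆ S).card : ℝ) * R ^ K.card) ⟨∅, by
      rw [mem_filter, card_empty]
      exact ⟨mem_univ _, by omega⟩⟩
  have hK : K.card < w := (mem_filter.1 hKm).2
  have h0 : (F.card : ℝ) ≤ (link F K).card * R ^ K.card := by
    have := hmax ∅ (by
      rw [mem_filter, card_empty]
      exact ⟨mem_univ _, by omega⟩)
    simp only [card_empty, pow_zero, mul_one, empty_subset, filter_true] at this
    rwa [card_link_eq]
  refine ⟨K, hK, card_link hF.1 K, h0, ?_⟩
  intro L
  by_cases hd : Disjoint L K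
  · by_cases hL : K.card + L.card < w
    · have h1 := hmax (K ∪ L) (by
        rw [mem_filter, card_union_of_disjoint hd.symm]
        exact ⟨mem_univ _, hL⟩)
      rw [card_union_of_disjoint hd.symm, ← card_link_filter F hd, ← card_link_eq F K,
        pow_add] at h1
      have hRK : 0 < R ^ K.card := by positivity
      have h2 : (((link F K).filter fun S => L ⊆ S).card * R ^ L.card) * R ^ K.card ≤
          (link F K).card * R ^ K.card := by
        calc _ = ((link F K).filter fun S => L ⊆ S).card * (R ^ K.card * R ^ L.card) := by ring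
          _ ≤ _ := h1
      exact le_of_mul_le_mul_right h2 hRK
    · push Not at hL
      -- at most one member
      have h1 : (((link F K).filter fun S => L ⊆ S).card : ℝ) ≤ 1 := by
        have : ((link F K).filter fun S => L ⊆ S).card ≤ 1 := by
          rw [card_le_one]
          intro S hS S' hS'
          obtain ⟨g1, g2⟩ := mem_filter.1 hS
          obtain ⟨g3, g4⟩ := mem_filter.1 hS'
          have e1 := card_link hF.1 K S g1
          have e2 := card_link hF.1 K S' g3
          have e3 : L = S := eq_of_subset_of_card_le g2 (by omega)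
          have e4 : L = S' := eq_of_subset_of_card_le g4 (by omega)
          exact e3.symm.trans e4
        exact_mod_cast this
      by_cases hne : ((link F K).filter fun S => L ⊆ S) = ∅
      · rw [hne]
        simp
      · obtain ⟨S, hS⟩ := nonempty_iff_ne_empty.2 hne
        obtain ⟨g1, g2⟩ := mem_filter.1 hS
        have e1 := card_link hF.1 K S g1
        have e2 := card_le_card g2
        have hLw : L.card ≤ w - K.card := by omega
        have h2 : R ^ (w - K.card) ≤ ((link F K).card : ℝ) := by
          have h3 : R ^ w ≤ (link F K).card * R ^ K.card := hF.2.trans h0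
          have h4 : R ^ w = R ^ (w - K.card) * R ^ K.card := by
            rw [← pow_add]
            congr 1
            omega
          rw [h4] at h3
          exact le_of_mul_le_mul_right h3 (by positivity)
        calc _ ≤ 1 * R ^ L.card := mul_le_mul_of_nonneg_right h1 (by positivity)
          _ = R ^ L.card := one_mul _
          _ ≤ R ^ (w - K.card) := pow_le_pow_right₀ hR hLw
          _ ≤ _ := h2
  · rw [link_empty_filter F hd]
    simp

/-- a maximal subfamily with small intersections -/
theorem exists_far {X : Type} [Fintype X] [DecidableEq X] (H : Finset (Finset X)) (D : ℝ)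
    (P : Finset X → Finset X → Prop) (hsymm : ∀ S S', P S S' → P S' S)
    (hself : ∀ S ∈ H, P S S)
    (hD : ∀ S ∈ H, ∀ B : Finset (Finset X), (∀ S' ∈ B, S' ∈ H ∧ P S S') → (B.card : ℝ) ≤ D) :
    ∃ G ⊆ H, (∀ S ∈ G, ∀ S' ∈ G, S ≠ S' → ¬ P S S') ∧ (H.card : ℝ) ≤ G.card * D := by
  classical
  obtain ⟨G, hGm, hmax⟩ := exists_max_image
    (H.powerset.filter fun G => ∀ S ∈ G, ∀ S' ∈ G, S ≠ S' → ¬ P S S') card ⟨∅, by simp⟩
  obtain ⟨hGH, hGP⟩ := mem_filter.1 hGm
  rw [mem_powerset] at hGH
  refine ⟨G, hGH, hGP, ?_⟩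
  have hcov : H ⊆ G.biUnion fun S => H.filter fun S' => P S S' := by
    intro S hS
    rw [mem_biUnion]
    by_contra hcon
    push Not at hcon
    have hSG : S ∉ G := fun h => hcon S h (mem_filter.2 ⟨hS, hself S hS⟩)
    have := hmax (insert S G) (by
      rw [mem_filter, mem_powerset]
      refine ⟨insert_subset hS hGH, ?_⟩
      intro S1 h1 S2 h2 h12 hP
      rw [mem_insert] at h1 h2
      rcases h1 with rfl | h1 <;> rcases h2 with rfl | h2
      · exact h12 rfl
      · exact hcon S2 h2 (mem_filter.2 ⟨hS, hsymm _ _ hP⟩)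
      · exact hcon S1 h1 (mem_filter.2 ⟨hS, hP⟩)
      · exact hGP S1 h1 S2 h2 h12 hP)
    rw [card_insert_of_notMem hSG] at this
    omega
  calc (H.card : ℝ) ≤ ((G.biUnion fun S => H.filter fun S' => P S S').card : ℝ) := by
        exact_mod_cast card_le_card hcov
    _ ≤ ∑ S ∈ G, ((H.filter fun S' => P S S').card : ℝ) := by exact_mod_cast card_biUnion_le
    _ ≤ ∑ S ∈ G, D := by
        apply sum_le_sum
        intro S hS
        exact hD S (hGH hS) _ fun S' hS' => mem_filter.1 hS'
    _ = G.card * D := by rw [sum_const, nsmul_eq_mul]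

theorem p_FAR : T_FAR := by
  classical
  intro k u R δ X _ _ F hu hR hδ0 hδ1 hF
  have hR0 : (0 : ℝ) < R := by linarith
  obtain ⟨K, hK, hHu, hHc, hHs⟩ := p_SPR u R X F hu hR hF
  set H := link F K with hH
  obtain ⟨v, hv⟩ : ∃ v, v = u - K.card := ⟨_, rfl⟩
  rw [← hv] at hHu
  have hv1 : 1 ≤ v := by omega
  have hvR : (1 : ℝ) ≤ v := by exact_mod_cast hv1
  have hvpos : (0 : ℝ) < v := by linarith
  have hHpos : (0 : ℝ) < H.card := by
    have h1 : (0 : ℝ) < F.card := lt_of_lt_of_le (by positivity) hF.2
    by_contra hcon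
    have h2 : (H.card : ℝ) = 0 := le_antisymm (not_lt.1 hcon) (Nat.cast_nonneg _)
    rw [h2, zero_mul] at hHc
    linarith
  set t := ⌊δ * v⌋₊ + 1 with ht
  have hδv : 0 ≤ δ * v := by positivity
  have htlt : δ * v < t := by
    rw [ht]
    push_cast
    exact Nat.lt_floor_add_one _
  -- balls
  have hball : ∀ S ∈ H, ∀ B : Finset (Finset X),
      (∀ S' ∈ B, S' ∈ H ∧ δ * v < ((S ∩ S').card : ℝ)) →
      (B.card : ℝ) ≤ 2 ^ v * (H.card / R ^ t) := by
    intro S hS B hB
    have h1 : B ⊆ (powersetCard t S).biUnion fun L => H.filter fun S' => L ⊆ S' := by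
      intro S' hS'
      obtain ⟨g1, g2⟩ := hB S' hS'
      have g3 : t ≤ (S ∩ S').card := by
        rw [ht]
        exact Nat.floor_lt hδv |>.2 g2
      obtain ⟨L, hL1, hL2⟩ := exists_subset_card_eq g3
      rw [mem_biUnion]
      exact ⟨L, mem_powersetCard.2 ⟨hL1.trans inter_subset_left, hL2⟩,
        mem_filter.2 ⟨g1, hL1.trans inter_subset_right⟩⟩
    have h2 : (B.card : ℝ) ≤ ∑ L ∈ powersetCard t S, ((H.filter fun S' => L ⊆ S').card : ℝ) := by
      exact_mod_cast (card_le_card h1).trans card_biUnion_le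
    refine h2.trans ?_
    have h3 : ∀ L ∈ powersetCard t S, ((H.filter fun S' => L ⊆ S').card : ℝ) ≤ H.card / R ^ t := by
      intro L hL
      have := hHs L
      rw [(mem_powersetCard.1 hL).2] at this
      rwa [le_div_iff₀ (by positivity)]
    refine (sum_le_sum h3).trans ?_
    rw [sum_const, card_powersetCard, hHu S hS, nsmul_eq_mul]
    apply mul_le_mul_of_nonneg_right _ (by positivity)
    exact_mod_cast Nat.choose_le_two_pow v t
  obtain ⟨G, hGH, hGP, hGc⟩ := exists_far H _ (fun S S' => δ * v < ((S ∩ S').card : ℝ))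
    (fun S S' h => by rwa [inter_comm])
    (fun S hS => by
      rw [inter_self, hHu S hS]
      nlinarith) hball
  refine ⟨v, G, hv1, by omega, ⟨fun S hS => hHu S (hGH hS), ?_⟩, ?_, ?_⟩
  · -- the size
    have h1 : (1 : ℝ) ≤ G.card * (2 ^ v / R ^ t) := by
      have : (H.card : ℝ) * 1 ≤ H.card * (G.card * (2 ^ v / R ^ t)) := by
        calc (H.card : ℝ) * 1 = H.card := mul_one _
          _ ≤ G.card * (2 ^ v * (H.card / R ^ t)) := hGc
          _ = _ := by ring
      exact le_of_mul_le_mul_left this hHpos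
    have h2 : R ^ t ≤ G.card * 2 ^ v := by
      rw [mul_div_assoc', le_div_iff₀ (by positivity), one_mul] at h1
      exact h1
    have h3 : (R ^ δ) ^ v ≤ R ^ t := by
      rw [← Real.rpow_natCast (R ^ δ) v, ← Real.rpow_mul hR0.le, ← Real.rpow_natCast R t]
      exact Real.rpow_le_rpow_of_exponent_le hR htlt.le
    rw [div_pow, div_le_iff₀ (by positivity)]
    exact h3.trans h2
  · intro S hS S' hS' hne
    exact not_lt.1 (hGP S hS S' hS' hne)
  · refine le_trans (pr_mono ?_) (p_LINKPR k X F K)
    rintro χ ⟨S, g1, g2, g3⟩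
    exact ⟨S, g1, fun i => hGH (g2 i), g3⟩

end Pool.Agent.ZOL
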