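import Pool.Agent.ZOL.Targets

/-!
# (2,4)-hypercontractivity on a finite product space
-/

set_option autoImplicit false

namespace Pool.Agent.ZOL

open Finset

namespace Hyp

/-! ## One coordinate -/

theorem one_coord {A : Type} [Fintype A] (μ : A → ℝ) (lam ρ : ℝ) (hlam : 0 < lam)
    (hμ : ∀ a, lam ≤ μ a) (hsum : ∑ a, μ a = 1) (hρ0 : 0 ≤ ρ) (hρ : ρ ≤ 1 / 2)
    (h3 : 3 * ρ ^ 4 ≤ lam) (r : A → ℝ) :
    ∑ a, μ a * (ρ * r a + (1 - ρ) * ∑ b, μ b * r b) ^ 4 ≤ (∑ a, μ a * r a ^ 2) ^ 2 := by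
  set m : ℝ := ∑ b, μ b * r b with hm
  set V : ℝ := ∑ a, μ a * (r a - m) ^ 2 with hV
  have hμ0 : ∀ a, 0 ≤ μ a := fun a => le_trans hlam.le (hμ a)
  have hV0 : 0 ≤ V := Finset.sum_nonneg fun a _ => mul_nonneg (hμ0 a) (sq_nonneg _)
  have hs0 : ∑ a, μ a * (r a - m) = 0 := by
    have : ∑ a, μ a * (r a - m) = ∑ a, μ a * r a - (∑ a, μ a) * m := by
      rw [Finset.sum_mul, ← Finset.sum_sub_distrib]
      exact Finset.sum_congr rfl fun a _ => by ring
    rw [this, hsum, ← hm]; ring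
  have hr2 : ∑ a, μ a * r a ^ 2 = m ^ 2 + V := by
    have : ∑ a, μ a * r a ^ 2
        = ∑ a, (μ a * (r a - m) ^ 2 + 2 * m * (μ a * (r a - m)) + μ a * m ^ 2) :=
      Finset.sum_congr rfl fun a _ => by ring
    rw [this, Finset.sum_add_distrib, Finset.sum_add_distrib, ← Finset.mul_sum, hs0,
      ← Finset.sum_mul, hsum, ← hV]
    ring
  have h4 : ∑ a, μ a * (r a - m) ^ 4 ≤ V * (V / lam) := by
    rw [hV, Finset.sum_mul]
    rw [← hV]
    refine Finset.sum_le_sum fun a _ => ?_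
    have h1 : μ a * (r a - m) ^ 2 ≤ V := by
      rw [hV]
      exact Finset.single_le_sum (f := fun a => μ a * (r a - m) ^ 2)
        (fun b _ => mul_nonneg (hμ0 b) (sq_nonneg _)) (Finset.mem_univ a)
    have h2 : (r a - m) ^ 2 ≤ V / lam := by
      rw [le_div_iff₀ hlam]
      calc (r a - m) ^ 2 * lam ≤ (r a - m) ^ 2 * μ a :=
            mul_le_mul_of_nonneg_left (hμ a) (sq_nonneg _)
        _ = μ a * (r a - m) ^ 2 := by ring
        _ ≤ V := h1
    calc μ a * (r a - m) ^ 4 = μ a * (r a - m) ^ 2 * (r a - m) ^ 2 := by ring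
      _ ≤ μ a * (r a - m) ^ 2 * (V / lam) :=
          mul_le_mul_of_nonneg_left h2 (mul_nonneg (hμ0 a) (sq_nonneg _))
  have hmain : ∑ a, μ a * (ρ * r a + (1 - ρ) * m) ^ 4
      ≤ m ^ 4 + 8 * ρ ^ 2 * m ^ 2 * V + 3 * ρ ^ 4 * ∑ a, μ a * (r a - m) ^ 4 := by
    have hpt : ∀ a, μ a * (ρ * r a + (1 - ρ) * m) ^ 4
        ≤ μ a * m ^ 4 + 4 * ρ * m ^ 3 * (μ a * (r a - m)) + 8 * ρ ^ 2 * m ^ 2 *
          (μ a * (r a - m) ^ 2) + 3 * ρ ^ 4 * (μ a * (r a - m) ^ 4) := by
      intro a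
      set s : ℝ := r a - m with hs
      have hr : ρ * r a + (1 - ρ) * m = m + ρ * s := by rw [hs]; ring
      rw [hr]
      have key : (m + ρ * s) ^ 4 ≤ m ^ 4 + 4 * ρ * m ^ 3 * s + 8 * ρ ^ 2 * m ^ 2 * s ^ 2
          + 3 * ρ ^ 4 * s ^ 4 := by
        have : m ^ 4 + 4 * ρ * m ^ 3 * s + 8 * ρ ^ 2 * m ^ 2 * s ^ 2 + 3 * ρ ^ 4 * s ^ 4
            - (m + ρ * s) ^ 4 = 2 * (ρ * s) ^ 2 * (m - ρ * s) ^ 2 := by ring
        nlinarith [mul_nonneg (mul_nonneg (by norm_num : (0:ℝ) ≤ 2) (sq_nonneg (ρ * s)))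
          (sq_nonneg (m - ρ * s))]
      calc μ a * (m + ρ * s) ^ 4 ≤ μ a * (m ^ 4 + 4 * ρ * m ^ 3 * s
            + 8 * ρ ^ 2 * m ^ 2 * s ^ 2 + 3 * ρ ^ 4 * s ^ 4) :=
            mul_le_mul_of_nonneg_left key (hμ0 a)
        _ = _ := by ring
    calc ∑ a, μ a * (ρ * r a + (1 - ρ) * m) ^ 4
        ≤ ∑ a, (μ a * m ^ 4 + 4 * ρ * m ^ 3 * (μ a * (r a - m)) + 8 * ρ ^ 2 * m ^ 2 *
          (μ a * (r a - m) ^ 2) + 3 * ρ ^ 4 * (μ a * (r a - m) ^ 4)) :=
          Finset.sum_le_sum fun a _ => hpt a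
      _ = m ^ 4 + 8 * ρ ^ 2 * m ^ 2 * V + 3 * ρ ^ 4 * ∑ a, μ a * (r a - m) ^ 4 := by
          rw [Finset.sum_add_distrib, Finset.sum_add_distrib, Finset.sum_add_distrib,
            ← Finset.sum_mul, ← Finset.mul_sum, ← Finset.mul_sum, ← Finset.mul_sum, hs0, hsum,
            ← hV]
          ring
  rw [hr2]
  refine hmain.trans ?_
  have e1 : 3 * ρ ^ 4 * ∑ a, μ a * (r a - m) ^ 4 ≤ V ^ 2 := by
    calc 3 * ρ ^ 4 * ∑ a, μ a * (r a - m) ^ 4 ≤ lam * (V * (V / lam)) := by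
          refine mul_le_mul h3 h4 (Finset.sum_nonneg fun a _ =>
            mul_nonneg (hμ0 a) (by positivity)) hlam.le
      _ = V ^ 2 := by field_simp
  have e2 : 8 * ρ ^ 2 * m ^ 2 * V ≤ 2 * m ^ 2 * V := by
    have : ρ ^ 2 ≤ 1 / 4 := by nlinarith
    nlinarith [mul_nonneg (sq_nonneg m) hV0]
  nlinarith

/-! ## Operators on the product -/

section Ops

variable {X A : Type} [Fintype X] [DecidableEq X] [Fintype A]

/-- averaging over one coordinate -/
noncomputable def E1 (μ : A → ℝ) (x : X) (g : (X → A) → ℝ) (ω : X → A) : ℝ :=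
  ∑ a, μ a * g (Function.update ω x a)

/-- averaging over the coordinates in `S` -/
noncomputable def AS (μ : A → ℝ) (S : Finset X) (g : (X → A) → ℝ) (ω : X → A) : ℝ :=
  Ex μ (fun η => g (mix S η ω))

theorem wt_update (μ : A → ℝ) (x : X) (ω : X → A) (a : A) :
    wt μ (Function.update ω x a) = μ a * ∏ y ∈ univ.erase x, μ (ω y) := by
  unfold wt
  rw [← Finset.mul_prod_erase _ _ (Finset.mem_univ x)]
  congr 1
  · simp
  · refine Finset.prod_congr rfl fun y hy => ?_
    rw [Function.update_of_ne (Finset.ne_of_mem_erase hy)]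

theorem wt_eq (μ : A → ℝ) (x : X) (ω : X → A) :
    wt μ ω = μ (ω x) * ∏ y ∈ univ.erase x, μ (ω y) := by
  unfold wt
  rw [← Finset.mul_prod_erase _ _ (Finset.mem_univ x)]

/-- the sum over all configurations of `F ω (ω x)`-type terms: exchange the value at `x` -/
theorem sum_update (x : X) (F : (X → A) → A → ℝ)
    : ∑ ω : X → A, ∑ a, F (Function.update ω x a) (ω x) = ∑ ω : X → A, ∑ a, F ω a := by
  rw [← Fintype.sum_prod_type', ← Fintype.sum_prod_type']
  refine Finset.sum_nbij' (fun p => (Function.update p.1 x p.2, p.1 x))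
    (fun p => (Function.update p.1 x p.2, p.1 x)) ?_ ?_ ?_ ?_ ?_
  · intro p _; exact Finset.mem_univ _
  · intro p _; exact Finset.mem_univ _
  · intro p _; ext <;> simp
  · intro p _; ext <;> simp
  · intro p _; simp

theorem Ex_E1 (μ : A → ℝ) (hsum : ∑ a, μ a = 1) (x : X) (F : (X → A) → ℝ) :
    Ex μ (E1 μ x F) = Ex μ F := by
  unfold Ex E1
  have h1 : ∑ ω : X → A, wt μ ω * ∑ a, μ a * F (Function.update ω x a)
      = ∑ ω : X → A, ∑ a, (fun (η : X → A) (b : A) =>
          μ b * (wt μ η * F η)) (Function.update ω x a) (ω x) := by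
    refine Finset.sum_congr rfl fun ω _ => ?_
    rw [Finset.mul_sum]
    refine Finset.sum_congr rfl fun a _ => ?_
    simp only
    rw [wt_update, wt_eq μ x ω]
    ring
  rw [h1, sum_update x (fun (η : X → A) (b : A) => μ b * (wt μ η * F η))]
  refine Finset.sum_congr rfl fun ω _ => ?_
  rw [← Finset.sum_mul, hsum, one_mul]

theorem Ex_one (μ : A → ℝ) (hsum : ∑ a, μ a = 1) : Ex μ (fun _ : X → A => (1:ℝ)) = 1 := by
  unfold Ex wt
  simp only [mul_one]
  rw [← Fintype.prod_sum]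
  simp [hsum]

theorem Ex_const (μ : A → ℝ) (hsum : ∑ a, μ a = 1) (c : ℝ) :
    Ex μ (fun _ : X → A => c) = c := by
  have h := Ex_one (X := X) μ hsum
  unfold Ex at *
  rw [← Finset.sum_mul]
  simp only [mul_one] at h
  rw [h, one_mul]

theorem AS_empty (μ : A → ℝ) (hsum : ∑ a, μ a = 1) (g : (X → A) → ℝ) (ω : X → A) :
    AS μ ∅ g ω = g ω := by
  unfold AS
  have : ∀ η : X → A, mix (∅ : Finset X) η ω = ω := by
    intro η; funext y; simp [mix]
  simp only [this]
  exact Ex_const μ hsum _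

theorem AS_univ (μ : A → ℝ) (g : (X → A) → ℝ) (ω : X → A) :
    AS μ univ g ω = Ex μ g := by
  unfold AS
  have : ∀ η : X → A, mix (univ : Finset X) η ω = η := by
    intro η; funext y; simp [mix]
  simp only [this]

theorem cond_eq_AS (μ : A → ℝ) (U : Finset X) (g : (X → A) → ℝ) (ω : X → A) :
    cond μ U g ω = AS μ (univ \ U) g ω := by
  unfold cond AS
  congr 1
  funext η
  congr 1
  funext y
  by_cases h : y ∈ U <;> simp [mix, h]

/-- average over `S`, then over `x` -/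
theorem AS_insert (μ : A → ℝ) (hsum : ∑ a, μ a = 1) (S : Finset X) (x : X) (hx : x ∉ S)
    (g : (X → A) → ℝ) (ω : X → A) :
    AS μ (insert x S) g ω = ∑ a, μ a * AS μ S g (Function.update ω x a) := by
  unfold AS
  rw [← Ex_E1 μ hsum x]
  unfold Ex E1
  simp only [Finset.mul_sum]
  rw [Finset.sum_comm]
  refine Finset.sum_congr rfl fun a _ => Finset.sum_congr rfl fun η _ => ?_
  have : mix (insert x S) (Function.update η x a) ω = mix S η (Function.update ω x a) := by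
    funext y
    by_cases hy : y = x
    · subst hy; simp [mix, hx]
    · simp [mix, hy, Function.update_of_ne hy]
  rw [this]
  ring

/-- average over `x`, then over `S` -/
theorem AS_insert' (μ : A → ℝ) (hsum : ∑ a, μ a = 1) (S : Finset X) (x : X) (hx : x ∉ S)
    (g : (X → A) → ℝ) (ω : X → A) :
    AS μ (insert x S) g ω = AS μ S (E1 μ x g) ω := by
  rw [AS_insert μ hsum S x hx]
  unfold AS Ex E1
  simp only [Finset.mul_sum]
  rw [Finset.sum_comm]
  refine Finset.sum_congr rfl fun η _ => Finset.sum_congr rfl fun a _ => ?_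
  have : mix S η (Function.update ω x a) = Function.update (mix S η ω) x a := by
    funext y
    by_cases hy : y = x
    · subst hy; simp [mix, hx]
    · simp [mix, Function.update_of_ne hy]
  rw [this]
  ring

/-- the noise operator on the coordinates in `S` -/
noncomputable def TS (μ : A → ℝ) (ρ : ℝ) (S : Finset X) (g : (X → A) → ℝ) (ω : X → A) : ℝ :=
  ∑ U ∈ S.powerset, ρ ^ U.card * (1 - ρ) ^ (S.card - U.card) * AS μ (S \ U) g ω

theorem TS_empty (μ : A → ℝ) (hsum : ∑ a, μ a = 1) (ρ : ℝ) (g : (X → A) → ℝ) (ω : X → A) :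
    TS μ ρ ∅ g ω = g ω := by
  unfold TS
  simp [AS_empty μ hsum]

theorem TS_insert (μ : A → ℝ) (hsum : ∑ a, μ a = 1) (ρ : ℝ) (S : Finset X) (x : X)
    (hx : x ∉ S) (g : (X → A) → ℝ) (ω : X → A) :
    TS μ ρ (insert x S) g ω = ρ * TS μ ρ S g ω + (1 - ρ) * E1 μ x (TS μ ρ S g) ω := by
  unfold TS
  rw [Finset.sum_powerset_insert hx, add_comm]
  congr 1
  · rw [Finset.mul_sum]
    refine Finset.sum_congr rfl fun U hU => ?_
    have hUS := Finset.mem_powerset.mp hU
    have hxU : x ∉ U := fun h => hx (hUS h)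
    have e1 : insert x S \ insert x U = S \ U := by
      ext y
      simp only [Finset.mem_sdiff, Finset.mem_insert]
      constructor
      · rintro ⟨h1 | h1, h2⟩
        · exact absurd (Or.inl h1) h2
        · exact ⟨h1, fun h => h2 (Or.inr h)⟩
      · rintro ⟨h1, h2⟩
        refine ⟨Or.inr h1, ?_⟩
        rintro (h | h)
        · exact hx (h ▸ h1)
        · exact h2 h
    rw [e1, Finset.card_insert_of_notMem hxU, Finset.card_insert_of_notMem hx]
    have : S.card + 1 - (U.card + 1) = S.card - U.card := by omega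
    rw [this]; ring
  · have hE : E1 μ x (fun ω => ∑ U ∈ S.powerset,
        ρ ^ U.card * (1 - ρ) ^ (S.card - U.card) * AS μ (S \ U) g ω) ω
        = ∑ U ∈ S.powerset, ρ ^ U.card * (1 - ρ) ^ (S.card - U.card) *
          AS μ (insert x (S \ U)) g ω := by
      unfold E1
      simp only [Finset.mul_sum]
      rw [Finset.sum_comm]
      refine Finset.sum_congr rfl fun U hU => ?_
      have hx' : x ∉ S \ U := fun h => hx (Finset.mem_sdiff.mp h).1
      rw [AS_insert μ hsum _ x hx', Finset.mul_sum]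
      exact Finset.sum_congr rfl fun a _ => by ring
    have hE' : E1 μ x (TS μ ρ S g) ω = E1 μ x (fun ω => ∑ U ∈ S.powerset,
        ρ ^ U.card * (1 - ρ) ^ (S.card - U.card) * AS μ (S \ U) g ω) ω := rfl
    rw [show (E1 μ x (fun ω => ∑ U ∈ S.powerset,
        ρ ^ U.card * (1 - ρ) ^ (S.card - U.card) * AS μ (S \ U) g ω) ω) = _ from hE,
      Finset.mul_sum]
    refine Finset.sum_congr rfl fun U hU => ?_
    have hUS := Finset.mem_powerset.mp hU
    have hxU : x ∉ U := fun h => hx (hUS h)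
    have e1 : insert x S \ U = insert x (S \ U) := by
      rw [Finset.insert_sdiff_of_notMem _ hxU]
    rw [e1, Finset.card_insert_of_notMem hx]
    have hc : U.card ≤ S.card := Finset.card_le_card hUS
    have : S.card + 1 - U.card = (S.card - U.card) + 1 := by omega
    rw [this, pow_succ]; ring

theorem noise_eq_TS (μ : A → ℝ) (ρ : ℝ) (g : (X → A) → ℝ) (ω : X → A) :
    noise μ ρ g ω = TS μ ρ univ g ω := by
  unfold noise TS
  rw [Finset.powerset_univ]
  refine Finset.sum_congr rfl fun U _ => ?_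
  rw [cond_eq_AS, Finset.card_univ]

theorem wt_nonneg (μ : A → ℝ) (hμ0 : ∀ a, 0 ≤ μ a) (ω : X → A) : 0 ≤ wt μ ω :=
  Finset.prod_nonneg fun x _ => hμ0 _

theorem Ex_mono (μ : A → ℝ) (hμ0 : ∀ a, 0 ≤ μ a) {f g : (X → A) → ℝ} (h : ∀ ω, f ω ≤ g ω) :
    Ex μ f ≤ Ex μ g :=
  Finset.sum_le_sum fun ω _ => mul_le_mul_of_nonneg_left (h ω) (wt_nonneg μ hμ0 ω)

theorem Ex_nonneg (μ : A → ℝ) (hμ0 : ∀ a, 0 ≤ μ a) {f : (X → A) → ℝ} (h : ∀ ω, 0 ≤ f ω) :
    0 ≤ Ex μ f :=
  Finset.sum_nonneg fun ω _ => mul_nonneg (wt_nonneg μ hμ0 ω) (h ω)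

/-- Cauchy-Schwarz -/
theorem Ex_mul_le (μ : A → ℝ) (hμ0 : ∀ a, 0 ≤ μ a) (f g : (X → A) → ℝ) {u v : ℝ}
    (hu : 0 ≤ u) (hv : 0 ≤ v) (hf : Ex μ (fun ω => f ω ^ 2) ≤ u ^ 2)
    (hg : Ex μ (fun ω => g ω ^ 2) ≤ v ^ 2) : Ex μ (fun ω => f ω * g ω) ≤ u * v := by
  have hcs : (Ex μ (fun ω => f ω * g ω)) ^ 2
      ≤ Ex μ (fun ω => f ω ^ 2) * Ex μ (fun ω => g ω ^ 2) := by
    unfold Ex
    refine Finset.sum_sq_le_sum_mul_sum_of_sq_le_mul _ ?_ ?_ ?_
    · intro ω _; exact mul_nonneg (wt_nonneg μ hμ0 ω) (sq_nonneg _)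
    · intro ω _; exact mul_nonneg (wt_nonneg μ hμ0 ω) (sq_nonneg _)
    · intro ω _; exact le_of_eq (by ring)
  have h2 : (Ex μ (fun ω => f ω * g ω)) ^ 2 ≤ (u * v) ^ 2 := by
    refine hcs.trans ?_
    rw [mul_pow]
    exact mul_le_mul hf hg (Ex_nonneg μ hμ0 fun ω => sq_nonneg _) (sq_nonneg _)
  exact le_trans (le_abs_self _) (abs_le_of_sq_le_sq h2 (mul_nonneg hu hv))

theorem main (μ : A → ℝ) (lam ρ : ℝ) (hlam : 0 < lam)
    (hμ : ∀ a, lam ≤ μ a) (hsum : ∑ a, μ a = 1) (hρ0 : 0 ≤ ρ) (hρ : ρ ≤ 1 / 2)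
    (h3 : 3 * ρ ^ 4 ≤ lam) (S : Finset X) : ∀ (g : (X → A) → ℝ) (ω : X → A),
    AS μ S (fun ω => TS μ ρ S g ω ^ 4) ω ≤ (AS μ S (fun ω => g ω ^ 2) ω) ^ 2 := by
  have hμ0 : ∀ a, 0 ≤ μ a := fun a => le_trans hlam.le (hμ a)
  induction S using Finset.induction_on with
  | empty =>
    intro g ω
    rw [AS_empty μ hsum, AS_empty μ hsum, TS_empty μ hsum]
    exact le_of_eq (by ring)
  | insert x S hx ih =>
    intro g ω
    set h : (X → A) → ℝ := TS μ ρ S g with hh
    -- first the coordinate `x`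
    have step1 : AS μ (insert x S) (fun ω => TS μ ρ (insert x S) g ω ^ 4) ω
        ≤ AS μ S (fun ω => (E1 μ x (fun ω => h ω ^ 2) ω) ^ 2) ω := by
      rw [AS_insert' μ hsum S x hx]
      refine Ex_mono μ hμ0 fun η => ?_
      have := one_coord μ lam ρ hlam hμ hsum hρ0 hρ h3
        (fun a => h (Function.update (mix S η ω) x a))
      unfold E1
      refine le_trans (le_of_eq ?_) this
      refine Finset.sum_congr rfl fun a _ => ?_
      have hT := TS_insert μ hsum ρ S x hx g (Function.update (mix S η ω) x a)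
      unfold E1 at hT
      simp only [Function.update_idem] at hT
      simp only [hT]
      rfl
    refine step1.trans ?_
    -- Minkowski
    set v : A → ℝ := fun a => AS μ S (fun ω => g ω ^ 2) (Function.update ω x a) with hv
    have hv0 : ∀ a, 0 ≤ v a := fun a => Ex_nonneg μ hμ0 fun η => sq_nonneg _
    have hupd : ∀ (η : X → A) (a : A),
        Function.update (mix S η ω) x a = mix S η (Function.update ω x a) := by
      intro η a
      funext y
      by_cases hy : y = x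
      · subst hy; simp [mix, hx]
      · simp [mix, Function.update_of_ne hy]
    have hua : ∀ a, Ex μ (fun η => (h (mix S η (Function.update ω x a)) ^ 2) ^ 2)
        ≤ v a ^ 2 := by
      intro a
      have := ih g (Function.update ω x a)
      refine le_trans (le_of_eq ?_) this
      unfold AS
      congr 1
      funext η
      rw [hh]; ring
    rw [AS_insert μ hsum S x hx]
    have e1 : AS μ S (fun ω => (E1 μ x (fun ω => h ω ^ 2) ω) ^ 2) ω
        = ∑ a, ∑ b, μ a * μ b * Ex μ (fun η => h (mix S η (Function.update ω x a)) ^ 2 *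
            h (mix S η (Function.update ω x b)) ^ 2) := by
      unfold AS Ex E1
      simp only [Finset.mul_sum]
      have : ∀ η : X → A, wt μ η * (∑ a, μ a * h (Function.update (mix S η ω) x a) ^ 2) ^ 2
          = ∑ a, ∑ b, μ a * μ b * (wt μ η * (h (mix S η (Function.update ω x a)) ^ 2 *
            h (mix S η (Function.update ω x b)) ^ 2)) := by
        intro η
        rw [sq, Finset.sum_mul_sum, Finset.mul_sum]
        refine Finset.sum_congr rfl fun a _ => ?_
        rw [Finset.mul_sum]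
        refine Finset.sum_congr rfl fun b _ => ?_
        rw [hupd, hupd]
        ring
      simp only [this]
      rw [Finset.sum_comm]
      refine Finset.sum_congr rfl fun a _ => ?_
      rw [Finset.sum_comm]
    rw [e1]
    have e2 : (∑ a, μ a * v a) ^ 2 = ∑ a, ∑ b, μ a * μ b * (v a * v b) := by
      rw [sq, Finset.sum_mul_sum]
      refine Finset.sum_congr rfl fun a _ => Finset.sum_congr rfl fun b _ => by ring
    rw [e2]
    refine Finset.sum_le_sum fun a _ => Finset.sum_le_sum fun b _ => ?_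
    refine mul_le_mul_of_nonneg_left ?_ (mul_nonneg (hμ0 a) (hμ0 b))
    exact Ex_mul_le μ hμ0 _ _ (hv0 a) (hv0 b) (hua a) (hua b)

end Ops

end Hyp

theorem p_HYPER : T_HYPER := by
  intro X A _ _ _ μ lam ρ hlam hμ hsum hρ0 hρ h3 g
  by_cases hne : Nonempty (X → A)
  · obtain ⟨ω⟩ := hne
    have := Hyp.main (X := X) μ lam ρ hlam hμ hsum hρ0 hρ h3 univ g ω
    rw [Hyp.AS_univ, Hyp.AS_univ] at this
    refine le_trans (le_of_eq ?_) this
    congr 1
    funext ω
    rw [Hyp.noise_eq_TS]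
  · exfalso
    have h1 : Nonempty A := by
      by_contra hA
      rw [not_nonempty_iff] at hA
      simp at hsum
    exact hne ⟨fun _ => h1.some⟩

end Pool.Agent.ZOL
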