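import Pool.Agent.ZOL.Targets

/-!
# Basic facts on finite product spaces, Efron-Stein decomposition
-/

set_option autoImplicit false

namespace Pool.Agent.ZOL

open Finset

section

variable {X A : Type} [Fintype X] [DecidableEq X] [Fintype A] {μ : A → ℝ}

theorem sum_wt (hμ : ∑ a, μ a = 1) : ∑ ω : X → A, wt μ ω = 1 := by
  classical
  have h := Finset.prod_univ_sum (fun _ : X => (univ : Finset A)) (fun _ a => μ a)
  rw [Fintype.piFinset_univ] at h
  unfold wt
  rw [← h]
  simp [hμ]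

theorem wt_nonneg (hμ : ∀ a, 0 ≤ μ a) (ω : X → A) : 0 ≤ wt μ ω :=
  prod_nonneg fun x _ => hμ (ω x)

theorem Ex_mono (hμ : ∀ a, 0 ≤ μ a) {g h : (X → A) → ℝ} (H : ∀ ω, g ω ≤ h ω) :
    Ex μ g ≤ Ex μ h :=
  sum_le_sum fun ω _ => mul_le_mul_of_nonneg_left (H ω) (wt_nonneg hμ ω)

theorem Ex_nonneg (hμ : ∀ a, 0 ≤ μ a) {g : (X → A) → ℝ} (H : ∀ ω, 0 ≤ g ω) : 0 ≤ Ex μ g :=
  sum_nonneg fun ω _ => mul_nonneg (wt_nonneg hμ ω) (H ω)

theorem Ex_congr {g h : (X → A) → ℝ} (H : ∀ ω, g ω = h ω) : Ex μ g = Ex μ h := by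
  rw [funext H]

theorem Ex_add (g h : (X → A) → ℝ) : Ex μ (fun ω => g ω + h ω) = Ex μ g + Ex μ h := by
  unfold Ex
  rw [← sum_add_distrib]
  exact sum_congr rfl fun ω _ => mul_add _ _ _

theorem Ex_sub (g h : (X → A) → ℝ) : Ex μ (fun ω => g ω - h ω) = Ex μ g - Ex μ h := by
  unfold Ex
  rw [← sum_sub_distrib]
  exact sum_congr rfl fun ω _ => mul_sub _ _ _

theorem Ex_const_mul (c : ℝ) (g : (X → A) → ℝ) : Ex μ (fun ω => c * g ω) = c * Ex μ g := by
  unfold Ex
  rw [mul_sum]
  exact sum_congr rfl fun ω _ => by ring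

theorem Ex_mul_const (c : ℝ) (g : (X → A) → ℝ) : Ex μ (fun ω => g ω * c) = Ex μ g * c := by
  unfold Ex
  rw [sum_mul]
  exact sum_congr rfl fun ω _ => by ring

theorem Ex_sum {ι : Type} (s : Finset ι) (g : ι → (X → A) → ℝ) :
    Ex μ (fun ω => ∑ i ∈ s, g i ω) = ∑ i ∈ s, Ex μ (g i) := by
  unfold Ex
  rw [sum_comm]
  exact sum_congr rfl fun ω _ => mul_sum _ _ _

theorem Ex_const (hμ : ∑ a, μ a = 1) (c : ℝ) : Ex (X := X) μ (fun _ => c) = c := by
  unfold Ex
  rw [← sum_mul, sum_wt hμ, one_mul]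

theorem wt_mix (T : Finset X) (η θ : X → A) :
    wt μ (mix T η θ) * wt μ (mix T θ η) = wt μ η * wt μ θ := by
  unfold wt
  rw [← prod_mul_distrib, ← prod_mul_distrib]
  apply prod_congr rfl
  intro x _
  unfold mix
  by_cases h : x ∈ T
  · simp [h]
  · simp [h, mul_comm]

theorem mix_mix_left (T : Finset X) (η θ : X → A) : mix T (mix T η θ) (mix T θ η) = η := by
  funext x
  unfold mix
  by_cases h : x ∈ T <;> simp [h]

theorem mix_mix (S T : Finset X) (ω η θ : X → A) :
    mix T (mix S ω η) θ = mix (S ∩ T) ω (mix T η θ) := by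
  funext x
  unfold mix
  by_cases h : x ∈ T <;> by_cases h' : x ∈ S <;> simp [h, h']

/-- exchanging the coordinates outside `T` -/
theorem Ex_swap (T : Finset X) (G : (X → A) → (X → A) → ℝ) :
    Ex μ (fun η => Ex μ (fun θ => G η θ)) =
      Ex μ (fun η => Ex μ (fun θ => G (mix T η θ) (mix T θ η))) := by
  have key : ∀ G : (X → A) → (X → A) → ℝ, Ex μ (fun η => Ex μ (fun θ => G η θ)) =
      ∑ z : (X → A) × (X → A), wt μ z.1 * wt μ z.2 * G z.1 z.2 := by
    intro G
    unfold Ex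
    rw [Fintype.sum_prod_type]
    apply sum_congr rfl
    intro η _
    rw [mul_sum]
    exact sum_congr rfl fun θ _ => by ring
  rw [key, key]
  have hinv : Function.Involutive
      (fun z : (X → A) × (X → A) => (mix T z.1 z.2, mix T z.2 z.1)) := by
    intro z
    dsimp only
    rw [mix_mix_left, mix_mix_left]
  rw [← Equiv.sum_comp hinv.toPerm]
  apply sum_congr rfl
  intro z _
  change wt μ (mix T z.1 z.2) * wt μ (mix T z.2 z.1) * G (mix T z.1 z.2) (mix T z.2 z.1) = _
  rw [wt_mix]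

theorem Ex_mix (hμ : ∑ a, μ a = 1) (T : Finset X) (g : (X → A) → ℝ) :
    Ex μ (fun η => Ex μ (fun θ => g (mix T η θ))) = Ex μ g := by
  rw [← Ex_swap T (fun η _ => g η)]
  exact Ex_congr fun η => Ex_const hμ _

/-! ### Conditional expectations -/

theorem cond_sub (S : Finset X) (g h : (X → A) → ℝ) (ω : X → A) :
    cond μ S (fun ω => g ω - h ω) ω = cond μ S g ω - cond μ S h ω := Ex_sub _ _

theorem cond_const_mul (S : Finset X) (c : ℝ) (g : (X → A) → ℝ) (ω : X → A) :
    cond μ S (fun ω => c * g ω) ω = c * cond μ S g ω := Ex_const_mul _ _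

theorem cond_sum {ι : Type} (s : Finset ι) (S : Finset X) (g : ι → (X → A) → ℝ) (ω : X → A) :
    cond μ S (fun ω => ∑ i ∈ s, g i ω) ω = ∑ i ∈ s, cond μ S (g i) ω :=
  Ex_sum s (fun i η => g i (mix S ω η))

theorem cond_univ (hμ : ∑ a, μ a = 1) (g : (X → A) → ℝ) (ω : X → A) : cond μ univ g ω = g ω := by
  unfold cond
  have : ∀ η : X → A, mix univ ω η = ω := fun η => by
    funext x
    simp [mix]
  simp only [this]
  exact Ex_const hμ _

theorem cond_cond (hμ : ∑ a, μ a = 1) (S T : Finset X) (g : (X → A) → ℝ) (ω : X → A) :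
    cond μ S (cond μ T g) ω = cond μ (S ∩ T) g ω := by
  unfold cond
  simp only [mix_mix]
  exact Ex_mix hμ T (fun ζ => g (mix (S ∩ T) ω ζ))

theorem Ex_cond (hμ : ∑ a, μ a = 1) (S : Finset X) (g : (X → A) → ℝ) :
    Ex μ (cond μ S g) = Ex μ g := Ex_mix hμ S g

theorem cond_adj (S : Finset X) (g h : (X → A) → ℝ) :
    Ex μ (fun ω => cond μ S g ω * h ω) = Ex μ (fun ω => g ω * cond μ S h ω) := by
  have e1 : Ex μ (fun ω => cond μ S g ω * h ω) =
      Ex μ (fun ω => Ex μ (fun η => g (mix S ω η) * h ω)) :=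
    Ex_congr fun ω => (Ex_mul_const _ _).symm
  have e2 : Ex μ (fun ω => g ω * cond μ S h ω) =
      Ex μ (fun ω => Ex μ (fun η => g ω * h (mix S ω η))) :=
    Ex_congr fun ω => (Ex_const_mul _ _).symm
  rw [e1, e2, Ex_swap S (fun ω η => g ω * h (mix S ω η))]
  apply Ex_congr
  intro ω
  apply Ex_congr
  intro η
  rw [mix_mix_left]

/-! ### Möbius inversion on subsets -/

/-- the Möbius transform -/
def mob (c : Finset X → ℝ) (T : Finset X) : ℝ :=
  ∑ R ∈ T.powerset, (-1 : ℝ) ^ (T.card + R.card) * c R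

omit [Fintype X] in
theorem mob_insert (c : Finset X → ℝ) {x : X} {T : Finset X} (hx : x ∉ T) :
    mob c (insert x T) = mob (fun R => c (insert x R)) T - mob c T := by
  unfold mob
  rw [sum_powerset_insert hx, card_insert_of_notMem hx, add_comm, sub_eq_add_neg,
    ← sum_neg_distrib]
  congr 1
  · apply sum_congr rfl
    intro R hR
    have : x ∉ R := fun h => hx (mem_powerset.1 hR h)
    rw [card_insert_of_notMem this, show T.card + 1 + (R.card + 1) = T.card + R.card + 2 by ring,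
      pow_add]
    ring
  · apply sum_congr rfl
    intro R _
    rw [show T.card + 1 + R.card = T.card + R.card + 1 by ring, pow_succ]
    ring

omit [Fintype X] in
theorem sum_mob (S : Finset X) : ∀ c : Finset X → ℝ, ∑ T ∈ S.powerset, mob c T = c S := by
  induction S using Finset.induction_on with
  | empty =>
    intro c
    simp [mob]
  | insert x S hx ih =>
    intro c
    rw [sum_powerset_insert hx]
    have : ∀ T ∈ S.powerset, mob c (insert x T) = mob (fun R => c (insert x R)) T - mob c T :=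
      fun T hT => mob_insert c fun h => hx (mem_powerset.1 hT h)
    rw [sum_congr rfl this, sum_sub_distrib, ih, ih]
    ring

/-- the component of `f` on the set `T` -/
noncomputable def qq (μ : A → ℝ) (f : (X → A) → ℝ) (T : Finset X) (ω : X → A) : ℝ :=
  mob (fun R => cond μ R f ω) T

theorem sum_qq (f : (X → A) → ℝ) (S : Finset X) (ω : X → A) :
    ∑ T ∈ S.powerset, qq μ f T ω = cond μ S f ω := sum_mob S _

theorem sum_qq_univ (hμ : ∑ a, μ a = 1) (f : (X → A) → ℝ) (ω : X → A) :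
    ∑ T : Finset X, qq μ f T ω = f ω := by
  have := sum_qq (μ := μ) f univ ω
  rwa [powerset_univ, cond_univ hμ] at this

theorem cond_qq (hμ : ∑ a, μ a = 1) (f : (X → A) → ℝ) (S T : Finset X) (ω : X → A) :
    cond μ S (qq μ f T) ω = if T ⊆ S then qq μ f T ω else 0 := by
  have e : cond μ S (qq μ f T) ω = mob (fun R => cond μ (S ∩ R) f ω) T := by
    have e1 : qq μ f T = fun ω => ∑ R ∈ T.powerset, (-1 : ℝ) ^ (T.card + R.card) *
        cond μ R f ω := rfl
    rw [e1, cond_sum]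
    unfold mob
    apply sum_congr rfl
    intro R _
    rw [cond_const_mul, cond_cond hμ]
  rw [e]
  split
  · rename_i h
    unfold qq mob
    apply sum_congr rfl
    intro R hR
    dsimp only
    rw [inter_eq_right.2 ((mem_powerset.1 hR).trans h)]
  · rename_i h
    obtain ⟨x, hxT, hxS⟩ := not_subset.1 h
    rw [← insert_erase hxT, mob_insert _ (notMem_erase x T)]
    have : (fun R => cond μ (S ∩ insert x R) f ω) = fun R => cond μ (S ∩ R) f ω := by
      funext R
      rw [inter_insert_of_notMem hxS]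
    rw [this, sub_self]

theorem qq_orth (hμ : ∑ a, μ a = 1) (f : (X → A) → ℝ) {T T' : Finset X} (h : T ≠ T') :
    Ex μ (fun ω => qq μ f T ω * qq μ f T' ω) = 0 := by
  have key : ∀ T T' : Finset X, ¬ T ⊆ T' → Ex μ (fun ω => qq μ f T ω * qq μ f T' ω) = 0 := by
    intro T T' hT
    have e1 : ∀ ω, qq μ f T' ω = cond μ T' (qq μ f T') ω := fun ω => by
      rw [cond_qq hμ, if_pos subset_rfl]
    have e2 : Ex μ (fun ω => qq μ f T ω * qq μ f T' ω) =
        Ex μ (fun ω => qq μ f T ω * cond μ T' (qq μ f T') ω) :=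
      Ex_congr fun ω => by rw [← e1 ω]
    rw [e2, ← cond_adj]
    have e3 : ∀ ω, cond μ T' (qq μ f T) ω * qq μ f T' ω = 0 := fun ω => by
      rw [cond_qq hμ, if_neg hT, zero_mul]
    rw [Ex_congr e3]
    unfold Ex
    simp
  by_cases hT : T ⊆ T'
  · have hT' : ¬ T' ⊆ T := fun h' => h (subset_antisymm hT h')
    rw [← key T' T hT']
    exact Ex_congr fun ω => mul_comm _ _
  · exact key T T' hT

/-- the weight of the component `T` -/
noncomputable def W (μ : A → ℝ) (f : (X → A) → ℝ) (T : Finset X) : ℝ :=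
  Ex μ (fun ω => qq μ f T ω ^ 2)

theorem W_nonneg (hμ : ∀ a, 0 ≤ μ a) (f : (X → A) → ℝ) (T : Finset X) : 0 ≤ W μ f T :=
  Ex_nonneg hμ fun _ => sq_nonneg _

/-- Parseval -/
theorem norm_sum_qq (hμ : ∑ a, μ a = 1) (f : (X → A) → ℝ) (s : Finset (Finset X))
    (α : Finset X → ℝ) :
    Ex μ (fun ω => (∑ T ∈ s, α T * qq μ f T ω) ^ 2) = ∑ T ∈ s, α T ^ 2 * W μ f T := by
  have e1 : ∀ ω, (∑ T ∈ s, α T * qq μ f T ω) ^ 2 =
      ∑ T ∈ s, ∑ T' ∈ s, α T * α T' * (qq μ f T ω * qq μ f T' ω) := by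
    intro ω
    rw [sq, sum_mul_sum]
    exact sum_congr rfl fun T _ => sum_congr rfl fun T' _ => by ring
  rw [Ex_congr e1, Ex_sum]
  apply sum_congr rfl
  intro T hT
  rw [Ex_sum, sum_eq_single T]
  · rw [Ex_const_mul]
    unfold W
    rw [sq (α T)]
    congr 1
    exact Ex_congr fun ω => (sq _).symm
  · intro T' _ hne
    rw [Ex_const_mul, qq_orth hμ f (Ne.symm hne), mul_zero]
  · intro h
    exact absurd hT h

/-! ### The noise operator -/

theorem noise_qq (hμ : ∑ a, μ a = 1) (ρ : ℝ) (f : (X → A) → ℝ) (T : Finset X) (ω : X → A) :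
    noise μ ρ (qq μ f T) ω = ρ ^ T.card * qq μ f T ω := by
  unfold noise
  simp only [cond_qq hμ]
  have e1 : ∀ S : Finset X, ρ ^ S.card * (1 - ρ) ^ (Fintype.card X - S.card) *
      (if T ⊆ S then qq μ f T ω else 0) =
      (if T ⊆ S then ρ ^ S.card * (1 - ρ) ^ (Fintype.card X - S.card) else 0) * qq μ f T ω := by
    intro S
    split <;> simp
  rw [sum_congr rfl fun S _ => e1 S, ← sum_mul]
  congr 1
  rw [← sum_filter]
  have e2 : (univ.filter fun S : Finset X => T ⊆ S) = (univ \ T).powerset.image (fun R => T ∪ R) := by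
    ext S
    simp only [mem_filter, mem_univ, true_and, mem_image, mem_powerset]
    constructor
    · intro h
      exact ⟨S \ T, sdiff_subset_sdiff (subset_univ _) subset_rfl, union_sdiff_of_subset h⟩
    · rintro ⟨R, _, rfl⟩
      exact subset_union_left
  rw [e2, sum_image]
  · have e3 : ∀ R ∈ (univ \ T).powerset, ρ ^ (T ∪ R).card *
        (1 - ρ) ^ (Fintype.card X - (T ∪ R).card) =
        ρ ^ T.card * (ρ ^ R.card * (1 - ρ) ^ ((univ \ T).card - R.card)) := by
      intro R hR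
      have hd : Disjoint T R := by
        rw [mem_powerset] at hR
        exact disjoint_of_subset_right hR disjoint_sdiff
      rw [card_union_of_disjoint hd, card_sdiff_of_subset (subset_univ T), card_univ, pow_add,
        Nat.sub_sub]
      ring
    rw [sum_congr rfl e3, ← mul_sum, sum_pow_mul_eq_add_pow]
    simp
  · intro R hR R' hR' h
    have hR := mem_powerset.1 (mem_coe.1 hR)
    have hR' := mem_powerset.1 (mem_coe.1 hR')
    dsimp only at h
    ext x
    have h1 : x ∈ T ∪ R ↔ x ∈ T ∪ R' := by rw [h]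
    rw [mem_union, mem_union] at h1
    constructor
    · intro hx
      have := (mem_sdiff.1 (hR hx)).2
      tauto
    · intro hx
      have := (mem_sdiff.1 (hR' hx)).2
      tauto

theorem noise_sum {ι : Type} (ρ : ℝ) (s : Finset ι) (g : ι → (X → A) → ℝ) (ω : X → A) :
    noise μ ρ (fun ω => ∑ i ∈ s, g i ω) ω = ∑ i ∈ s, noise μ ρ (g i) ω := by
  unfold noise
  rw [sum_comm]
  apply sum_congr rfl
  intro S _
  rw [cond_sum, mul_sum]

theorem noise_const_mul (ρ c : ℝ) (g : (X → A) → ℝ) (ω : X → A) :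
    noise μ ρ (fun ω => c * g ω) ω = c * noise μ ρ g ω := by
  unfold noise
  rw [mul_sum]
  apply sum_congr rfl
  intro S _
  rw [cond_const_mul]
  ring

theorem noise_adj (ρ : ℝ) (g h : (X → A) → ℝ) :
    Ex μ (fun ω => noise μ ρ g ω * h ω) = Ex μ (fun ω => g ω * noise μ ρ h ω) := by
  have e1 : ∀ ω, noise μ ρ g ω * h ω = ∑ S : Finset X,
      (ρ ^ S.card * (1 - ρ) ^ (Fintype.card X - S.card)) * (cond μ S g ω * h ω) := by
    intro ω
    unfold noise
    rw [sum_mul]
    exact sum_congr rfl fun S _ => by ring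
  have e2 : ∀ ω, g ω * noise μ ρ h ω = ∑ S : Finset X,
      (ρ ^ S.card * (1 - ρ) ^ (Fintype.card X - S.card)) * (g ω * cond μ S h ω) := by
    intro ω
    unfold noise
    rw [mul_sum]
    exact sum_congr rfl fun S _ => by ring
  rw [Ex_congr e1, Ex_congr e2, Ex_sum, Ex_sum]
  apply sum_congr rfl
  intro S _
  rw [Ex_const_mul, Ex_const_mul, cond_adj]

end

end Pool.Agent.ZOL
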