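import Pool.Agent.ZOL.Targets2
import Pool.Agent.ZOL.Prod

/-!
# Independence of disjoint blocks
-/

set_option autoImplicit false

namespace Pool.Agent.ZOL

open Finset

namespace INDEP_

theorem two_blocks {X A : Type} [Fintype X] [DecidableEq X] [Fintype A] {μ : A → ℝ}
    (hμ : ∑ a, μ a = 1) (T : Finset X) (f h : (X → A) → ℝ)
    (hf : ∀ χ χ', (∀ x, x ∈ T → χ x = χ' x) → f χ = f χ')
    (hh : ∀ χ χ', (∀ x, x ∉ T → χ x = χ' x) → h χ = h χ') :
    Ex μ (fun ω => f ω * h ω) = Ex μ f * Ex μ h := by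
  have e1 : Ex μ f * Ex μ h = Ex μ (fun η => Ex μ (fun θ => f η * h θ)) := by
    rw [← Ex_mul_const]
    exact Ex_congr fun η => (Ex_const_mul _ _).symm
  rw [e1, Ex_swap T (fun η θ => f η * h θ)]
  refine Ex_congr fun η => ?_
  have e2 : ∀ θ : X → A, f (mix T η θ) * h (mix T θ η) = f η * h η := by
    intro θ
    rw [hf (mix T η θ) η (fun x hx => by simp [mix, hx]),
      hh (mix T θ η) η (fun x hx => by simp [mix, hx])]
  rw [Ex_congr e2, Ex_const hμ]

theorem blocks {X A : Type} [Fintype X] [DecidableEq X] [Fintype A] {μ : A → ℝ}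
    (hμ : ∑ a, μ a = 1) {r : ℕ} (τ : X → Fin r) (g : Fin r → (X → A) → ℝ)
    (hg : ∀ j χ χ', (∀ x, τ x = j → χ x = χ' x) → g j χ = g j χ') (s : Finset (Fin r)) :
    Ex μ (fun ω => ∏ j ∈ s, g j ω) = ∏ j ∈ s, Ex μ (g j) := by
  induction s using Finset.induction_on with
  | empty =>
    simp only [prod_empty]
    exact Ex_const hμ 1
  | insert j s hj ih =>
    rw [prod_insert hj, ← ih]
    have e1 : ∀ ω, ∏ i ∈ insert j s, g i ω = g j ω * ∏ i ∈ s, g i ω := fun ω => prod_insert hj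
    rw [Ex_congr e1]
    refine two_blocks hμ (univ.filter fun x => τ x = j) (g j) (fun ω => ∏ i ∈ s, g i ω) ?_ ?_
    · intro χ χ' h
      exact hg j χ χ' fun x hx => h x (by simp [hx])
    · intro χ χ' h
      refine prod_congr rfl fun i hi => hg i χ χ' fun x hx => h x ?_
      intro hx'
      rw [mem_filter] at hx'
      apply hj
      rw [← hx'.2, hx]
      exact hi

theorem Ex_unif {X : Type} [Fintype X] [DecidableEq X] {k : ℕ} (f : (X → Fin k) → ℝ) :
    Ex (fun _ : Fin k => (1 / (k : ℝ))) f = (∑ χ, f χ) / (k : ℝ) ^ Fintype.card X := by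
  unfold Ex
  have h : ∀ χ : X → Fin k, wt (fun _ : Fin k => (1 / (k : ℝ))) χ =
      (1 / (k : ℝ)) ^ Fintype.card X := by
    intro χ
    unfold wt
    rw [prod_const, card_univ]
  rw [sum_congr rfl fun χ _ => by rw [h χ], ← mul_sum, one_div, inv_pow, div_eq_inv_mul]

end INDEP_

open INDEP_ in
theorem p_INDEP : T_INDEP := by
  intro X _ _ k r τ g hk hg
  have hμ : ∑ _a : Fin k, (1 / (k : ℝ)) = 1 := by
    have hk' : (k : ℝ) ≠ 0 := by
      have : k ≠ 0 := by omega
      exact_mod_cast this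
    simp [hk']
  have h := blocks hμ τ g hg univ
  rw [Ex_unif] at h
  rw [h]
  exact prod_congr rfl fun j _ => Ex_unif (g j)

end Pool.Agent.ZOL
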