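import Pool.Agent.ZOL.Prod

/-!
# The Friedgut type inequality
-/

set_option autoImplicit false

namespace Pool.Agent.ZOL

open Finset

section

variable {X A : Type} [Fintype X] [DecidableEq X] [Fintype A] {μ : A → ℝ}

/-- Cauchy-Schwarz -/
theorem Ex_cs (hμ : ∀ a, 0 ≤ μ a) (g h : (X → A) → ℝ) :
    Ex μ (fun ω => g ω * h ω) ^ 2 ≤ Ex μ (fun ω => g ω ^ 2) * Ex μ (fun ω => h ω ^ 2) := by
  unfold Ex
  have e1 : ∀ ω, wt μ ω * (g ω * h ω) = (Real.sqrt (wt μ ω) * g ω) * (Real.sqrt (wt μ ω) * h ω) := by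
    intro ω
    have := Real.mul_self_sqrt (wt_nonneg hμ ω)
    calc wt μ ω * (g ω * h ω) = (Real.sqrt (wt μ ω) * Real.sqrt (wt μ ω)) * (g ω * h ω) := by
          rw [this]
      _ = _ := by ring
  have e2 : ∀ (u : (X → A) → ℝ) ω, wt μ ω * u ω ^ 2 = (Real.sqrt (wt μ ω) * u ω) ^ 2 := by
    intro u ω
    rw [mul_pow, Real.sq_sqrt (wt_nonneg hμ ω)]
  rw [sum_congr rfl fun ω _ => e1 ω, sum_congr rfl fun ω _ => e2 g ω,
    sum_congr rfl fun ω _ => e2 h ω]
  exact sum_mul_sq_le_sq_mul_sq _ _ _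

open Classical in
theorem infl_nonneg (hμ : ∀ a, 0 ≤ μ a) (f : (X → A) → ℝ) (x : X) : 0 ≤ infl μ f x :=
  Ex_nonneg hμ fun ω => by split <;> norm_num

theorem tot_nonneg (hμ : ∀ a, 0 ≤ μ a) (f : (X → A) → ℝ) : 0 ≤ tot μ f :=
  sum_nonneg fun x _ => infl_nonneg hμ f x

theorem mix_erase (x : X) (ω η : X → A) :
    mix (univ.erase x) ω η = Function.update ω x (η x) := by
  funext y
  unfold mix
  by_cases h : y = x
  · subst h
    simp
  · simp [h]

theorem cond_mem (hμ : ∀ a, 0 ≤ μ a) (h1 : ∑ a, μ a = 1) {f : (X → A) → ℝ}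
    (hf : ∀ ω, f ω = 0 ∨ f ω = 1) (U : Finset X) (ω : X → A) :
    0 ≤ cond μ U f ω ∧ cond μ U f ω ≤ 1 := by
  constructor
  · apply Ex_nonneg hμ
    intro η
    rcases hf (mix U ω η) with h | h <;> rw [h]
    norm_num
  · calc cond μ U f ω ≤ Ex μ (fun _ : X → A => (1 : ℝ)) := by
          apply Ex_mono hμ
          intro η
          rcases hf (mix U ω η) with h | h <;> rw [h]
          norm_num
      _ = 1 := Ex_const h1 _

/-- the difference `f - E_x f` -/
noncomputable def dd (μ : A → ℝ) (f : (X → A) → ℝ) (x : X) (ω : X → A) : ℝ :=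
  f ω - cond μ (univ.erase x) f ω

open Classical in
theorem abs_dd_le (hμ : ∀ a, 0 ≤ μ a) (h1 : ∑ a, μ a = 1) {f : (X → A) → ℝ}
    (hf : ∀ ω, f ω = 0 ∨ f ω = 1) (x : X) (ω : X → A) :
    |dd μ f x ω| ≤ if Piv f x ω then 1 else 0 := by
  unfold dd
  split
  · have h := cond_mem hμ h1 hf (univ.erase x) ω
    rw [abs_le]
    rcases hf ω with h' | h' <;> rw [h'] <;> constructor <;> linarith [h.1, h.2]
  · rename_i hp
    have : ∀ η : X → A, f (mix (univ.erase x) ω η) = f ω := by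
      intro η
      rw [mix_erase]
      by_contra hne
      apply hp
      refine ⟨η x, ω x, ?_⟩
      rwa [Function.update_eq_self]
    unfold cond
    rw [Ex_congr this, Ex_const h1, sub_self, abs_zero]

theorem dd_eq (h1 : ∑ a, μ a = 1) (f : (X → A) → ℝ) (x : X) (ω : X → A) :
    dd μ f x ω = ∑ T ∈ univ.filter (fun T : Finset X => x ∈ T), qq μ f T ω := by
  unfold dd
  rw [← sum_qq f (univ.erase x), ← sum_qq_univ h1 f ω]
  rw [← sum_filter_add_sum_filter_not univ (fun T : Finset X => x ∈ T)]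
  have : (univ.filter fun T : Finset X => ¬ x ∈ T) = (univ.erase x).powerset := by
    ext T
    simp only [mem_filter, mem_univ, true_and, mem_powerset]
    constructor
    · intro h y hy
      exact mem_erase.2 ⟨fun e => h (e ▸ hy), mem_univ _⟩
    · intro h hx
      exact (notMem_erase x univ) (h hx)
  rw [this]
  ring

theorem norm_dd (h1 : ∑ a, μ a = 1) (f : (X → A) → ℝ) (x : X) :
    Ex μ (fun ω => dd μ f x ω ^ 2) = ∑ T ∈ univ.filter (fun T : Finset X => x ∈ T), W μ f T := by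
  have := norm_sum_qq h1 f (univ.filter (fun T : Finset X => x ∈ T)) (fun _ => 1)
  simp only [one_mul, one_pow] at this
  rw [← this]
  exact Ex_congr fun ω => by rw [dd_eq h1]

theorem noise_dd (h1 : ∑ a, μ a = 1) (ρ : ℝ) (f : (X → A) → ℝ) (x : X) (ω : X → A) :
    noise μ ρ (dd μ f x) ω =
      ∑ T ∈ univ.filter (fun T : Finset X => x ∈ T), ρ ^ T.card * qq μ f T ω := by
  have : dd μ f x = fun ω => ∑ T ∈ univ.filter (fun T : Finset X => x ∈ T), qq μ f T ω :=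
    funext fun ω => dd_eq h1 f x ω
  rw [this, noise_sum]
  exact sum_congr rfl fun T _ => noise_qq h1 ρ f T ω

theorem norm_noise_dd (h1 : ∑ a, μ a = 1) (ρ : ℝ) (f : (X → A) → ℝ) (x : X) :
    Ex μ (fun ω => noise μ ρ (dd μ f x) ω ^ 2) =
      ∑ T ∈ univ.filter (fun T : Finset X => x ∈ T), (ρ ^ T.card) ^ 2 * W μ f T := by
  rw [← norm_sum_qq h1]
  exact Ex_congr fun ω => by rw [noise_dd h1]

open Classical in
theorem dd_sq_le (hμ : ∀ a, 0 ≤ μ a) (h1 : ∑ a, μ a = 1) {f : (X → A) → ℝ}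
    (hf : ∀ ω, f ω = 0 ∨ f ω = 1) (x : X) : Ex μ (fun ω => dd μ f x ω ^ 2) ≤ infl μ f x := by
  apply Ex_mono hμ
  intro ω
  have h := abs_dd_le hμ h1 hf x ω
  rw [← sq_abs]
  have h0 := abs_nonneg (dd μ f x ω)
  split_ifs at h ⊢ with hp
  · nlinarith
  · have : |dd μ f x ω| = 0 := le_antisymm h h0
    rw [this]
    norm_num

open Classical in
/-- the dual form of hypercontractivity -/
theorem noise_dd_le (hyp : T_HYPER) {lam ρ : ℝ} (hlam : 0 < lam) (hμl : ∀ a, lam ≤ μ a)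
    (h1 : ∑ a, μ a = 1) (hρ0 : 0 ≤ ρ) (hρ : ρ ≤ 1 / 2) (hρl : 3 * ρ ^ 4 ≤ lam)
    {f : (X → A) → ℝ} (hf : ∀ ω, f ω = 0 ∨ f ω = 1) (x : X) {τ : ℝ} (hτ : 0 ≤ τ)
    (hx : infl μ f x ≤ τ ^ 2) :
    Ex μ (fun ω => noise μ ρ (dd μ f x) ω ^ 2) ≤ infl μ f x * τ := by
  have hμ : ∀ a, 0 ≤ μ a := fun a => hlam.le.trans (hμl a)
  set h := dd μ f x with hh
  set n := noise μ ρ (noise μ ρ h) with hn
  set J := infl μ f x with hJ
  set N := Ex μ (fun ω => noise μ ρ h ω ^ 2) with hN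
  have hJ0 : 0 ≤ J := infl_nonneg hμ f x
  have hN0 : 0 ≤ N := Ex_nonneg hμ fun _ => sq_nonneg _
  let e : (X → A) → ℝ := fun ω => if Piv f x ω then 1 else 0
  have he : ∀ ω, e ω ^ 2 = e ω := by
    intro ω
    change (if Piv f x ω then (1 : ℝ) else 0) ^ 2 = if Piv f x ω then (1 : ℝ) else 0
    split <;> norm_num
  have he0 : ∀ ω, 0 ≤ e ω := by
    intro ω
    change 0 ≤ if Piv f x ω then (1 : ℝ) else 0
    split <;> norm_num
  have hJe : J = Ex μ e := rfl
  have a1 : N = Ex μ (fun ω => h ω * n ω) := by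
    have := noise_adj (μ := μ) ρ h (noise μ ρ h)
    rw [← hn] at this
    rw [← this]
    exact Ex_congr fun ω => sq _
  have a2 : N ≤ Ex μ (fun ω => e ω * |n ω|) := by
    rw [a1]
    apply Ex_mono hμ
    intro ω
    calc h ω * n ω ≤ |h ω * n ω| := le_abs_self _
      _ = |h ω| * |n ω| := abs_mul _ _
      _ ≤ e ω * |n ω| := mul_le_mul_of_nonneg_right (abs_dd_le hμ h1 hf x ω) (abs_nonneg _)
  set P := Ex μ (fun ω => e ω * n ω ^ 2) with hP
  have hP0 : 0 ≤ P := Ex_nonneg hμ fun ω => mul_nonneg (he0 ω) (sq_nonneg _)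
  have a3 : N ^ 2 ≤ J * P := by
    have c := Ex_cs hμ e (fun ω => e ω * |n ω|)
    have c1 : Ex μ (fun ω => e ω * (e ω * |n ω|)) = Ex μ (fun ω => e ω * |n ω|) := by
      apply Ex_congr
      intro ω
      rw [← mul_assoc, ← sq, he]
    have c2 : Ex μ (fun ω => e ω ^ 2) = J := Ex_congr fun ω => he ω
    have c3 : Ex μ (fun ω => (e ω * |n ω|) ^ 2) = P := by
      apply Ex_congr
      intro ω
      rw [mul_pow, he, sq_abs]
    rw [c1, c2, c3] at c
    calc N ^ 2 ≤ Ex μ (fun ω => e ω * |n ω|) ^ 2 := pow_le_pow_left₀ hN0 a2 2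
      _ ≤ _ := c
  have a4 : P ^ 2 ≤ J * N ^ 2 := by
    have c := Ex_cs hμ e (fun ω => n ω ^ 2)
    have c2 : Ex μ (fun ω => e ω ^ 2) = J := Ex_congr fun ω => he ω
    have c3 : Ex μ (fun ω => (n ω ^ 2) ^ 2) ≤ N ^ 2 := by
      have := hyp X A μ lam ρ hlam hμl h1 hρ0 hρ hρl (noise μ ρ h)
      refine le_trans (le_of_eq ?_) this
      apply Ex_congr
      intro ω
      rw [hn]
      ring
    rw [c2] at c
    exact c.trans (mul_le_mul_of_nonneg_left c3 hJ0)
  -- N^4 ≤ J^2 P^2 ≤ J^3 N^2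
  rcases eq_or_lt_of_le hN0 with h0 | hpos
  · rw [← h0]
    exact mul_nonneg hJ0 hτ
  have a5 : N ^ 2 * N ^ 2 ≤ J ^ 3 * N ^ 2 := by
    calc N ^ 2 * N ^ 2 ≤ (J * P) * (J * P) :=
          mul_le_mul a3 a3 (sq_nonneg _) (mul_nonneg hJ0 hP0)
      _ = J ^ 2 * P ^ 2 := by ring
      _ ≤ J ^ 2 * (J * N ^ 2) := mul_le_mul_of_nonneg_left a4 (sq_nonneg _)
      _ = J ^ 3 * N ^ 2 := by ring
  have a6 : N ^ 2 ≤ J ^ 3 := le_of_mul_le_mul_right a5 (by positivity)
  have a7 : N ^ 2 ≤ (J * τ) ^ 2 := by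
    calc N ^ 2 ≤ J ^ 2 * J := by rw [← pow_succ]; exact a6
      _ ≤ J ^ 2 * τ ^ 2 := mul_le_mul_of_nonneg_left hx (sq_nonneg _)
      _ = _ := by ring
  exact (pow_le_pow_iff_left₀ hN0 (mul_nonneg hJ0 hτ) two_ne_zero).1 a7

theorem Ex_cond_sq (h1 : ∑ a, μ a = 1) (f : (X → A) → ℝ) (U : Finset X) :
    Ex μ (fun ω => cond μ U f ω ^ 2) = ∑ T ∈ U.powerset, W μ f T := by
  have := norm_sum_qq h1 f U.powerset (fun _ => 1)
  simp only [one_mul, one_pow] at this
  rw [← this]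
  exact Ex_congr fun ω => by rw [sum_qq]

theorem Ex_sq (h1 : ∑ a, μ a = 1) (f : (X → A) → ℝ) :
    Ex μ (fun ω => f ω ^ 2) = ∑ T : Finset X, W μ f T := by
  have := Ex_cond_sq h1 f univ
  rw [powerset_univ] at this
  rw [← this]
  exact Ex_congr fun ω => by rw [cond_univ h1]

theorem level_aux (hyp : T_HYPER) {lam ρ : ℝ} (hlam : 0 < lam) (hμl : ∀ a, lam ≤ μ a)
    (h1 : ∑ a, μ a = 1) (hρ0 : 0 < ρ) (hρ : ρ ≤ 1 / 2) (hρl : 3 * ρ ^ 4 ≤ lam)
    {f : (X → A) → ℝ} (hf : ∀ ω, f ω = 0 ∨ f ω = 1) (U : Finset X) {L : ℕ} (hL : 1 ≤ L)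
    {τ : ℝ} (hτ : 0 ≤ τ) (hx : ∀ x ∉ U, infl μ f x ≤ τ ^ 2) :
    Ex μ (fun ω => cond μ U f ω * (1 - cond μ U f ω)) ≤
      tot μ f / L + (1 / ρ) ^ (2 * L) * τ * tot μ f := by
  have hμ : ∀ a, 0 ≤ μ a := fun a => hlam.le.trans (hμl a)
  have hLpos : (0 : ℝ) < L := by exact_mod_cast hL
  have b1 : Ex μ (fun ω => cond μ U f ω * (1 - cond μ U f ω)) =
      ∑ T ∈ univ.filter (fun T : Finset X => ¬ T ⊆ U), W μ f T := by
    have c1 : Ex μ (fun ω => cond μ U f ω * (1 - cond μ U f ω)) =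
        Ex μ (fun ω => cond μ U f ω) - Ex μ (fun ω => cond μ U f ω ^ 2) := by
      rw [← Ex_sub]
      exact Ex_congr fun ω => by ring
    have c2 : Ex μ (fun ω => cond μ U f ω) = Ex μ (fun ω => f ω ^ 2) := by
      have := Ex_cond h1 U f
      rw [show Ex μ (fun ω => cond μ U f ω) = Ex μ (cond μ U f) from rfl, this]
      apply Ex_congr
      intro ω
      rcases hf ω with h | h <;> rw [h] <;> norm_num
    rw [c1, c2, Ex_sq h1, Ex_cond_sq h1,
      ← sum_filter_add_sum_filter_not univ (fun T : Finset X => T ⊆ U)]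
    have : (univ.filter fun T : Finset X => T ⊆ U) = U.powerset := by
      ext T
      simp
    rw [this]
    ring
  rw [b1]
  -- pointwise in `T`
  have b2 : ∀ T ∈ univ.filter (fun T : Finset X => ¬ T ⊆ U), W μ f T ≤
      (T.card : ℝ) / L * W μ f T +
      (1 / ρ) ^ (2 * L) * ∑ x ∈ univ \ U, if x ∈ T then (ρ ^ T.card) ^ 2 * W μ f T else 0 := by
    intro T hT
    have hT := (mem_filter.1 hT).2
    have hW := W_nonneg hμ f T
    have hs : 0 ≤ ∑ x ∈ univ \ U, if x ∈ T then (ρ ^ T.card) ^ 2 * W μ f T else 0 := by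
      apply sum_nonneg
      intro x _
      split
      · exact mul_nonneg (sq_nonneg _) hW
      · exact le_rfl
    have hρL : 0 ≤ (1 / ρ) ^ (2 * L) := by positivity
    by_cases hc : L ≤ T.card
    · have : 1 ≤ (T.card : ℝ) / L := by
        rw [le_div_iff₀ hLpos, one_mul]
        exact_mod_cast hc
      nlinarith [mul_nonneg hρL hs, mul_le_mul_of_nonneg_right this hW]
    · push Not at hc
      have c1 : 0 ≤ (T.card : ℝ) / L * W μ f T := by positivity
      obtain ⟨x, hxT, hxU⟩ := not_subset.1 hT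
      have c2 : (ρ ^ T.card) ^ 2 * W μ f T ≤
          ∑ x ∈ univ \ U, if x ∈ T then (ρ ^ T.card) ^ 2 * W μ f T else 0 := by
        have := single_le_sum (f := fun x => if x ∈ T then (ρ ^ T.card) ^ 2 * W μ f T else 0)
          (s := univ \ U) (fun y _ => by
            split
            · exact mul_nonneg (sq_nonneg _) hW
            · exact le_rfl) (mem_sdiff.2 ⟨mem_univ x, hxU⟩)
        rwa [if_pos hxT] at this
      have c3 : 1 ≤ (1 / ρ) ^ (2 * L) * (ρ ^ T.card) ^ 2 := by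
        have d1 : (1 / ρ) ^ (2 * L) * ρ ^ (2 * L) = 1 := by
          rw [← mul_pow, one_div, inv_mul_cancel₀ hρ0.ne', one_pow]
        calc (1 : ℝ) = (1 / ρ) ^ (2 * L) * ρ ^ (2 * L) := d1.symm
          _ ≤ (1 / ρ) ^ (2 * L) * (ρ ^ T.card) ^ 2 := by
            apply mul_le_mul_of_nonneg_left _ hρL
            rw [← pow_mul]
            exact pow_le_pow_of_le_one hρ0.le (by linarith) (by omega)
      calc W μ f T = 1 * W μ f T := (one_mul _).symm
        _ ≤ ((1 / ρ) ^ (2 * L) * (ρ ^ T.card) ^ 2) * W μ f T :=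
          mul_le_mul_of_nonneg_right c3 hW
        _ = (1 / ρ) ^ (2 * L) * ((ρ ^ T.card) ^ 2 * W μ f T) := by ring
        _ ≤ (1 / ρ) ^ (2 * L) * _ := mul_le_mul_of_nonneg_left c2 hρL
        _ ≤ _ := by linarith
  -- sums
  have b3 : ∑ T : Finset X, (T.card : ℝ) * W μ f T ≤ tot μ f := by
    have c1 : ∑ T : Finset X, (T.card : ℝ) * W μ f T =
        ∑ x : X, ∑ T ∈ univ.filter (fun T : Finset X => x ∈ T), W μ f T := by
      have : ∀ T : Finset X, (T.card : ℝ) * W μ f T = ∑ x : X, if x ∈ T then W μ f T else 0 := by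
        intro T
        rw [← sum_filter]
        simp
      rw [sum_congr rfl fun T _ => this T, sum_comm]
      exact sum_congr rfl fun x _ => by rw [sum_filter]
    rw [c1]
    apply sum_le_sum
    intro x _
    rw [← norm_dd h1]
    exact dd_sq_le hμ h1 hf x
  have b4 : ∑ T : Finset X, ∑ x ∈ univ \ U, (if x ∈ T then (ρ ^ T.card) ^ 2 * W μ f T else 0) ≤
      τ * tot μ f := by
    rw [sum_comm]
    have c1 : ∀ x ∈ univ \ U,
        ∑ T : Finset X, (if x ∈ T then (ρ ^ T.card) ^ 2 * W μ f T else 0) ≤ τ * infl μ f x := by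
      intro x hxU
      rw [← sum_filter, ← norm_noise_dd h1, mul_comm τ]
      exact noise_dd_le hyp hlam hμl h1 hρ0.le hρ hρl hf x hτ (hx x (mem_sdiff.1 hxU).2)
    refine (sum_le_sum c1).trans ?_
    rw [← mul_sum]
    apply mul_le_mul_of_nonneg_left _ hτ
    apply sum_le_sum_of_subset_of_nonneg (subset_univ _)
    intro x _ _
    exact infl_nonneg hμ f x
  have hρL : 0 ≤ (1 / ρ) ^ (2 * L) := by positivity
  have b5 : ∑ T ∈ univ.filter (fun T : Finset X => ¬ T ⊆ U), ((T.card : ℝ) / L * W μ f T +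
      (1 / ρ) ^ (2 * L) * ∑ x ∈ univ \ U, if x ∈ T then (ρ ^ T.card) ^ 2 * W μ f T else 0) ≤
      ∑ T : Finset X, ((T.card : ℝ) / L * W μ f T +
      (1 / ρ) ^ (2 * L) * ∑ x ∈ univ \ U, if x ∈ T then (ρ ^ T.card) ^ 2 * W μ f T else 0) := by
    apply sum_le_sum_of_subset_of_nonneg (subset_univ _)
    intro T _ _
    have hW := W_nonneg hμ f T
    apply add_nonneg
    · positivity
    · apply mul_nonneg hρL
      apply sum_nonneg
      intro x _
      split
      · exact mul_nonneg (sq_nonneg _) hW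
      · exact le_rfl
  refine (sum_le_sum b2).trans (b5.trans ?_)
  rw [sum_add_distrib, ← mul_sum]
  have b6 : ∑ T : Finset X, (T.card : ℝ) / L * W μ f T =
      (∑ T : Finset X, (T.card : ℝ) * W μ f T) / L := by
    rw [sum_div]
    exact sum_congr rfl fun T _ => by ring
  rw [b6]
  apply add_le_add
  · exact div_le_div_of_nonneg_right b3 hLpos.le
  · rw [mul_assoc]
    exact mul_le_mul_of_nonneg_left b4 hρL

end

theorem p_LEVEL (hyp : T_HYPER) : T_LEVEL := by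
  intro X A _ _ _ μ lam ρ hlam hμl h1 hρ0 hρ hρl f hf U L hL τ hτ hx
  exact level_aux hyp hlam hμl h1 hρ0 hρ hρl hf U hL hτ hx

end Pool.Agent.ZOL
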