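import Pool.Agent.ZOL.FAR

/-!
# The ordinary sunflower conjecture and the probability of a rainbow sunflower

If every `w`-set system with at least `C₀ ^ w` members has a `k`-petal sunflower, then for a large
base `C` the probability of a rainbow sunflower is at least `exp (-ε w)`. Second moment method.
-/

set_option autoImplicit false

namespace Pool.Agent.ZOL

open Finset

/-- a sunflower with `k` petals -/
def HasSunflower {X : Type} [DecidableEq X] (k : ℕ) (F : Finset (Finset X)) : Prop :=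
  ∃ (S : Fin k → Finset X) (Y : Finset X), Function.Injective S ∧ (∀ i, S i ∈ F) ∧
    ∀ i j, i ≠ j → S i ∩ S j = Y

/-- the sunflower conjecture for `k` petals with base `C₀` -/
def SC (k : ℕ) (C₀ : ℝ) : Prop :=
  ∀ w : ℕ, 1 ≤ w → ∀ (X : Type) [Fintype X] [DecidableEq X] (F : Finset (Finset X)),
    Big w C₀ F → HasSunflower k F

/-! ### Counting subsets -/

theorem choose_ratio (n M : ℕ) (hM : M ≤ n) (j : ℕ) (hj : j ≤ M) :
    (n - j).choose (M - j) * n ^ j ≤ n.choose M * M ^ j := by
  induction j with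
  | zero => simp
  | succ j ih =>
    have h1 := ih (by omega)
    -- (n - j) * choose (n - j - 1) (M - j - 1) = choose (n - j) (M - j) * (M - j)
    obtain ⟨a, ha⟩ : ∃ a, n - j = a + 1 := ⟨n - j - 1, by omega⟩
    obtain ⟨b, hb⟩ : ∃ b, M - j = b + 1 := ⟨M - j - 1, by omega⟩
    have e1 : n - (j + 1) = a := by omega
    have e2 : M - (j + 1) = b := by omega
    rw [e1, e2]
    rw [ha, hb] at h1
    have h2 : (a + 1) * a.choose b = (a + 1).choose (b + 1) * (b + 1) := by
      simpa using Nat.add_one_mul_choose_eq a b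
    -- n * (b + 1) ≤ M * (a + 1)
    have h3 : n * (b + 1) ≤ M * (a + 1) := by
      have e3 : n = a + 1 + j := by omega
      have e4 : M = b + 1 + j := by omega
      have e5 : b ≤ a := by omega
      rw [e3, e4]
      nlinarith
    have h4 : (a + 1) * (a.choose b * n ^ (j + 1)) ≤ (a + 1) * (n.choose M * M ^ (j + 1)) := by
      calc (a + 1) * (a.choose b * n ^ (j + 1)) = ((a + 1) * a.choose b) * n ^ j * n := by ring
        _ = ((a + 1).choose (b + 1) * n ^ j) * (n * (b + 1)) := by rw [h2]; ring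
        _ ≤ (n.choose M * M ^ j) * (M * (a + 1)) := Nat.mul_le_mul h1 h3
        _ = _ := by ring
    exact Nat.le_of_mul_le_mul_left h4 (by omega)

theorem card_super {α : Type} [DecidableEq α] (H J : Finset α) (hJ : J ⊆ H) (M : ℕ)
    (hM : M ≤ H.card) (hJM : J.card ≤ M) :
    ((powersetCard M H).filter fun A => J ⊆ A).card * H.card ^ J.card ≤
      (powersetCard M H).card * M ^ J.card := by
  have h1 : ((powersetCard M H).filter fun A => J ⊆ A).card ≤
      (powersetCard (M - J.card) (H \ J)).card := by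
    apply card_le_card_of_injOn (fun A => A \ J)
    · intro A hA
      obtain ⟨g1, g2⟩ := mem_filter.1 (mem_coe.1 hA)
      obtain ⟨g3, g4⟩ := mem_powersetCard.1 g1
      rw [mem_coe, mem_powersetCard]
      exact ⟨sdiff_subset_sdiff g3 subset_rfl, by rw [card_sdiff_of_subset g2, g4]⟩
    · intro A hA B hB h
      have g1 := (mem_filter.1 (mem_coe.1 hA)).2
      have g2 := (mem_filter.1 (mem_coe.1 hB)).2
      dsimp only at h
      rw [← sdiff_union_of_subset g1, ← sdiff_union_of_subset g2, h]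
  rw [card_powersetCard, card_sdiff_of_subset hJ] at h1
  rw [card_powersetCard]
  exact (Nat.mul_le_mul_right _ h1).trans (choose_ratio _ _ hM _ hJM)

/-! ### Second moment -/

section

variable {X : Type} [Fintype X] [DecidableEq X] {k : ℕ}

/-- the colouring contains the prescribed colours -/
def Mat (χ : X → Fin k) (T : Finset (X × Fin k)) : Prop := ∀ p ∈ T, χ p.1 = p.2

instance (χ : X → Fin k) (T : Finset (X × Fin k)) : Decidable (Mat χ T) := by
  unfold Mat; infer_instance

theorem card_mat (T : Finset (X × Fin k)) (χ₀ : X → Fin k) (h : Mat χ₀ T) :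
    (univ.filter fun χ : X → Fin k => Mat χ T).card * k ^ T.card = k ^ Fintype.card X := by
  have h1 : (univ.filter fun χ : X → Fin k => Mat χ T) =
      Fintype.piFinset fun x => if x ∈ T.image Prod.fst then {χ₀ x} else univ := by
    ext χ
    rw [mem_filter, Fintype.mem_piFinset]
    constructor
    · rintro ⟨_, hχ⟩ x
      split_ifs with hx
      · obtain ⟨p, hp, rfl⟩ := mem_image.1 hx
        rw [mem_singleton, hχ p hp, h p hp]
      · exact mem_univ _
    · intro hχ
      refine ⟨mem_univ _, ?_⟩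
      intro p hp
      have := hχ p.1
      rw [if_pos (mem_image_of_mem _ hp), mem_singleton] at this
      rw [this, h p hp]
  have h2 : (T.image Prod.fst).card = T.card := by
    apply card_image_of_injOn
    intro p hp q hq hpq
    have e1 := h p (mem_coe.1 hp)
    have e2 := h q (mem_coe.1 hq)
    rw [hpq] at e1
    exact Prod.ext hpq (e1.symm.trans e2)
  have h3 : (T.image Prod.fst).card ≤ Fintype.card X := card_le_univ _
  rw [h1, Fintype.card_piFinset]
  have e1 : ∀ x, (if x ∈ T.image Prod.fst then ({χ₀ x} : Finset (Fin k)) else univ).card =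
      if x ∈ T.image Prod.fst then 1 else k := by
    intro x
    split_ifs
    · rfl
    · rw [card_univ, Fintype.card_fin]
  rw [prod_congr rfl fun x _ => e1 x, prod_ite, prod_const_one, one_mul, prod_const]
  have e2 : (univ.filter fun x => x ∉ T.image Prod.fst).card = Fintype.card X - T.card := by
    have : (univ.filter fun x => x ∉ T.image Prod.fst) = (T.image Prod.fst)ᶜ := by ext x; simp
    rw [this, card_compl, h2]
  rw [e2, ← pow_add]
  congr 1
  omega

theorem card_mat_le (T : Finset (X × Fin k)) :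
    (univ.filter fun χ : X → Fin k => Mat χ T).card * k ^ T.card ≤ k ^ Fintype.card X := by
  by_cases h : ∃ χ₀ : X → Fin k, Mat χ₀ T
  · obtain ⟨χ₀, h⟩ := h
    exact (card_mat T χ₀ h).le
  · have : (univ.filter fun χ : X → Fin k => Mat χ T) = ∅ := by
      rw [filter_eq_empty_iff]
      intro χ _ hχ
      exact h ⟨χ, hχ⟩
    rw [this]
    simp

/-- the second moment inequality -/
theorem second_moment {ι : Type} (s : Finset ι) (T : ι → Finset (X × Fin k)) (hk : 1 ≤ k)
    (hT : ∀ a ∈ s, ∃ χ₀ : X → Fin k, Mat χ₀ (T a)) (P : (X → Fin k) → Prop) [DecidablePred P]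
    (hP : ∀ a ∈ s, ∀ χ, Mat χ (T a) → P χ) :
    (s.card : ℝ) ^ 2 * (k : ℝ) ^ Fintype.card X ≤
      ((univ.filter fun χ => P χ).card : ℝ) * ∑ a ∈ s, ∑ b ∈ s, (k : ℝ) ^ (T a ∩ T b).card := by
  have hk0 : (0 : ℝ) < k := by exact_mod_cast (show 0 < k by omega)
  set n := Fintype.card X with hn
  have hkn : (0 : ℝ) < (k : ℝ) ^ n := by positivity
  let f : ι → (X → Fin k) → ℝ := fun a χ => if Mat χ (T a) then (k : ℝ) ^ (T a).card else 0
  let Z : (X → Fin k) → ℝ := fun χ => ∑ a ∈ s, f a χ
  have h1 : ∑ χ, Z χ = s.card * (k : ℝ) ^ n := by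
    rw [sum_comm]
    have : ∀ a ∈ s, ∑ χ, f a χ = (k : ℝ) ^ n := by
      intro a ha
      obtain ⟨χ₀, hχ₀⟩ := hT a ha
      have e1 := card_mat (T a) χ₀ hχ₀
      simp only [f]
      rw [← sum_filter, sum_const, nsmul_eq_mul]
      exact_mod_cast e1
    rw [sum_congr rfl this, sum_const, nsmul_eq_mul]
  have h2 : ∑ χ, Z χ ^ 2 ≤ (k : ℝ) ^ n * ∑ a ∈ s, ∑ b ∈ s, (k : ℝ) ^ (T a ∩ T b).card := by
    have e1 : ∑ χ, Z χ ^ 2 = ∑ a ∈ s, ∑ b ∈ s, ∑ χ, f a χ * f b χ := by
      have : ∀ χ, Z χ ^ 2 = ∑ a ∈ s, ∑ b ∈ s, f a χ * f b χ := by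
        intro χ
        rw [sq, sum_mul_sum]
      rw [sum_congr rfl fun χ _ => this χ, sum_comm]
      apply sum_congr rfl
      intro a _
      rw [sum_comm]
    rw [e1, mul_sum]
    apply sum_le_sum
    intro a _
    rw [mul_sum]
    apply sum_le_sum
    intro b _
    have e2 : ∑ χ, f a χ * f b χ = ((univ.filter fun χ : X → Fin k => Mat χ (T a ∪ T b)).card : ℝ) *
        ((k : ℝ) ^ (T a).card * (k : ℝ) ^ (T b).card) := by
      rw [← nsmul_eq_mul, ← sum_const, sum_filter]
      apply sum_congr rfl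
      intro χ _
      have : Mat χ (T a ∪ T b) ↔ Mat χ (T a) ∧ Mat χ (T b) := by
        unfold Mat
        constructor
        · intro h
          exact ⟨fun p hp => h p (mem_union_left _ hp), fun p hp => h p (mem_union_right _ hp)⟩
        · rintro ⟨h, h'⟩ p hp
          rcases mem_union.1 hp with hp | hp
          · exact h p hp
          · exact h' p hp
      simp only [f]
      by_cases ha : Mat χ (T a) <;> by_cases hb : Mat χ (T b) <;> simp [ha, hb, this]
    rw [e2]
    have e3 : ((univ.filter fun χ : X → Fin k => Mat χ (T a ∪ T b)).card : ℝ) *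
        (k : ℝ) ^ (T a ∪ T b).card ≤ (k : ℝ) ^ n := by exact_mod_cast card_mat_le (T a ∪ T b)
    have e4 : (k : ℝ) ^ (T a).card * (k : ℝ) ^ (T b).card =
        (k : ℝ) ^ (T a ∪ T b).card * (k : ℝ) ^ (T a ∩ T b).card := by
      rw [← pow_add, ← pow_add, card_union_add_card_inter]
    rw [e4, ← mul_assoc]
    exact mul_le_mul_of_nonneg_right e3 (by positivity)
  -- Cauchy-Schwarz
  have h3 : (∑ χ, Z χ) ^ 2 ≤ ((univ.filter fun χ => P χ).card : ℝ) * ∑ χ, Z χ ^ 2 := by
    have e1 : ∑ χ, Z χ = ∑ χ, (if P χ then (1 : ℝ) else 0) * Z χ := by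
      apply sum_congr rfl
      intro χ _
      split_ifs with hχ
      · rw [one_mul]
      · rw [zero_mul]
        apply sum_eq_zero
        intro a ha
        simp only [f]
        rw [if_neg]
        intro hm
        exact hχ (hP a ha χ hm)
    have e2 : ∑ χ : X → Fin k, (if P χ then (1 : ℝ) else 0) ^ 2 =
        ((univ.filter fun χ => P χ).card : ℝ) := by
      rw [← sum_boole]
      apply sum_congr rfl
      intro χ _
      split_ifs <;> norm_num
    rw [e1, ← e2]
    exact sum_mul_sq_le_sq_mul_sq _ _ _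
  rw [h1] at h3
  have h4 : (s.card * (k : ℝ) ^ n) ^ 2 ≤ ((univ.filter fun χ => P χ).card : ℝ) *
      ((k : ℝ) ^ n * ∑ a ∈ s, ∑ b ∈ s, (k : ℝ) ^ (T a ∩ T b).card) :=
    h3.trans (mul_le_mul_of_nonneg_left h2 (Nat.cast_nonneg _))
  have h5 : (k : ℝ) ^ n * ((s.card : ℝ) ^ 2 * (k : ℝ) ^ n) ≤ (k : ℝ) ^ n *
      (((univ.filter fun χ => P χ).card : ℝ) *
        ∑ a ∈ s, ∑ b ∈ s, (k : ℝ) ^ (T a ∩ T b).card) := by
    calc _ = (s.card * (k : ℝ) ^ n) ^ 2 := by ring
      _ ≤ _ := h4
      _ = _ := by ring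
  exact le_of_mul_le_mul_left h5 hkn

end

end Pool.Agent.ZOL
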