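import Pool.Agent.ZOL.LOWP

/-!
# The sunflower conjecture gives probability `exp (-ε w)`
-/

set_option autoImplicit false

namespace Pool.Agent.ZOL

open Finset

section

variable {X : Type} [Fintype X] [DecidableEq X] {k : ℕ}

/-- the members whose colour is `i` -/
def slice (T : Finset (X × Fin k)) (i : Fin k) : Finset X :=
  univ.filter fun x => (x, i) ∈ T

theorem card_slice (T : Finset (X × Fin k)) : ∑ i, (slice T i).card = T.card := by
  unfold slice
  have h1 : ∀ i : Fin k, (univ.filter fun x : X => (x, i) ∈ T).card =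
      (T.filter fun p => p.2 = i).card := by
    intro i
    apply card_bij' (fun x _ => (x, i)) (fun p _ => p.1)
    · intro x hx
      exact mem_filter.2 ⟨(mem_filter.1 hx).2, rfl⟩
    · intro p hp
      obtain ⟨h1, h2⟩ := mem_filter.1 hp
      refine mem_filter.2 ⟨mem_univ _, ?_⟩
      rw [← h2]
      exact h1
    · intro x _
      rfl
    · intro p hp
      rw [← (mem_filter.1 hp).2]
  rw [sum_congr rfl fun i _ => h1 i]
  exact (card_eq_sum_card_fiberwise fun p _ => mem_univ _).symm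

/-- the coloured petals -/
def pet (S : Fin k → Finset X) (Y : Finset X) : Finset (X × Fin k) :=
  univ.filter fun p => p.1 ∈ S p.2 \ Y

theorem mem_pet {S : Fin k → Finset X} {Y : Finset X} {p : X × Fin k} :
    p ∈ pet S Y ↔ p.1 ∈ S p.2 \ Y := by
  unfold pet
  rw [mem_filter]
  exact ⟨fun h => h.2, fun h => ⟨mem_univ _, h⟩⟩

theorem slice_pet (S : Fin k → Finset X) (Y : Finset X) (i : Fin k) :
    slice (pet S Y) i = S i \ Y := by
  ext x
  unfold slice
  rw [mem_filter, mem_pet]
  exact ⟨fun h => h.2, fun h => ⟨mem_univ _, h⟩⟩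

theorem card_pet_le {v : ℕ} {S : Fin k → Finset X} {Y : Finset X} (h : ∀ i, (S i).card = v) :
    (pet S Y).card ≤ k * v := by
  rw [← card_slice]
  calc ∑ i, (slice (pet S Y) i).card ≤ ∑ _i : Fin k, v := by
        apply sum_le_sum
        intro i _
        rw [slice_pet, ← h i]
        exact card_le_card sdiff_subset
    _ = k * v := by rw [sum_const, card_univ, Fintype.card_fin, smul_eq_mul]

theorem exists_mat (hk : 1 ≤ k) {S : Fin k → Finset X} {Y : Finset X}
    (h : ∀ i j, i ≠ j → S i ∩ S j = Y) : ∃ χ₀ : X → Fin k, Mat χ₀ (pet S Y) := by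
  classical
  let z : Fin k := ⟨0, by omega⟩
  refine ⟨fun x => if hx : ∃ i, x ∈ S i \ Y then hx.choose else z, ?_⟩
  intro p hp
  rw [mem_pet] at hp
  have hx : ∃ i, p.1 ∈ S i \ Y := ⟨p.2, hp⟩
  dsimp only
  rw [dif_pos hx]
  by_contra hne
  have h1 := hx.choose_spec
  have h2 : p.1 ∈ S hx.choose ∩ S p.2 := mem_inter.2 ⟨(mem_sdiff.1 h1).1, (mem_sdiff.1 hp).1⟩
  rw [h _ _ hne] at h2
  exact (mem_sdiff.1 hp).2 h2

theorem rainbow_of_mat {F : Finset (Finset X)} {S : Fin k → Finset X} {Y : Finset X}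
    (h1 : Function.Injective S) (h2 : ∀ i, S i ∈ F) (h3 : ∀ i j, i ≠ j → S i ∩ S j = Y)
    {χ : X → Fin k} (hm : Mat χ (pet S Y)) : HasRainbowSunflower F χ := by
  refine ⟨S, h1, h2, ?_⟩
  intro i j hij x hx
  obtain ⟨hx1, hx2⟩ := mem_sdiff.1 hx
  refine mem_filter.2 ⟨mem_univ _, hm (x, i) ?_⟩
  rw [mem_pet, mem_sdiff]
  refine ⟨hx1, fun hY => hx2 ?_⟩
  rw [← h3 i j hij] at hY
  exact (mem_inter.1 hY).2

/-- sunflowers of random subfamilies are spread -/
theorem spread_count {H : Finset (Finset X)} {M : ℕ} {R : ℝ} (hR : 1 ≤ R) (hM : M ≤ H.card)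
    (hH : H.Nonempty)
    (hs : ∀ L : Finset X, ((H.filter fun S => L ⊆ S).card : ℝ) * R ^ L.card ≤ H.card)
    (S : Finset (Finset X) → Fin k → Finset X) (Y : Finset (Finset X) → Finset X)
    (h1 : ∀ A ∈ powersetCard M H, Function.Injective (S A))
    (h2 : ∀ A ∈ powersetCard M H, ∀ i, S A i ∈ A) (T : Finset (X × Fin k)) :
    (((powersetCard M H).filter fun A => T ⊆ pet (S A) (Y A)).card : ℝ) * R ^ T.card ≤
      (powersetCard M H).card * (M : ℝ) ^ k := by
  classical
  have hHpos : (0 : ℝ) < H.card := by exact_mod_cast hH.card_pos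
  -- the possible tuples
  let Φ : Finset (Fin k → Finset X) := (Fintype.piFinset fun i => H.filter fun S => slice T i ⊆ S).filter
    fun φ => Function.Injective φ
  have hcov : (powersetCard M H).filter (fun A => T ⊆ pet (S A) (Y A)) ⊆
      Φ.biUnion fun φ => (powersetCard M H).filter fun A => univ.image φ ⊆ A := by
    intro A hA
    obtain ⟨g1, g2⟩ := mem_filter.1 hA
    rw [mem_biUnion]
    refine ⟨S A, mem_filter.2 ⟨?_, h1 A g1⟩, mem_filter.2 ⟨g1, ?_⟩⟩
    · rw [Fintype.mem_piFinset]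
      intro i
      refine mem_filter.2 ⟨(mem_powersetCard.1 g1).1 (h2 A g1 i), ?_⟩
      intro x hx
      have := g2 (mem_filter.1 hx).2
      rw [mem_pet] at this
      exact (mem_sdiff.1 this).1
    · intro B hB
      obtain ⟨i, _, rfl⟩ := mem_image.1 hB
      exact h2 A g1 i
  have hone : ∀ φ ∈ Φ,
      (((powersetCard M H).filter fun A => univ.image φ ⊆ A).card : ℝ) * (H.card : ℝ) ^ k ≤
        (powersetCard M H).card * (M : ℝ) ^ k := by
    intro φ hφ
    obtain ⟨g1, g2⟩ := mem_filter.1 hφ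
    rw [Fintype.mem_piFinset] at g1
    have hJ : univ.image φ ⊆ H := by
      intro B hB
      obtain ⟨i, _, rfl⟩ := mem_image.1 hB
      exact (mem_filter.1 (g1 i)).1
    have hJc : (univ.image φ).card = k := by
      rw [card_image_of_injective _ g2, card_univ, Fintype.card_fin]
    by_cases hkM : k ≤ M
    · have := card_super H (univ.image φ) hJ M hM (by rw [hJc]; exact hkM)
      rw [hJc] at this
      exact_mod_cast this
    · have : ((powersetCard M H).filter fun A => univ.image φ ⊆ A) = ∅ := by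
        rw [filter_eq_empty_iff]
        intro A hA hJA
        have e1 := card_le_card hJA
        rw [hJc, (mem_powersetCard.1 hA).2] at e1
        exact hkM e1
      rw [this]
      simp only [card_empty, Nat.cast_zero, zero_mul]
      positivity
  have hΦ : (Φ.card : ℝ) * R ^ T.card ≤ (H.card : ℝ) ^ k := by
    have e1 : (Φ.card : ℝ) ≤ ∏ i : Fin k, ((H.filter fun S => slice T i ⊆ S).card : ℝ) := by
      have : Φ.card ≤ ∏ i : Fin k, (H.filter fun S => slice T i ⊆ S).card := by
        rw [← Fintype.card_piFinset]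
        exact card_le_card (filter_subset _ _)
      exact_mod_cast this
    have e2 : R ^ T.card = ∏ i : Fin k, R ^ (slice T i).card := by
      rw [prod_pow_eq_pow_sum, card_slice]
    calc (Φ.card : ℝ) * R ^ T.card ≤ (∏ i : Fin k, ((H.filter fun S => slice T i ⊆ S).card : ℝ)) *
          ∏ i : Fin k, R ^ (slice T i).card := by
          rw [← e2]
          exact mul_le_mul_of_nonneg_right e1 (by positivity)
      _ = ∏ i : Fin k, (((H.filter fun S => slice T i ⊆ S).card : ℝ) * R ^ (slice T i).card) := by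
          rw [prod_mul_distrib]
      _ ≤ ∏ _i : Fin k, (H.card : ℝ) := by
          apply prod_le_prod
          · intro i _
            positivity
          · intro i _
            exact hs _
      _ = _ := by rw [prod_const, card_univ, Fintype.card_fin]
  have hHk : (0 : ℝ) < (H.card : ℝ) ^ k := by positivity
  have hfin : (((powersetCard M H).filter fun A => T ⊆ pet (S A) (Y A)).card : ℝ) *
      (H.card : ℝ) ^ k ≤ Φ.card * ((powersetCard M H).card * (M : ℝ) ^ k) := by
    calc _ ≤ (∑ φ ∈ Φ, (((powersetCard M H).filter fun A => univ.image φ ⊆ A).card : ℝ)) *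
          (H.card : ℝ) ^ k := by
          apply mul_le_mul_of_nonneg_right _ hHk.le
          exact_mod_cast (card_le_card hcov).trans card_biUnion_le
      _ = ∑ φ ∈ Φ, (((powersetCard M H).filter fun A => univ.image φ ⊆ A).card : ℝ) *
          (H.card : ℝ) ^ k := by rw [sum_mul]
      _ ≤ ∑ _φ ∈ Φ, ((powersetCard M H).card : ℝ) * (M : ℝ) ^ k := sum_le_sum hone
      _ = _ := by rw [sum_const, nsmul_eq_mul]
  have hRT : (0 : ℝ) < R ^ T.card := by positivity
  have hlast : (H.card : ℝ) ^ k *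
      ((((powersetCard M H).filter fun A => T ⊆ pet (S A) (Y A)).card : ℝ) * R ^ T.card) ≤
      (H.card : ℝ) ^ k * ((powersetCard M H).card * (M : ℝ) ^ k) := by
    calc _ = ((((powersetCard M H).filter fun A => T ⊆ pet (S A) (Y A)).card : ℝ) *
          (H.card : ℝ) ^ k) * R ^ T.card := by ring
      _ ≤ (Φ.card * ((powersetCard M H).card * (M : ℝ) ^ k)) * R ^ T.card :=
          mul_le_mul_of_nonneg_right hfin hRT.le
      _ = (Φ.card * R ^ T.card) * ((powersetCard M H).card * (M : ℝ) ^ k) := by ring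
      _ ≤ _ := mul_le_mul_of_nonneg_right hΦ (by positivity)
  exact le_of_mul_le_mul_left hlast hHk

end

/-- the base for the error `ε` -/
noncomputable def baseE (k : ℕ) (C₀ ε : ℝ) : ℝ := k * ((4 * C₀) ^ k) ^ (1 / ε)

theorem low_of_SC {k : ℕ} (hk : 2 ≤ k) {C₀ : ℝ} (hC₀ : 1 ≤ C₀) (hSC : SC k C₀) {ε : ℝ}
    (hε : 0 < ε) (hε1 : ε ≤ 1) (w : ℕ) (hw : 1 ≤ w) (X : Type) [Fintype X] [DecidableEq X]
    (F : Finset (Finset X)) (hF : Big w (baseE k C₀ ε) F) :
    1 / (2 * k * (k : ℝ) ^ (ε * w)) ≤ pr k F := by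
  classical
  have hk1 : 1 ≤ k := by omega
  have hkR : (2 : ℝ) ≤ k := by exact_mod_cast hk
  have hk0 : (0 : ℝ) < k := by linarith
  have hkone : (1 : ℝ) ≤ k := by linarith
  obtain ⟨R, hRdef⟩ : ∃ R, R = baseE k C₀ ε := ⟨_, rfl⟩
  rw [← hRdef] at hF
  have h4k : (1 : ℝ) ≤ (4 * C₀) ^ k := one_le_pow₀ (by linarith)
  have hbe : (4 * C₀) ≤ ((4 * C₀) ^ k) ^ (1 / ε) := by
    calc (4 * C₀) = (4 * C₀) ^ 1 := (pow_one _).symm
      _ ≤ (4 * C₀) ^ k := pow_le_pow_right₀ (by linarith) hk1
      _ = ((4 * C₀) ^ k) ^ (1 : ℝ) := (Real.rpow_one _).symm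
      _ ≤ ((4 * C₀) ^ k) ^ (1 / ε) := by
        apply Real.rpow_le_rpow_of_exponent_le h4k
        rw [le_div_iff₀ hε]
        linarith
  have hRk : R = k * ((4 * C₀) ^ k) ^ (1 / ε) := hRdef
  have hR2 : 2 * C₀ ≤ R := by
    rw [hRk]
    nlinarith
  have hR1 : 1 ≤ R := by linarith
  have hRpos : 0 < R := by linarith
  have hkRle : (k : ℝ) ≤ R := by
    rw [hRk]
    nlinarith
  obtain ⟨K, hK, hHu, hHc, hHs⟩ := p_SPR w R X F hw hR1 hF
  refine le_trans ?_ (p_LINKPR k X F K)
  set H := link F K with hH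
  obtain ⟨v, hv⟩ : ∃ v, v = w - K.card := ⟨_, rfl⟩
  rw [← hv] at hHu
  have hv1 : 1 ≤ v := by omega
  have hvw : v ≤ w := by omega
  -- the size of `H`
  have hHbig : R ^ v ≤ (H.card : ℝ) := by
    have h3 : R ^ w ≤ H.card * R ^ K.card := hF.2.trans hHc
    have h4 : R ^ w = R ^ v * R ^ K.card := by
      rw [← pow_add]
      congr 1
      omega
    rw [h4] at h3
    exact le_of_mul_le_mul_right h3 (by positivity)
  have hHne : H.Nonempty := by
    rw [nonempty_iff_ne_empty]
    intro he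
    rw [he] at hHbig
    have : (0 : ℝ) < R ^ v := by positivity
    simp at hHbig
    linarith
  -- the size of the subfamilies
  set M := ⌈C₀ ^ v⌉₊ with hMdef
  have hC₀v : (1 : ℝ) ≤ C₀ ^ v := one_le_pow₀ hC₀
  have hM1 : C₀ ^ v ≤ M := Nat.le_ceil _
  have hM2 : (M : ℝ) ≤ (2 * C₀) ^ v := by
    have h1 : (M : ℝ) < C₀ ^ v + 1 := Nat.ceil_lt_add_one (by positivity)
    have h2 : 2 * C₀ ^ v ≤ (2 * C₀) ^ v := by
      rw [mul_pow]
      apply mul_le_mul_of_nonneg_right _ (by positivity)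
      calc (2 : ℝ) = 2 ^ 1 := (pow_one _).symm
        _ ≤ 2 ^ v := pow_le_pow_right₀ (by norm_num) hv1
    linarith
  have hMH : M ≤ H.card := by
    have : (M : ℝ) ≤ H.card :=
      hM2.trans ((pow_le_pow_left₀ (by positivity) hR2 v).trans hHbig)
    exact_mod_cast this
  set s := powersetCard M H with hs
  have hsne : 0 < s.card := by
    rw [hs, card_powersetCard]
    exact Nat.choose_pos hMH
  have hspos : (0 : ℝ) < s.card := by exact_mod_cast hsne
  -- the sunflowers
  have hex : ∀ A : Finset (Finset X), A ∈ s → ∃ (S : Fin k → Finset X) (Y : Finset X),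
      Function.Injective S ∧ (∀ i, S i ∈ A) ∧ ∀ i j, i ≠ j → S i ∩ S j = Y := by
    intro A hA
    obtain ⟨g1, g2⟩ := mem_powersetCard.1 hA
    exact hSC v hv1 X A ⟨fun S hS => hHu S (g1 hS), by rw [g2]; exact hM1⟩
  choose! S Y hS1 hS2 hS3 using hex
  have hsm := second_moment (k := k) s (fun A => pet (S A) (Y A)) hk1
    (fun A hA => exists_mat hk1 (hS3 A hA)) (fun χ => HasRainbowSunflower H χ)
    (fun A hA χ hχ => rainbow_of_mat (hS1 A hA)
      (fun i => (mem_powersetCard.1 hA).1 (hS2 A hA i)) (hS3 A hA) hχ)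
  -- the threshold
  set t := ⌈ε * v⌉₊ with ht
  have hεv : 0 ≤ ε * v := by positivity
  have ht1 : ε * v ≤ t := Nat.le_ceil _
  have ht2 : (t : ℝ) ≤ ε * v + 1 := (Nat.ceil_lt_add_one hεv).le
  -- the sum over `b`
  have hsum : ∀ a ∈ s, ∑ b ∈ s, (k : ℝ) ^ (pet (S a) (Y a) ∩ pet (S b) (Y b)).card ≤
      s.card * (2 * (k : ℝ) ^ t) := by
    intro a ha
    set U := pet (S a) (Y a) with hU
    have hUc : U.card ≤ k * v :=
      card_pet_le fun i => hHu _ ((mem_powersetCard.1 ha).1 (hS2 a ha i))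
    have hb : ∀ b ∈ s, (k : ℝ) ^ (U ∩ pet (S b) (Y b)).card ≤ (k : ℝ) ^ t +
        ∑ T ∈ U.powerset.filter (fun T => t ≤ T.card),
          if T ⊆ pet (S b) (Y b) then (k : ℝ) ^ T.card else 0 := by
      intro b _
      have hn : ∀ T ∈ U.powerset.filter (fun T => t ≤ T.card),
          0 ≤ (if T ⊆ pet (S b) (Y b) then (k : ℝ) ^ T.card else 0) := by
        intro T _
        split_ifs
        · positivity
        · exact le_rfl
      by_cases hc : t ≤ (U ∩ pet (S b) (Y b)).card
      · have h1 := single_le_sum hn (a := U ∩ pet (S b) (Y b))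
          (mem_filter.2 ⟨mem_powerset.2 inter_subset_left, hc⟩)
        rw [if_pos inter_subset_right] at h1
        have h2 : (0 : ℝ) < (k : ℝ) ^ t := by positivity
        linarith
      · push Not at hc
        have h1 : (k : ℝ) ^ (U ∩ pet (S b) (Y b)).card ≤ (k : ℝ) ^ t :=
          pow_le_pow_right₀ hkone hc.le
        have h2 := sum_nonneg hn
        linarith
    have hT : ∀ T ∈ U.powerset.filter (fun T => t ≤ T.card),
        ∑ b ∈ s, (if T ⊆ pet (S b) (Y b) then (k : ℝ) ^ T.card else 0) ≤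
          s.card * (M : ℝ) ^ k * ((k : ℝ) / R) ^ t := by
      intro T hT
      have htT := (mem_filter.1 hT).2
      have h1 := spread_count hR1 hMH hHne hHs S Y hS1 hS2 T
      rw [← sum_filter, sum_const, nsmul_eq_mul]
      have hRT : (0 : ℝ) < R ^ T.card := by positivity
      have h2 : ((s.filter fun A => T ⊆ pet (S A) (Y A)).card : ℝ) ≤
          s.card * (M : ℝ) ^ k / R ^ T.card := by
        rw [le_div_iff₀ hRT]
        exact h1
      calc ((s.filter fun A => T ⊆ pet (S A) (Y A)).card : ℝ) * (k : ℝ) ^ T.card ≤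
            s.card * (M : ℝ) ^ k / R ^ T.card * (k : ℝ) ^ T.card :=
            mul_le_mul_of_nonneg_right h2 (by positivity)
        _ = s.card * (M : ℝ) ^ k * ((k : ℝ) / R) ^ T.card := by
            rw [div_pow]
            ring
        _ ≤ s.card * (M : ℝ) ^ k * ((k : ℝ) / R) ^ t := by
            apply mul_le_mul_of_nonneg_left _ (by positivity)
            apply pow_le_pow_of_le_one (by positivity) _ htT
            rw [div_le_one hRpos]
            exact hkRle
    have hcount : ((U.powerset.filter fun T => t ≤ T.card).card : ℝ) ≤ 2 ^ (k * v) := by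
      calc ((U.powerset.filter fun T => t ≤ T.card).card : ℝ) ≤ (U.powerset.card : ℝ) := by
            exact_mod_cast card_le_card (filter_subset _ _)
        _ = 2 ^ U.card := by
            rw [card_powerset]
            push_cast
            rfl
        _ ≤ 2 ^ (k * v) := pow_le_pow_right₀ (by norm_num) hUc
    have hsmall : (2 : ℝ) ^ (k * v) * ((M : ℝ) ^ k * ((k : ℝ) / R) ^ t) ≤ 1 := by
      have e1 : (M : ℝ) ^ k ≤ (2 * C₀) ^ (k * v) := by
        calc (M : ℝ) ^ k ≤ ((2 * C₀) ^ v) ^ k := pow_le_pow_left₀ (Nat.cast_nonneg _) hM2 k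
          _ = (2 * C₀) ^ (k * v) := by rw [← pow_mul, mul_comm v k]
      have e2 : ((k : ℝ) / R) ^ t ≤ ((4 * C₀) ^ (k * v))⁻¹ := by
        have e3 : (k : ℝ) / R = (((4 * C₀) ^ k) ^ (1 / ε))⁻¹ := by
          have hB : (0 : ℝ) < ((4 * C₀) ^ k) ^ (1 / ε) := by positivity
          rw [hRk]
          generalize ((4 * C₀) ^ k) ^ (1 / ε) = B at hB
          field_simp
        rw [e3, inv_pow]
        apply inv_anti₀ (by positivity)
        calc (4 * C₀) ^ (k * v) = ((4 * C₀) ^ k) ^ (v : ℝ) := by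
              rw [Real.rpow_natCast, ← pow_mul]
          _ = ((4 * C₀) ^ k) ^ ((1 / ε) * (ε * v)) := by
              congr 1
              field_simp
          _ ≤ ((4 * C₀) ^ k) ^ ((1 / ε) * t) := by
              apply Real.rpow_le_rpow_of_exponent_le h4k
              exact mul_le_mul_of_nonneg_left ht1 (by positivity)
          _ = (((4 * C₀) ^ k) ^ (1 / ε)) ^ t := by
              rw [Real.rpow_mul (by positivity), Real.rpow_natCast]
      calc (2 : ℝ) ^ (k * v) * ((M : ℝ) ^ k * ((k : ℝ) / R) ^ t) ≤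
            2 ^ (k * v) * ((2 * C₀) ^ (k * v) * ((4 * C₀) ^ (k * v))⁻¹) := by
            apply mul_le_mul_of_nonneg_left _ (by positivity)
            exact mul_le_mul e1 e2 (by positivity) (by positivity)
        _ = 1 := by
            rw [← mul_assoc, ← mul_pow, ← mul_assoc]
            rw [show (2 : ℝ) * 2 = 4 by norm_num]
            exact mul_inv_cancel₀ (by positivity)
    calc ∑ b ∈ s, (k : ℝ) ^ (U ∩ pet (S b) (Y b)).card ≤
          ∑ b ∈ s, ((k : ℝ) ^ t + ∑ T ∈ U.powerset.filter (fun T => t ≤ T.card),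
            if T ⊆ pet (S b) (Y b) then (k : ℝ) ^ T.card else 0) := sum_le_sum hb
      _ = s.card * (k : ℝ) ^ t + ∑ T ∈ U.powerset.filter (fun T => t ≤ T.card),
            ∑ b ∈ s, (if T ⊆ pet (S b) (Y b) then (k : ℝ) ^ T.card else 0) := by
          rw [sum_add_distrib, sum_const, nsmul_eq_mul, sum_comm]
      _ ≤ s.card * (k : ℝ) ^ t + ∑ _T ∈ U.powerset.filter (fun T => t ≤ T.card),
            s.card * (M : ℝ) ^ k * ((k : ℝ) / R) ^ t := by
          linarith [sum_le_sum hT]
      _ = s.card * (k : ℝ) ^ t + ((U.powerset.filter fun T => t ≤ T.card).card : ℝ) *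
            (s.card * (M : ℝ) ^ k * ((k : ℝ) / R) ^ t) := by rw [sum_const, nsmul_eq_mul]
      _ ≤ s.card * (k : ℝ) ^ t + 2 ^ (k * v) * (s.card * (M : ℝ) ^ k * ((k : ℝ) / R) ^ t) := by
          have : 0 ≤ s.card * (M : ℝ) ^ k * ((k : ℝ) / R) ^ t := by positivity
          linarith [mul_le_mul_of_nonneg_right hcount this]
      _ = s.card * (k : ℝ) ^ t +
            s.card * (2 ^ (k * v) * ((M : ℝ) ^ k * ((k : ℝ) / R) ^ t)) := by ring
      _ ≤ s.card * (k : ℝ) ^ t + s.card * 1 := by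
          linarith [mul_le_mul_of_nonneg_left hsmall hspos.le]
      _ ≤ s.card * (2 * (k : ℝ) ^ t) := by
          have : (1 : ℝ) ≤ (k : ℝ) ^ t := one_le_pow₀ hkone
          nlinarith
  -- conclusion
  have hkn : (0 : ℝ) < (k : ℝ) ^ Fintype.card X := by positivity
  have hkt : (0 : ℝ) < (k : ℝ) ^ t := by positivity
  have h1 : (s.card : ℝ) ^ 2 * (k : ℝ) ^ Fintype.card X ≤
      ((univ.filter fun χ : X → Fin k => HasRainbowSunflower H χ).card : ℝ) *
        (s.card * (s.card * (2 * (k : ℝ) ^ t))) := by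
    refine hsm.trans (mul_le_mul_of_nonneg_left ?_ (Nat.cast_nonneg _))
    calc _ ≤ ∑ _a ∈ s, s.card * (2 * (k : ℝ) ^ t) := sum_le_sum hsum
      _ = _ := by rw [sum_const, nsmul_eq_mul]
  have h2 : (k : ℝ) ^ Fintype.card X ≤
      ((univ.filter fun χ : X → Fin k => HasRainbowSunflower H χ).card : ℝ) *
        (2 * (k : ℝ) ^ t) := by
    have hs2 : (0 : ℝ) < (s.card : ℝ) ^ 2 := by positivity
    have : (s.card : ℝ) ^ 2 * (k : ℝ) ^ Fintype.card X ≤ (s.card : ℝ) ^ 2 *
        (((univ.filter fun χ : X → Fin k => HasRainbowSunflower H χ).card : ℝ) *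
        (2 * (k : ℝ) ^ t)) := by
      calc _ ≤ _ := h1
        _ = _ := by ring
    exact le_of_mul_le_mul_left this hs2
  have h3 : 1 / (2 * (k : ℝ) ^ t) ≤ pr k H := by
    unfold pr prob
    have hden : (Nat.card (X → Fin k) : ℝ) = (k : ℝ) ^ Fintype.card X := by
      rw [Nat.card_eq_fintype_card, Fintype.card_fun, Fintype.card_fin]
      push_cast
      rfl
    rw [hden, Nat.card_eq_fintype_card, Fintype.card_subtype, div_le_div_iff₀ (by positivity) hkn]
    linarith
  refine le_trans ?_ h3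
  apply one_div_le_one_div_of_le (by positivity)
  have h4 : (k : ℝ) ^ t ≤ k * (k : ℝ) ^ (ε * w) := by
    calc (k : ℝ) ^ t = (k : ℝ) ^ (t : ℝ) := (Real.rpow_natCast _ _).symm
      _ ≤ (k : ℝ) ^ (1 + ε * w) := by
        apply Real.rpow_le_rpow_of_exponent_le hkone
        have : ε * (v : ℝ) ≤ ε * w := mul_le_mul_of_nonneg_left (by exact_mod_cast hvw) hε.le
        linarith
      _ = k * (k : ℝ) ^ (ε * w) := by rw [Real.rpow_add hk0, Real.rpow_one]
  calc 2 * (k : ℝ) ^ t ≤ 2 * (k * (k : ℝ) ^ (ε * w)) := by linarith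
    _ = _ := by ring

end Pool.Agent.ZOL
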