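import Pool.Agent.ZOL.MAIN2
import Pool.Agent.ZOL.LOWQ

/-!
# Sunflowers and rainbow sunflowers: the order of two quantifiers
-/

set_option autoImplicit false

namespace Pool.Agent.ZOL

open Finset

/-- a rainbow sunflower is a sunflower -/
theorem sunflower_of_rainbow {X : Type} [Fintype X] [DecidableEq X] {k : ℕ} (hk : 2 ≤ k)
    {F : Finset (Finset X)} {χ : X → Fin k} (h : HasRainbowSunflower F χ) : HasSunflower k F := by
  obtain ⟨S, h1, h2, h3⟩ := h
  have key : ∀ i j, i ≠ j → ∀ x, x ∈ S i → x ∈ S j → ∀ l, x ∈ S l := by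
    intro i j hij x hi hj l
    by_contra hl
    have hil : i ≠ l := fun e => hl (e ▸ hi)
    have hjl : j ≠ l := fun e => hl (e ▸ hj)
    have e1 := (mem_filter.1 (h3 i l hil (mem_sdiff.2 ⟨hi, hl⟩))).2
    have e2 := (mem_filter.1 (h3 j l hjl (mem_sdiff.2 ⟨hj, hl⟩))).2
    exact hij (e1.symm.trans e2)
  let a : Fin k := ⟨0, by omega⟩
  let b : Fin k := ⟨1, by omega⟩
  have hab : a ≠ b := by
    intro e
    have := congrArg Fin.val e
    simp [a, b] at this
  refine ⟨S, S a ∩ S b, h1, h2, fun i j hij => ?_⟩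
  ext x
  rw [mem_inter, mem_inter]
  exact ⟨fun h => ⟨key i j hij x h.1 h.2 a, key i j hij x h.1 h.2 b⟩,
    fun h => ⟨key a b hab x h.1 h.2 i, key a b hab x h.1 h.2 j⟩⟩

/-- the probability is zero when there is no sunflower -/
theorem pr_eq_zero {X : Type} [Fintype X] [DecidableEq X] {k : ℕ} (hk : 2 ≤ k)
    {F : Finset (Finset X)} (h : ¬ HasSunflower k F) : pr k F = 0 := by
  classical
  have : IsEmpty {χ : X → Fin k // HasRainbowSunflower F χ} :=
    ⟨fun χ => h (sunflower_of_rainbow hk χ.2)⟩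
  unfold pr prob
  rw [Nat.card_of_isEmpty]
  simp

/-- the probability is positive when there is a sunflower -/
theorem pr_pos {X : Type} [Fintype X] [DecidableEq X] {k : ℕ} (hk : 2 ≤ k)
    {F : Finset (Finset X)} (h : HasSunflower k F) : 0 < pr k F := by
  classical
  obtain ⟨S, Y, h1, h2, h3⟩ := h
  obtain ⟨χ, hχ⟩ := exists_mat (by omega) h3
  have hne : Nonempty {χ : X → Fin k // HasRainbowSunflower F χ} :=
    ⟨⟨χ, rainbow_of_mat h1 h2 h3 hχ⟩⟩
  have hne2 : Nonempty (X → Fin k) := ⟨χ⟩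
  unfold pr prob
  have e1 : 0 < Nat.card {χ : X → Fin k // HasRainbowSunflower F χ} := Nat.card_pos
  have e2 : 0 < Nat.card (X → Fin k) := Nat.card_pos
  positivity

theorem SC_mono {k : ℕ} {C C' : ℝ} (h : |C| ≤ C') (hC : SC k C) : SC k C' :=
  fun w hw X _ _ F hF => hC w hw X F (Big_mono h hF)

/-- the sunflower conjecture gives lower bounds for the probability with every exponent -/
theorem lower_of_SC {k : ℕ} (hk : 2 ≤ k) {C₀ : ℝ} (hSC : SC k C₀) {z : ℝ} (hz : 0 < z) :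
    ∃ C : ℝ, 1 ≤ C ∧ ∃ w₀ : ℕ, ∀ w : ℕ, w₀ ≤ w → ∀ (X : Type) [Fintype X] [DecidableEq X]
      (F : Finset (Finset X)), Big w C F → Real.exp (-z * w) < pr k F := by
  have hkR : (2 : ℝ) ≤ k := by exact_mod_cast hk
  have hk0 : (0 : ℝ) < k := by linarith
  have hlog : 0 < Real.log k := Real.log_pos (by linarith)
  obtain ⟨ε, hε⟩ : ∃ ε, ε = min 1 (z / (2 * Real.log k)) := ⟨_, rfl⟩
  have hε0 : 0 < ε := by
    rw [hε]
    exact lt_min one_pos (by positivity)
  have hε1 : ε ≤ 1 := by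
    rw [hε]
    exact min_le_left _ _
  have hε2 : ε * Real.log k ≤ z / 2 := by
    have h1 : ε ≤ z / (2 * Real.log k) := by
      rw [hε]
      exact min_le_right _ _
    calc ε * Real.log k ≤ z / (2 * Real.log k) * Real.log k :=
          mul_le_mul_of_nonneg_right h1 hlog.le
      _ = z / 2 := by field_simp
  have hSC1 : SC k (max |C₀| 1) := SC_mono (le_max_left _ _) hSC
  have h1C : (1 : ℝ) ≤ max |C₀| 1 := le_max_right _ _
  obtain ⟨n, hn⟩ := exists_nat_gt (2 / z * Real.log (2 * k))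
  refine ⟨baseE k (max |C₀| 1) ε, ?_, max n 1, ?_⟩
  · unfold baseE
    have h2 : (1 : ℝ) ≤ ((4 * max |C₀| 1) ^ k) ^ (1 / ε) :=
      Real.one_le_rpow (one_le_pow₀ (by linarith)) (by positivity)
    nlinarith
  intro w hw X _ _ F hF
  have hw1 : 1 ≤ w := (le_max_right _ _).trans hw
  have hwn : (n : ℝ) ≤ w := by exact_mod_cast (le_max_left _ _).trans hw
  refine lt_of_lt_of_le ?_ (low_of_SC hk h1C hSC1 hε0 hε1 w hw1 X F hF)
  rw [lt_div_iff₀ (by positivity)]
  have e1 : (k : ℝ) ^ (ε * w) ≤ Real.exp (z / 2 * w) := by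
    rw [Real.rpow_def_of_pos hk0]
    apply Real.exp_le_exp.2
    calc Real.log k * (ε * w) = (ε * Real.log k) * w := by ring
      _ ≤ z / 2 * w := mul_le_mul_of_nonneg_right hε2 (Nat.cast_nonneg _)
  have e2 : 2 * (k : ℝ) < Real.exp (z / 2 * w) := by
    rw [← Real.log_lt_iff_lt_exp (by positivity)]
    have h3 : 2 / z * Real.log (2 * k) < w := lt_of_lt_of_le hn hwn
    calc Real.log (2 * k) = z / 2 * (2 / z * Real.log (2 * k)) := by field_simp
      _ < z / 2 * w := mul_lt_mul_of_pos_left h3 (by positivity)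
  calc Real.exp (-z * w) * (2 * k * (k : ℝ) ^ (ε * w)) ≤
        Real.exp (-z * w) * (2 * k * Real.exp (z / 2 * w)) := by gcongr
    _ < Real.exp (-z * w) * (Real.exp (z / 2 * w) * Real.exp (z / 2 * w)) := by gcongr
    _ = 1 := by
      rw [← Real.exp_add, ← Real.exp_add, ← Real.exp_zero]
      congr 1
      ring

/-- if the sunflower conjecture fails, there are sunflower-free families with small
intersections for every base and every large uniformity -/
theorem free_of_not_SC {k : ℕ} (hk : 2 ≤ k) {δ C : ℝ} (hδ0 : 0 < δ) (hδ1 : δ < 1) (hC : 1 ≤ C)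
    (h : ¬ SC k (base (δ / 4) C)) :
    ∃ w₀ : ℕ, ∀ w : ℕ, w₀ ≤ w →
      ∃ (X : Type) (_ : Fintype X) (_ : DecidableEq X) (F : Finset (Finset X)),
        Big w C F ∧ (∀ S ∈ F, ∀ S' ∈ F, S ≠ S' → ((S ∩ S').card : ℝ) ≤ δ * w) ∧
        ¬ HasSunflower k F := by
  unfold SC at h
  push Not at h
  obtain ⟨u, hu, X, i1, i2, G, hG, hfree⟩ := h
  have h0 := pr_eq_zero hk hfree
  obtain ⟨z, hz, w₀, h1⟩ := amplify3 hk hδ0 hδ1 hC hu hG (by rw [h0]; norm_num)
  refine ⟨w₀, fun w hw => ?_⟩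
  obtain ⟨Y, j1, j2, F, h2, h3, -, h4⟩ := h1 w hw
  exact ⟨Y, j1, j2, F, h2, h3, fun h5 => (pr_pos hk h5).ne' (h4 h0)⟩

end Pool.Agent.ZOL
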