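import Pool.Agent.ZOL.SHARP

/-!
# The zero-one law: assembly
-/

set_option autoImplicit false

namespace Pool.Agent.ZOL

open Finset

theorem Big_mono {X : Type} {w : ℕ} {C C1 : ℝ} {F : Finset (Finset X)} (h : |C| ≤ C1)
    (hF : Big w C1 F) : Big w C F := by
  refine ⟨hF.1, ?_⟩
  calc C ^ w ≤ |C ^ w| := le_abs_self _
    _ = |C| ^ w := abs_pow _ _
    _ ≤ C1 ^ w := pow_le_pow_left₀ (abs_nonneg _) h w
    _ ≤ _ := hF.2

theorem Low_mono {k w : ℕ} {C C' p : ℝ} (hC : 0 ≤ C) (h : C ≤ C') (hL : Low k C w p) :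
    Low k C' w p := by
  intro X _ _ F hF
  exact hL X F (Big_mono (by rwa [abs_of_nonneg hC]) hF)

/-- amplification: a single bad set system gives exponentially bad ones -/
theorem amplify (hC : T_CODE) {k : ℕ} (hk : 2 ≤ k) {C : ℝ} (h1 : 1 ≤ C)
    (h : ¬ ∀ u, 1 ≤ u → Low k (4 * C ^ 4) u (1 / 16)) :
    ∃ z : ℝ, 0 < z ∧ ∃ w0 : ℕ, ∀ w : ℕ, w0 ≤ w →
      ∃ (X : Type) (_ : Fintype X) (_ : DecidableEq X) (F : Finset (Finset X)),
        Big w C F ∧ pr k F ≤ Real.exp (-z * w) := by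
  push Not at h
  obtain ⟨u, hu, hlow⟩ := h
  unfold Low at hlow
  push Not at hlow
  obtain ⟨X, i1, i2, G, hG, hpr⟩ := hlow
  have huR : (1 : ℝ) ≤ u := by exact_mod_cast hu
  have hupos : (0 : ℝ) < u := by linarith
  have hlog4 : 0 < Real.log 4 := Real.log_pos (by norm_num)
  refine ⟨Real.log 4 / (4 * u), by positivity, 4 * u, ?_⟩
  intro w hw
  have hM : 1 ≤ w / (2 * u) := by
    rw [Nat.le_div_iff_mul_le (by omega)]
    omega
  have hdiv : 2 * u * (w / (2 * u)) ≤ w := Nat.mul_div_le w (2 * u)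
  have hdiv2 : w < 2 * u * (w / (2 * u) + 1) := by
    have := Nat.lt_mul_div_succ w (show 0 < 2 * u by omega)
    simpa using this
  obtain ⟨Y, j1, j2, F, hF, hprF⟩ := hC k u (w / (2 * u)) w C X G hk hu hM hdiv hdiv2.le
    h1 hG hpr
  refine ⟨Y, j1, j2, F, hF, hprF.trans ?_⟩
  set M := w / (2 * u) with hMdef
  have hMR : (w : ℝ) / (4 * u) ≤ M := by
    rw [div_le_iff₀ (by positivity)]
    have h1 : (w : ℝ) ≤ 2 * u * (M + 1) := by exact_mod_cast hdiv2.le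
    have h2 : (1 : ℝ) ≤ M := by exact_mod_cast hM
    nlinarith
  have e1 : ((1 : ℝ) / 4) ^ M = Real.exp (-(M * Real.log 4)) := by
    rw [Real.exp_neg, mul_comm, Real.exp_mul, Real.exp_log (by norm_num), Real.rpow_natCast,
      one_div, inv_pow]
  rw [e1]
  apply Real.exp_le_exp.2
  have := mul_le_mul_of_nonneg_right hMR hlog4.le
  have e2 : -(Real.log 4 / (4 * u)) * (w : ℝ) = -((w : ℝ) / (4 * u) * Real.log 4) := by ring
  rw [e2]
  linarith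

/-- the quantitative zero-one law -/
theorem dichotomy (hL : T_LEVEL) (hR : T_RUSSO) (hT : T_TRACE) (hRich : T_RICH) (hC : T_CODE)
    (k : ℕ) (hk : 2 ≤ k) : ∃ a : ℝ, 0 < a ∧ ∀ C : ℝ, 1 ≤ C →
    (∀ w : ℕ, 1 ≤ w → Low k (80 * C ^ 4) w (1 - (w : ℝ) ^ (-a))) ∨
    (∃ z : ℝ, 0 < z ∧ ∃ w0 : ℕ, ∀ w : ℕ, w0 ≤ w →
      ∃ (X : Type) (_ : Fintype X) (_ : DecidableEq X) (F : Finset (Finset X)),
        Big w C F ∧ pr k F ≤ Real.exp (-z * w)) := by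
  obtain ⟨a, ha, hS⟩ := sharp_explicit hL hR hT hRich k hk
  refine ⟨a, ha, ?_⟩
  intro C h1
  by_cases h : ∀ u, 1 ≤ u → Low k (4 * C ^ 4) u (1 / 16)
  · left
    intro w hw
    have hC4 : (1 : ℝ) ≤ C ^ 4 := one_le_pow₀ h1
    exact Low_mono (by positivity) (by linarith) (hS (4 * C ^ 4) (by linarith) h w hw)
  · exact Or.inr (amplify hC hk h1 h)

theorem p_MAIN (hS : T_SHARP) (hC : T_CODE) : T_MAIN := by
  intro k hk
  by_cases h : ∃ C2 : ℝ, 1 ≤ C2 ∧ ∀ u, 1 ≤ u → Low k C2 u (1 / 16)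
  · obtain ⟨C2, h1, h2⟩ := h
    exact Or.inl (hS k C2 hk h1 h2)
  · right
    intro C
    have h1C1 : 1 ≤ max |C| 1 := le_max_right _ _
    have hC2 : (1 : ℝ) ≤ 4 * (max |C| 1) ^ 4 := by
      have : (1 : ℝ) ≤ (max |C| 1) ^ 4 := one_le_pow₀ h1C1
      linarith
    obtain ⟨z, hz, w0, hw0⟩ := amplify hC hk h1C1 fun hu => h ⟨_, hC2, hu⟩
    refine ⟨z, hz, w0, fun w hw => ?_⟩
    obtain ⟨X, i1, i2, F, hF, hp⟩ := hw0 w hw
    exact ⟨X, i1, i2, F, Big_mono (le_max_left _ _) hF, hp⟩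

end Pool.Agent.ZOL
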