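import Pool.Agent.ZOL.Targets

/-!
# Zero-one law for rainbow sunflowers: rich restrictions
-/

set_option autoImplicit false

namespace Pool.Agent.ZOL

open Finset

section Rich

variable {X : Type} [Fintype X] [DecidableEq X]

/-- the weight of an alive set -/
noncomputable def PT (q : ℝ) (T : Finset X) : ℝ :=
  q ^ T.card * (1 - q) ^ (Fintype.card X - T.card)

omit [DecidableEq X] in
lemma PT_nonneg {q : ℝ} (h0 : 0 ≤ q) (h1 : q ≤ 1) (T : Finset X) : 0 ≤ PT q T :=
  mul_nonneg (pow_nonneg h0 _) (pow_nonneg (by linarith) _)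

omit [DecidableEq X] in
lemma PT_sum (q : ℝ) : ∑ T : Finset X, PT q T = 1 := by
  unfold PT
  have h := Finset.sum_pow_mul_eq_add_pow q (1 - q) (univ : Finset X)
  rw [Finset.powerset_univ, Finset.card_univ] at h
  rw [h]
  simp

/-- the sum over the alive sets `T` with `S ∪ T = Z` -/
lemma PT_fiber (q : ℝ) (S Z : Finset X) (hSZ : S ⊆ Z) :
    q ^ S.card * ∑ T ∈ univ.filter (fun T : Finset X => S ∪ T = Z), PT q T = PT q Z := by
  have hbij : ∑ T ∈ univ.filter (fun T : Finset X => S ∪ T = Z), PT q T =
      ∑ T' ∈ S.powerset, PT q ((Z \ S) ∪ T') := by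
    refine Finset.sum_nbij' (fun T => T ∩ S) (fun T' => (Z \ S) ∪ T') ?_ ?_ ?_ ?_ ?_
    · intro T hT
      simp only [mem_powerset]
      exact inter_subset_right
    · intro T' hT'
      simp only [mem_powerset] at hT'
      simp only [mem_filter, mem_univ, true_and]
      ext x
      simp only [mem_union, mem_sdiff]
      constructor
      · rintro (h | h | h)
        · exact hSZ h
        · exact h.1
        · exact hSZ (hT' h)
      · intro h
        by_cases hx : x ∈ S
        · exact Or.inl hx
        · exact Or.inr (Or.inl ⟨h, hx⟩)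
    · intro T hT
      simp only [mem_filter, mem_univ, true_and] at hT
      ext x
      simp only [mem_union, mem_sdiff, mem_inter]
      rw [← hT]
      simp only [mem_union]
      by_cases hx : x ∈ S <;> simp [hx]
    · intro T' hT'
      simp only [mem_powerset] at hT'
      ext x
      simp only [mem_inter, mem_union, mem_sdiff]
      constructor
      · rintro ⟨h | h, h'⟩
        · exact absurd h' h.2
        · exact h
      · intro h
        exact ⟨Or.inr h, hT' h⟩
    · intro T hT
      simp only [mem_filter, mem_univ, true_and] at hT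
      congr 1
      ext x
      simp only [mem_union, mem_sdiff, mem_inter]
      rw [← hT]
      simp only [mem_union]
      by_cases hx : x ∈ S <;> simp [hx]
  rw [hbij]
  have hterm : ∀ T' ∈ S.powerset, PT q ((Z \ S) ∪ T') =
      (q ^ (Z \ S).card * (1 - q) ^ (Fintype.card X - Z.card)) *
        (q ^ T'.card * (1 - q) ^ (S.card - T'.card)) := by
    intro T' hT'
    rw [mem_powerset] at hT'
    have hdisj : Disjoint (Z \ S) T' :=
      Finset.disjoint_of_subset_right hT' Finset.sdiff_disjoint
    have hc1 : ((Z \ S) ∪ T').card = (Z \ S).card + T'.card := card_union_of_disjoint hdisj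
    have hc2 : (Z \ S).card + S.card = Z.card := by
      rw [Finset.card_sdiff_add_card_eq_card hSZ]
    have hc3 : T'.card ≤ S.card := card_le_card hT'
    have hc4 : Z.card ≤ Fintype.card X := card_le_univ Z
    unfold PT
    rw [hc1]
    have : Fintype.card X - ((Z \ S).card + T'.card) =
        (Fintype.card X - Z.card) + (S.card - T'.card) := by omega
    rw [this, pow_add, pow_add]
    ring
  rw [Finset.sum_congr rfl hterm, ← Finset.mul_sum, Finset.sum_pow_mul_eq_add_pow]
  have hc2 : S.card + (Z \ S).card = Z.card := by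
    have := Finset.card_sdiff_add_card_eq_card hSZ
    omega
  unfold PT
  rw [← hc2, pow_add]
  simp only [add_sub_cancel, one_pow, mul_one]
  ring

/-- the number of members of `F` inside `Z` -/
def inside (F : Finset (Finset X)) (Z : Finset X) : ℕ := (F.filter fun S => S ⊆ Z).card

open Classical in
/-- counting of pairs -/
lemma count_pairs (q B : ℝ) (h0 : 0 < q) (h1 : q ≤ 1) (w : ℕ) (F : Finset (Finset X))
    (hF : ∀ S ∈ F, S.card = w) (hB : 0 ≤ B) :
    q ^ w * ∑ T : Finset X, PT q T *
      ((F.filter fun S => (inside F (S ∪ T) : ℝ) ≤ B).card : ℝ) ≤ B := by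
  set φ : Finset X → ℝ := fun Z => if (inside F Z : ℝ) ≤ B then 1 else 0 with hφ
  have e1 : ∑ T : Finset X, PT q T * ((F.filter fun S => (inside F (S ∪ T) : ℝ) ≤ B).card : ℝ) =
      ∑ S ∈ F, ∑ T : Finset X, PT q T * φ (S ∪ T) := by
    rw [Finset.sum_comm]
    refine Finset.sum_congr rfl fun T _ => ?_
    rw [← Finset.mul_sum]
    congr 1
    rw [Finset.card_filter]
    push_cast
    refine Finset.sum_congr rfl fun S _ => ?_
    simp only [hφ]
  have e2 : ∀ S ∈ F, q ^ w * ∑ T : Finset X, PT q T * φ (S ∪ T) =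
      ∑ Z : Finset X, if S ⊆ Z then PT q Z * φ Z else 0 := by
    intro S hS
    have hfib : ∑ T : Finset X, PT q T * φ (S ∪ T) =
        ∑ Z : Finset X, ∑ T ∈ univ.filter (fun T : Finset X => S ∪ T = Z), PT q T * φ (S ∪ T) := by
      rw [Finset.sum_fiberwise]
    rw [hfib, Finset.mul_sum]
    refine Finset.sum_congr rfl fun Z _ => ?_
    have h2 : ∑ T ∈ univ.filter (fun T : Finset X => S ∪ T = Z), PT q T * φ (S ∪ T) =
        (∑ T ∈ univ.filter (fun T : Finset X => S ∪ T = Z), PT q T) * φ Z := by
      rw [Finset.sum_mul]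
      refine Finset.sum_congr rfl fun T hT => ?_
      rw [(mem_filter.mp hT).2]
    rw [h2]
    split_ifs with hSZ
    · rw [← mul_assoc, ← hF S hS, PT_fiber q S Z hSZ]
    · have : univ.filter (fun T : Finset X => S ∪ T = Z) = ∅ := by
        refine Finset.filter_eq_empty_iff.mpr ?_
        intro T _ h
        exact hSZ (h ▸ subset_union_left)
      rw [this]
      simp
  rw [e1, Finset.mul_sum, Finset.sum_congr rfl e2, Finset.sum_comm]
  calc ∑ Z : Finset X, ∑ S ∈ F, (if S ⊆ Z then PT q Z * φ Z else 0)
      ≤ ∑ Z : Finset X, PT q Z * B := by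
        refine Finset.sum_le_sum fun Z _ => ?_
        rw [← Finset.sum_filter, Finset.sum_const, nsmul_eq_mul]
        have hP := PT_nonneg h0.le h1 Z
        change (inside F Z : ℝ) * (PT q Z * φ Z) ≤ _
        simp only [hφ]
        split_ifs with h
        · rw [mul_one, mul_comm]
          exact mul_le_mul_of_nonneg_left h hP
        · simp only [mul_zero]
          positivity
    _ = B := by rw [← Finset.sum_mul, PT_sum, one_mul]

/-- members containing `K` whose other elements are in `T` -/
def ovr (F : Finset (Finset X)) (K T : Finset X) : Finset (Finset X) :=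
  F.filter fun S => K ⊆ S ∧ S \ K ⊆ T

/-- `T` is rich -/
def IsRich (F : Finset (Finset X)) (w : ℕ) (C2 : ℝ) (T : Finset X) : Prop :=
  ∃ K : Finset X, K.card < w ∧ C2 ^ (w - K.card) ≤ ((ovr F K T).card : ℝ)

omit [Fintype X] in
lemma not_rich {F : Finset (Finset X)} {w : ℕ} {C2 : ℝ} {T : Finset X}
    (hF : ∀ S ∈ F, S.card = w) (hT : ¬ IsRich F w C2 T) (S : Finset X) (hS : S ∈ F) :
    (inside F (S ∪ T) : ℝ) ≤ (1 + C2) ^ w := by
  have h1 : inside F (S ∪ T) ≤ ∑ K ∈ S.powerset, (ovr F K T).card := by
    unfold inside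
    have hsub : (F.filter fun S' => S' ⊆ S ∪ T) ⊆ S.powerset.biUnion fun K => ovr F K T := by
      intro S' hS'
      rw [mem_filter] at hS'
      rw [mem_biUnion]
      refine ⟨S' \ T, ?_, ?_⟩
      · rw [mem_powerset]
        intro x hx
        rw [mem_sdiff] at hx
        rcases mem_union.mp (hS'.2 hx.1) with h | h
        · exact h
        · exact absurd h hx.2
      · unfold ovr
        rw [mem_filter]
        refine ⟨hS'.1, sdiff_subset, ?_⟩
        intro x hx
        simp only [mem_sdiff, not_and, not_not] at hx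
        exact hx.2 hx.1
    exact (card_le_card hsub).trans card_biUnion_le
  have h2 : ∀ K ∈ S.powerset, ((ovr F K T).card : ℝ) ≤ 1 ^ K.card * C2 ^ (S.card - K.card) := by
    intro K hK
    rw [mem_powerset] at hK
    have hKw : K.card ≤ w := (hF S hS) ▸ card_le_card hK
    rw [one_pow, one_mul, hF S hS]
    rcases hKw.lt_or_eq with h | h
    · by_contra hcon
      exact hT ⟨K, h, (not_le.mp hcon).le⟩
    · rw [h, Nat.sub_self, pow_zero]
      have : (ovr F K T).card ≤ 1 := by
        rw [Finset.card_le_one]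
        intro S1 h1 S2 h2
        unfold ovr at h1 h2
        rw [mem_filter] at h1 h2
        have e1 : K = S1 := eq_of_subset_of_card_le h1.2.1 (by rw [hF S1 h1.1, h])
        have e2 : K = S2 := eq_of_subset_of_card_le h2.2.1 (by rw [hF S2 h2.1, h])
        exact e1.symm.trans e2
      exact_mod_cast this
  calc (inside F (S ∪ T) : ℝ) ≤ ∑ K ∈ S.powerset, ((ovr F K T).card : ℝ) := by exact_mod_cast h1
    _ ≤ ∑ K ∈ S.powerset, 1 ^ K.card * C2 ^ (S.card - K.card) := Finset.sum_le_sum h2
    _ = (1 + C2) ^ w := by rw [Finset.sum_pow_mul_eq_add_pow, hF S hS]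

/-- the configuration with alive set `T` and colours `c` -/
def conf {k : ℕ} (T : Finset X) (c : X → Fin k) : X → Bool × Fin k := fun x => (decide (x ∈ T), c x)

/-- configurations are pairs (alive set, colouring) -/
def confEquiv (X : Type) [Fintype X] [DecidableEq X] (k : ℕ) :
    Finset X × (X → Fin k) ≃ (X → Bool × Fin k) where
  toFun p := conf p.1 p.2
  invFun ω := (univ.filter fun x => (ω x).1 = true, fun x => (ω x).2)
  left_inv p := by
    rcases p with ⟨T, c⟩
    simp [conf]
  right_inv ω := by
    funext x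
    ext
    · simp [conf]
    · simp [conf]

lemma wt_conf {k : ℕ} (q : ℝ) (T : Finset X) (c : X → Fin k) :
    wt (mu k q) (conf T c) = PT q T / (k : ℝ) ^ Fintype.card X := by
  unfold wt mu conf PT
  rw [Finset.prod_div_distrib, Finset.prod_const, Finset.card_univ]
  congr 1
  simp only [decide_eq_true_eq]
  rw [Finset.prod_ite, Finset.prod_const, Finset.prod_const]
  have h1 : (univ.filter fun x => x ∈ T) = T := by ext x; simp
  have h2 : (univ.filter fun x => x ∉ T).card = Fintype.card X - T.card := by
    have : (univ.filter fun x => x ∉ T) = Tᶜ := by ext x; simp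
    rw [this, card_compl]
  rw [h1, h2]

lemma Ex_split {k : ℕ} (q : ℝ) (g : (X → Bool × Fin k) → ℝ) :
    Ex (mu k q) g =
      ∑ T : Finset X, PT q T * ((∑ c : X → Fin k, g (conf T c)) / (k : ℝ) ^ Fintype.card X) := by
  unfold Ex
  rw [← (confEquiv X k).sum_comp, Fintype.sum_prod_type]
  refine Finset.sum_congr rfl fun T _ => ?_
  rw [Finset.sum_div, Finset.mul_sum]
  refine Finset.sum_congr rfl fun c _ => ?_
  change wt (mu k q) (conf T c) * g (conf T c) = _
  rw [wt_conf]
  ring

omit [Fintype X] in
lemma suc_nonneg {k : ℕ} (F : Finset (Finset X)) (ω : X → Bool × Fin k) : 0 ≤ suc F ω := by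
  unfold suc
  split_ifs <;> norm_num

/-- a rich alive set has many good colourings -/
lemma rich_low {k : ℕ} {F : Finset (Finset X)} {w : ℕ} {C2 p : ℝ} {T : Finset X}
    (hF : ∀ S ∈ F, S.card = w) (hlow : ∀ u, 1 ≤ u → Low k C2 u p) (hT : IsRich F w C2 T) :
    p ≤ (∑ c : X → Fin k, suc F (conf T c)) / (k : ℝ) ^ Fintype.card X := by
  classical
  obtain ⟨K, hK, hcard⟩ := hT
  set G : Finset (Finset X) := (ovr F K T).image fun S => S \ K with hG
  have hinj : Set.InjOn (fun S : Finset X => S \ K) (ovr F K T) := by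
    intro S1 h1 S2 h2 h12
    have h1' := (mem_filter.mp (Finset.mem_coe.mp h1)).2.1
    have h2' := (mem_filter.mp (Finset.mem_coe.mp h2)).2.1
    have e1 : S1 \ K ∪ K = S1 := sdiff_union_of_subset h1'
    have e2 : S2 \ K ∪ K = S2 := sdiff_union_of_subset h2'
    simp only at h12
    rw [← e1, ← e2, h12]
  have hbig : Big (w - K.card) C2 G := by
    refine ⟨?_, ?_⟩
    · intro S' hS'
      obtain ⟨S, hS, rfl⟩ := mem_image.mp hS'
      obtain ⟨hS1, hS2, -⟩ := mem_filter.mp hS
      rw [card_sdiff_of_subset hS2, hF S hS1]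
    · rw [hG, card_image_of_injOn hinj]
      exact hcard
  have h := hlow (w - K.card) (by omega) X G hbig
  refine h.trans ?_
  unfold pr prob
  have hden : (Nat.card (X → Fin k) : ℝ) = (k : ℝ) ^ Fintype.card X := by
    rw [Nat.card_eq_fintype_card, Fintype.card_fun, Fintype.card_fin]
    push_cast
    rfl
  rw [hden]
  refine div_le_div_of_nonneg_right ?_ (by positivity)
  have hnum : (Nat.card {χ : X → Fin k // HasRainbowSunflower G χ} : ℝ) =
      ∑ c : X → Fin k, if HasRainbowSunflower G c then (1 : ℝ) else 0 := by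
    rw [Nat.card_eq_fintype_card, Fintype.card_subtype, Finset.card_filter]
    push_cast
    rfl
  rw [hnum]
  refine Finset.sum_le_sum fun c _ => ?_
  split_ifs with hc
  · have hs : Succ F (conf T c) := by
      obtain ⟨S, hSinj, hSG, hSub⟩ := hc
      have hSK : ∀ i, S i ∪ K ∈ F ∧ S i ⊆ T ∧ Disjoint (S i) K := by
        intro i
        obtain ⟨S', hS', hS''⟩ := mem_image.mp (hSG i)
        obtain ⟨h1, h2, h3⟩ := mem_filter.mp hS'
        rw [← hS'']
        refine ⟨?_, h3, sdiff_disjoint⟩
        rw [sdiff_union_of_subset h2]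
        exact h1
      refine ⟨fun i => S i ∪ K, ?_, fun i => (hSK i).1, ?_⟩
      · intro i j hij
        apply hSinj
        have hi : (S i ∪ K) \ K = S i := by
          rw [union_sdiff_right]
          exact sdiff_eq_self_of_disjoint (hSK i).2.2
        have hj : (S j ∪ K) \ K = S j := by
          rw [union_sdiff_right]
          exact sdiff_eq_self_of_disjoint (hSK j).2.2
        simp only at hij
        rw [← hi, ← hj, hij]
      · intro i j hij x hx
        simp only [mem_sdiff, mem_union, not_or] at hx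
        obtain ⟨hx1, hx2, hx3⟩ := hx
        have hxi : x ∈ S i := by
          rcases hx1 with h | h
          · exact h
          · exact absurd h hx3
        have hp := hSub i j hij (mem_sdiff.mpr ⟨hxi, hx2⟩)
        have hp' : c x = i := (mem_filter.mp hp).2
        have hxT : x ∈ T := (hSK i).2.1 hxi
        simp [conf, hxT, hp']
    unfold suc
    rw [if_pos hs]
  · exact suc_nonneg F _

end Rich

/-- STEP 2: rich restrictions -/
theorem p_RICH : T_RICH := by
  intro k C2 C q w X _ _ F hk hC2 hlow hq0 hq1 hC hw hbig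
  classical
  obtain ⟨hF, hcard⟩ := hbig
  have hC2' : 0 ≤ 1 + C2 := by linarith
  have hCpos : 0 < C := by
    by_contra hcon
    have : q * C ≤ 0 := mul_nonpos_of_nonneg_of_nonpos hq0.le (not_lt.mp hcon)
    linarith
  -- the weight of the alive sets that are not rich
  have hcount := count_pairs q ((1 + C2) ^ w) hq0 hq1 w F hF (by positivity)
  have hFpos : (0 : ℝ) < F.card := lt_of_lt_of_le (by positivity) hcard
  set N : ℝ := ∑ T ∈ (univ : Finset (Finset X)).filter (fun T => ¬ IsRich F w C2 T), PT q T with hN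
  have hNle : N * F.card ≤ ∑ T : Finset X, PT q T *
      ((F.filter fun S => (inside F (S ∪ T) : ℝ) ≤ (1 + C2) ^ w).card : ℝ) := by
    rw [hN, Finset.sum_mul]
    refine (Finset.sum_le_sum (g := fun T => PT q T *
      ((F.filter fun S => (inside F (S ∪ T) : ℝ) ≤ (1 + C2) ^ w).card : ℝ)) ?_).trans
      (Finset.sum_le_sum_of_subset_of_nonneg (filter_subset _ _) ?_)
    · intro T hT
      have hT' := (mem_filter.mp hT).2
      have : (F.filter fun S => (inside F (S ∪ T) : ℝ) ≤ (1 + C2) ^ w) = F := by
        rw [Finset.filter_eq_self]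
        intro S hS
        exact not_rich hF hT' S hS
      simp only [this]
      exact le_refl _
    · intro T _ _
      exact mul_nonneg (PT_nonneg hq0.le hq1 T) (Nat.cast_nonneg _)
  have hNhalf : N ≤ 1 / 2 := by
    have h1 : q ^ w * (N * F.card) ≤ (1 + C2) ^ w :=
      (mul_le_mul_of_nonneg_left hNle (by positivity)).trans hcount
    have hN0 : 0 ≤ N := Finset.sum_nonneg fun T _ => PT_nonneg hq0.le hq1 T
    have h2 : N * (q * C) ^ w ≤ (1 + C2) ^ w := by
      calc N * (q * C) ^ w = q ^ w * (N * C ^ w) := by rw [mul_pow]; ring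
        _ ≤ q ^ w * (N * F.card) := by
          refine mul_le_mul_of_nonneg_left ?_ (by positivity)
          exact mul_le_mul_of_nonneg_left hcard hN0
        _ ≤ _ := h1
    have h3 : 2 ^ w * (1 + C2) ^ w ≤ (q * C) ^ w := by
      rw [← mul_pow]
      exact pow_le_pow_left₀ (by positivity) hC w
    have h4 : (2 : ℝ) ≤ 2 ^ w := by
      calc (2 : ℝ) = 2 ^ 1 := by norm_num
        _ ≤ 2 ^ w := pow_le_pow_right₀ (by norm_num) hw
    have h5 : 0 < (1 + C2) ^ w := by positivity
    have h6 : N * (2 ^ w * (1 + C2) ^ w) ≤ (1 + C2) ^ w :=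
      (mul_le_mul_of_nonneg_left h3 hN0).trans h2
    have h7 : N * 2 ^ w ≤ 1 := by
      by_contra hcon
      push Not at hcon
      have : 1 * (1 + C2) ^ w < (N * 2 ^ w) * (1 + C2) ^ w := mul_lt_mul_of_pos_right hcon h5
      nlinarith
    have h8 : N * 2 ≤ 1 := (mul_le_mul_of_nonneg_left h4 hN0).trans h7
    linarith
  -- the rich alive sets
  have hsum : N + ∑ T ∈ (univ : Finset (Finset X)).filter (fun T => IsRich F w C2 T), PT q T = 1 := by
    rw [hN, add_comm, Finset.sum_filter_add_sum_filter_not, PT_sum]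
  rw [Ex_split]
  calc (1 : ℝ) / 32 = (1 / 2) * (1 / 16) := by norm_num
    _ ≤ (∑ T ∈ (univ : Finset (Finset X)).filter (fun T => IsRich F w C2 T), PT q T) * (1 / 16) := by
      refine mul_le_mul_of_nonneg_right ?_ (by norm_num)
      linarith
    _ = ∑ T ∈ (univ : Finset (Finset X)).filter (fun T => IsRich F w C2 T), PT q T * (1 / 16) := by
      rw [Finset.sum_mul]
    _ ≤ ∑ T ∈ (univ : Finset (Finset X)).filter (fun T => IsRich F w C2 T), PT q T *
        ((∑ c : X → Fin k, suc F (conf T c)) / (k : ℝ) ^ Fintype.card X) := by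
      refine Finset.sum_le_sum fun T hT => ?_
      exact mul_le_mul_of_nonneg_left (rich_low hF hlow (mem_filter.mp hT).2)
        (PT_nonneg hq0.le hq1 T)
    _ ≤ _ := by
      refine Finset.sum_le_sum_of_subset_of_nonneg (filter_subset _ _) ?_
      intro T _ _
      refine mul_nonneg (PT_nonneg hq0.le hq1 T) (div_nonneg ?_ (by positivity))
      exact Finset.sum_nonneg fun c _ => suc_nonneg F _

end Pool.Agent.ZOL
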