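import Pool.Agent.ZOL.RICH
import Pool.Agent.ZOL.Targets2

/-!
# Zero-one law for rainbow sunflowers: several independent rounds
-/

set_option autoImplicit false

namespace Pool.Agent.ZOL

open Finset

section

variable {X : Type} [DecidableEq X]

/-- `T` is rich with a large uniformity -/
def Rich2 (F : Finset (Finset X)) (w v₀ : ℕ) (C : ℝ) (T : Finset X) : Prop :=
  ∃ K : Finset X, K.card + v₀ ≤ w ∧ C ^ (w - K.card) ≤ ((ovr F K T).card : ℝ)

lemma not_rich2 {F : Finset (Finset X)} {w v₀ : ℕ} {C M : ℝ} {T : Finset X} (hC : 0 ≤ C)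
    (hF : ∀ S ∈ F, S.card = w)
    (hM : ∀ S ∈ F, ((F.filter fun S' => (S' \ S).card < v₀).card : ℝ) ≤ M)
    (hT : ¬ Rich2 F w v₀ C T) (S : Finset X) (hS : S ∈ F) :
    (inside F (S ∪ T) : ℝ) ≤ (1 + C) ^ w + M := by
  classical
  have h1 : inside F (S ∪ T) ≤
      ∑ K ∈ S.powerset.filter (fun K => K.card + v₀ ≤ w), (ovr F K T).card +
        (F.filter fun S' => (S' \ S).card < v₀).card := by
    unfold inside
    have hsub : (F.filter fun S' => S' ⊆ S ∪ T) ⊆
        (S.powerset.filter (fun K => K.card + v₀ ≤ w)).biUnion (fun K => ovr F K T) ∪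
          (F.filter fun S' => (S' \ S).card < v₀) := by
      intro S' hS'
      rw [mem_filter] at hS'
      have hcov : S' \ T ⊆ S := by
        intro x hx
        rw [mem_sdiff] at hx
        rcases mem_union.mp (hS'.2 hx.1) with h | h
        · exact h
        · exact absurd h hx.2
      have hcard : (S' \ T).card + (S' ∩ T).card = w := by
        rw [card_sdiff_add_card_inter, hF S' hS'.1]
      rw [mem_union]
      by_cases hv : v₀ ≤ (S' ∩ T).card
      · left
        rw [mem_biUnion]
        refine ⟨S' \ T, mem_filter.2 ⟨mem_powerset.2 hcov, by omega⟩, ?_⟩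
        unfold ovr
        rw [mem_filter]
        refine ⟨hS'.1, sdiff_subset, ?_⟩
        intro x hx
        simp only [mem_sdiff, not_and, not_not] at hx
        exact hx.2 hx.1
      · right
        push Not at hv
        rw [mem_filter]
        refine ⟨hS'.1, lt_of_le_of_lt (card_le_card ?_) hv⟩
        intro x hx
        rw [mem_sdiff] at hx
        rw [mem_inter]
        refine ⟨hx.1, ?_⟩
        rcases mem_union.mp (hS'.2 hx.1) with h | h
        · exact absurd h hx.2
        · exact h
    refine (card_le_card hsub).trans ((card_union_le _ _).trans ?_)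
    exact Nat.add_le_add_right card_biUnion_le _
  have h2 : ∀ K ∈ S.powerset.filter (fun K => K.card + v₀ ≤ w),
      ((ovr F K T).card : ℝ) ≤ 1 ^ K.card * C ^ (S.card - K.card) := by
    intro K hK
    obtain ⟨hK1, hK2⟩ := mem_filter.1 hK
    rw [one_pow, one_mul, hF S hS]
    by_contra hcon
    exact hT ⟨K, hK2, (not_le.mp hcon).le⟩
  have h3 : ∑ K ∈ S.powerset.filter (fun K => K.card + v₀ ≤ w), ((ovr F K T).card : ℝ) ≤
      (1 + C) ^ w := by
    calc _ ≤ ∑ K ∈ S.powerset.filter (fun K => K.card + v₀ ≤ w),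
          1 ^ K.card * C ^ (S.card - K.card) := sum_le_sum h2
      _ ≤ ∑ K ∈ S.powerset, 1 ^ K.card * C ^ (S.card - K.card) := by
        apply sum_le_sum_of_subset_of_nonneg (filter_subset _ _)
        intro K _ _
        positivity
      _ = (1 + C) ^ w := by rw [Finset.sum_pow_mul_eq_add_pow, hF S hS]
  have h4 : (inside F (S ∪ T) : ℝ) ≤
      ∑ K ∈ S.powerset.filter (fun K => K.card + v₀ ≤ w), ((ovr F K T).card : ℝ) +
        ((F.filter fun S' => (S' \ S).card < v₀).card : ℝ) := by exact_mod_cast h1
  linarith [hM S hS]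

end

section

variable {X : Type} [Fintype X] [DecidableEq X]

open Classical in
/-- most alive sets are rich -/
lemma weight_not_rich2 {F : Finset (Finset X)} {w v₀ : ℕ} {C M q : ℝ} (hC : 0 ≤ C) (hM0 : 0 ≤ M)
    (hq0 : 0 < q) (hq1 : q ≤ 1) (hF : ∀ S ∈ F, S.card = w) (hne : F.Nonempty)
    (hM : ∀ S ∈ F, ((F.filter fun S' => (S' \ S).card < v₀).card : ℝ) ≤ M) :
    ∑ T : Finset X, PT q T * (if Rich2 F w v₀ C T then 0 else 1) ≤
      (1 / q) ^ w * ((1 + C) ^ w + M) / F.card := by
  have hB : 0 ≤ (1 + C) ^ w + M := by positivity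
  have hcount := count_pairs q ((1 + C) ^ w + M) hq0 hq1 w F hF hB
  have hFpos : (0 : ℝ) < F.card := by exact_mod_cast hne.card_pos
  set N : ℝ := ∑ T : Finset X, PT q T * (if Rich2 F w v₀ C T then 0 else 1) with hN
  have hNle : N * F.card ≤ ∑ T : Finset X, PT q T *
      ((F.filter fun S => (inside F (S ∪ T) : ℝ) ≤ (1 + C) ^ w + M).card : ℝ) := by
    rw [hN, Finset.sum_mul]
    apply sum_le_sum
    intro T _
    have hPT := PT_nonneg hq0.le hq1 T
    split_ifs with hT
    · rw [mul_zero, zero_mul]
      exact mul_nonneg hPT (Nat.cast_nonneg _)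
    · have : (F.filter fun S => (inside F (S ∪ T) : ℝ) ≤ (1 + C) ^ w + M) = F := by
        rw [Finset.filter_eq_self]
        intro S hS
        exact not_rich2 hC hF hM hT S hS
      rw [this, mul_one]
  have h1 : q ^ w * (N * F.card) ≤ (1 + C) ^ w + M :=
    (mul_le_mul_of_nonneg_left hNle (by positivity)).trans hcount
  rw [le_div_iff₀ hFpos]
  have hqw : 0 < q ^ w := by positivity
  have h2 : (1 / q) ^ w * q ^ w = 1 := by
    rw [← mul_pow, one_div, inv_mul_cancel₀ hq0.ne', one_pow]
  calc N * F.card = (1 / q) ^ w * (q ^ w * (N * F.card)) := by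
        rw [← mul_assoc, h2, one_mul]
    _ ≤ (1 / q) ^ w * ((1 + C) ^ w + M) := mul_le_mul_of_nonneg_left h1 (by positivity)

/-- the law of a class of a random partition -/
lemma law_class {r : ℕ} (hr : 1 ≤ r) (j : Fin r) (φ : Finset X → ℝ) :
    ∑ τ : X → Fin r, φ (univ.filter fun x => τ x = j) =
      (r : ℝ) ^ Fintype.card X * ∑ T : Finset X, PT (1 / (r : ℝ)) T * φ T := by
  have hr0 : (r : ℝ) ≠ 0 := by
    have : r ≠ 0 := by omega
    exact_mod_cast this
  have h1 : ∑ τ : X → Fin r, φ (univ.filter fun x => τ x = j) =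
      ∑ T : Finset X, ∑ τ ∈ univ.filter (fun τ : X → Fin r => (univ.filter fun x => τ x = j) = T),
        φ (univ.filter fun x => τ x = j) := by
    rw [Finset.sum_fiberwise]
  rw [h1, mul_sum]
  apply sum_congr rfl
  intro T _
  have h2 : ∑ τ ∈ univ.filter (fun τ : X → Fin r => (univ.filter fun x => τ x = j) = T),
      φ (univ.filter fun x => τ x = j) =
      ((univ.filter (fun τ : X → Fin r => (univ.filter fun x => τ x = j) = T)).card : ℝ) * φ T := by
    rw [← nsmul_eq_mul, ← sum_const]
    apply sum_congr rfl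
    intro τ hτ
    rw [(mem_filter.1 hτ).2]
  have h3 : (univ.filter (fun τ : X → Fin r => (univ.filter fun x => τ x = j) = T)) =
      Fintype.piFinset fun x => if x ∈ T then {j} else univ.erase j := by
    ext τ
    rw [mem_filter, Fintype.mem_piFinset]
    constructor
    · rintro ⟨_, h⟩ x
      split_ifs with hx
      · rw [← h, mem_filter] at hx
        exact mem_singleton.2 hx.2
      · rw [mem_erase]
        refine ⟨fun hcon => hx ?_, mem_univ _⟩
        rw [← h, mem_filter]
        exact ⟨mem_univ _, hcon⟩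
    · intro h
      refine ⟨mem_univ _, ?_⟩
      ext x
      have := h x
      rw [mem_filter]
      constructor
      · rintro ⟨_, hx⟩
        by_contra hcon
        rw [if_neg hcon, mem_erase] at this
        exact this.1 hx
      · intro hx
        rw [if_pos hx, mem_singleton] at this
        exact ⟨mem_univ _, this⟩
  have h4 : ((univ.filter (fun τ : X → Fin r => (univ.filter fun x => τ x = j) = T)).card : ℝ) =
      ((r : ℝ) - 1) ^ (Fintype.card X - T.card) := by
    rw [h3, Fintype.card_piFinset]
    have e1 : ∀ x, (if x ∈ T then ({j} : Finset (Fin r)) else univ.erase j).card =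
        if x ∈ T then 1 else r - 1 := by
      intro x
      split_ifs
      · rfl
      · rw [card_erase_of_mem (mem_univ _), card_univ, Fintype.card_fin]
    rw [prod_congr rfl fun x _ => e1 x, prod_ite, prod_const_one, one_mul, prod_const]
    have e2 : (univ.filter fun x => x ∉ T).card = Fintype.card X - T.card := by
      have : (univ.filter fun x => x ∉ T) = Tᶜ := by ext x; simp
      rw [this, card_compl]
    rw [e2]
    push_cast [Nat.cast_sub hr]
    rfl
  rw [h2, h4]
  unfold PT
  have hT : T.card ≤ Fintype.card X := card_le_univ T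
  have e3 : (r : ℝ) ^ Fintype.card X = (r : ℝ) ^ T.card * (r : ℝ) ^ (Fintype.card X - T.card) := by
    rw [← pow_add]
    congr 1
    omega
  rw [e3]
  have e4 : (r : ℝ) ^ T.card * (1 / (r : ℝ)) ^ T.card = 1 := by
    rw [← mul_pow, mul_one_div, div_self hr0, one_pow]
  have e5 : (r : ℝ) ^ (Fintype.card X - T.card) * (1 - 1 / (r : ℝ)) ^ (Fintype.card X - T.card) =
      ((r : ℝ) - 1) ^ (Fintype.card X - T.card) := by
    rw [← mul_pow]
    congr 1
    field_simp
  calc ((r : ℝ) - 1) ^ (Fintype.card X - T.card) * φ T =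
        ((r : ℝ) ^ T.card * (1 / (r : ℝ)) ^ T.card) *
          ((r : ℝ) ^ (Fintype.card X - T.card) *
            (1 - 1 / (r : ℝ)) ^ (Fintype.card X - T.card)) * φ T := by rw [e4, e5, one_mul]
    _ = _ := by ring

open Classical in
lemma one_sub_pr {k : ℕ} (hk : 1 ≤ k) (F : Finset (Finset X)) :
    1 - pr k F = (∑ χ : X → Fin k, if HasRainbowSunflower F χ then (0 : ℝ) else 1) /
      (k : ℝ) ^ Fintype.card X := by
  have hkp : (0 : ℝ) < (k : ℝ) ^ Fintype.card X := by
    have : (0 : ℝ) < k := by exact_mod_cast (show 0 < k by omega)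
    positivity
  have hden : (Nat.card (X → Fin k) : ℝ) = (k : ℝ) ^ Fintype.card X := by
    rw [Nat.card_eq_fintype_card, Fintype.card_fun, Fintype.card_fin]
    push_cast
    rfl
  have hnum : (Nat.card {χ : X → Fin k // HasRainbowSunflower F χ} : ℝ) =
      ∑ c : X → Fin k, if HasRainbowSunflower F c then (1 : ℝ) else 0 := by
    rw [Nat.card_eq_fintype_card, Fintype.card_subtype, Finset.card_filter]
    push_cast
    rfl
  have htot : ∑ χ : X → Fin k, (1 : ℝ) = (k : ℝ) ^ Fintype.card X := by
    rw [sum_const, card_univ, Fintype.card_fun, Fintype.card_fin, nsmul_eq_mul, mul_one]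
    push_cast
    rfl
  unfold pr prob
  rw [hden, hnum, eq_div_iff hkp.ne', sub_mul, div_mul_cancel₀ _ hkp.ne', one_mul, ← htot,
    ← sum_sub_distrib]
  apply sum_congr rfl
  intro χ _
  split_ifs <;> norm_num

open Classical in
/-- a fixed partition into alive sets -/
lemma fail_le (hI : T_INDEP) {k r w v₀ : ℕ} {C η : ℝ} {F : Finset (Finset X)} (hk : 1 ≤ k)
    (hη : 0 ≤ η) (hv₀ : 1 ≤ v₀) (hlow : ∀ v, v₀ ≤ v → Low k C v (1 - η))
    (hF : ∀ S ∈ F, S.card = w) (τ : X → Fin r) :
    1 - pr k F ≤
      ∑ j : Fin r, (if Rich2 F w v₀ C (univ.filter fun x => τ x = j) then (0 : ℝ) else 1) +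
        η ^ r := by
  have hkp : (0 : ℝ) < (k : ℝ) ^ Fintype.card X := by
    have : (0 : ℝ) < k := by exact_mod_cast (show 0 < k by omega)
    positivity
  have hηr : 0 ≤ η ^ r := pow_nonneg hη r
  by_cases hall : ∀ j : Fin r, Rich2 F w v₀ C (univ.filter fun x => τ x = j)
  · -- all classes are rich
    have hs : ∑ j : Fin r, (if Rich2 F w v₀ C (univ.filter fun x => τ x = j) then (0 : ℝ) else 1)
        = 0 := sum_eq_zero fun j _ => if_pos (hall j)
    rw [hs, zero_add]
    choose K hK1 hK2 using hall
    let G : Fin r → Finset (Finset X) := fun j =>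
      (ovr F (K j) (univ.filter fun x => τ x = j)).image fun S => S \ K j
    have hGmem : ∀ j, ∀ S ∈ G j, S ∪ K j ∈ F ∧ (∀ x ∈ S, τ x = j) ∧ Disjoint S (K j) := by
      intro j S hS
      obtain ⟨S', hS', rfl⟩ := mem_image.mp hS
      obtain ⟨h1, h2, h3⟩ := mem_filter.mp hS'
      refine ⟨?_, fun x hx => (mem_filter.1 (h3 hx)).2, sdiff_disjoint⟩
      rw [sdiff_union_of_subset h2]
      exact h1
    have hbig : ∀ j, Big (w - (K j).card) C (G j) := by
      intro j
      have hinj : Set.InjOn (fun S : Finset X => S \ K j)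
          (ovr F (K j) (univ.filter fun x => τ x = j)) := by
        intro S1 h1 S2 h2 h12
        have h1' := (mem_filter.mp (Finset.mem_coe.mp h1)).2.1
        have h2' := (mem_filter.mp (Finset.mem_coe.mp h2)).2.1
        simp only at h12
        rw [← sdiff_union_of_subset h1', ← sdiff_union_of_subset h2', h12]
      refine ⟨?_, ?_⟩
      · intro S hS
        obtain ⟨S', hS', rfl⟩ := mem_image.mp hS
        obtain ⟨hS1, hS2, -⟩ := mem_filter.mp hS'
        rw [card_sdiff_of_subset hS2, hF S' hS1]
      · change C ^ (w - (K j).card) ≤ ((image (fun S => S \ K j) _).card : ℝ)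
        rw [card_image_of_injOn hinj]
        exact hK2 j
    have hpr : ∀ j, 1 - pr k (G j) ≤ η := by
      intro j
      have := hlow (w - (K j).card) (by have := hK1 j; omega) X (G j) (hbig j)
      linarith
    let g : Fin r → (X → Fin k) → ℝ := fun j χ =>
      if HasRainbowSunflower (G j) χ then (0 : ℝ) else 1
    have hg : ∀ j χ χ', (∀ x, τ x = j → χ x = χ' x) → g j χ = g j χ' := by
      have key : ∀ (j : Fin r) (χ χ' : X → Fin k), (∀ x, τ x = j → χ x = χ' x) →
          HasRainbowSunflower (G j) χ → HasRainbowSunflower (G j) χ' := by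
        rintro j χ χ' h ⟨S, h1, h2, h3⟩
        refine ⟨S, h1, h2, ?_⟩
        intro i l hil x hx
        have h4 := (mem_filter.1 (h3 i l hil hx)).2
        have h5 := (hGmem j _ (h2 i)).2.1 x (mem_sdiff.1 hx).1
        exact mem_filter.2 ⟨mem_univ _, by rw [← h x h5, h4]⟩
      intro j χ χ' h
      have : HasRainbowSunflower (G j) χ ↔ HasRainbowSunflower (G j) χ' :=
        ⟨key j χ χ' h, key j χ' χ fun x hx => (h x hx).symm⟩
      simp only [g, this]
    have hind := hI X k r τ g hk hg
    have hle : ∀ χ : X → Fin k, (if HasRainbowSunflower F χ then (0 : ℝ) else 1) ≤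
        ∏ j, g j χ := by
      intro χ
      split_ifs with hχ
      · exact prod_nonneg fun j _ => by
          simp only [g]
          split_ifs <;> norm_num
      · have : ∀ j, g j χ = 1 := by
          intro j
          simp only [g]
          rw [if_neg]
          rintro ⟨S, h1, h2, h3⟩
          apply hχ
          refine ⟨fun i => S i ∪ K j, ?_, fun i => (hGmem j _ (h2 i)).1, ?_⟩
          · intro i l hil
            apply h1
            dsimp only at hil
            have e : ∀ i, (S i ∪ K j) \ K j = S i := fun i => by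
              rw [union_sdiff_right]
              exact sdiff_eq_self_of_disjoint (hGmem j _ (h2 i)).2.2
            rw [← e i, ← e l, hil]
          · intro i l hil x hx
            simp only [mem_sdiff, mem_union, not_or] at hx
            obtain ⟨hx1, hx2, hx3⟩ := hx
            exact h3 i l hil (mem_sdiff.2 ⟨hx1.resolve_right hx3, hx2⟩)
        rw [prod_congr rfl fun j _ => this j, prod_const_one]
    rw [one_sub_pr hk]
    calc (∑ χ : X → Fin k, if HasRainbowSunflower F χ then (0 : ℝ) else 1) /
          (k : ℝ) ^ Fintype.card X ≤ (∑ χ : X → Fin k, ∏ j, g j χ) / (k : ℝ) ^ Fintype.card X :=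
          div_le_div_of_nonneg_right (sum_le_sum fun χ _ => hle χ) hkp.le
      _ = ∏ j, ((∑ χ : X → Fin k, g j χ) / (k : ℝ) ^ Fintype.card X) := hind
      _ = ∏ j, (1 - pr k (G j)) := by
          apply prod_congr rfl
          intro j _
          rw [one_sub_pr hk]
      _ ≤ ∏ _j : Fin r, η := by
          apply prod_le_prod
          · intro j _
            rw [one_sub_pr hk]
            apply div_nonneg _ hkp.le
            exact sum_nonneg fun χ _ => by split_ifs <;> norm_num
          · intro j _
            exact hpr j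
      _ = η ^ r := by rw [prod_const, card_univ, Fintype.card_fin]
  · push Not at hall
    obtain ⟨j, hj⟩ := hall
    have h1 : (1 : ℝ) ≤
        ∑ j : Fin r, (if Rich2 F w v₀ C (univ.filter fun x => τ x = j) then (0 : ℝ) else 1) := by
      have := single_le_sum (s := (univ : Finset (Fin r)))
        (f := fun j => if Rich2 F w v₀ C (univ.filter fun x => τ x = j) then (0 : ℝ) else 1)
        (fun j _ => by split_ifs <;> norm_num) (mem_univ j)
      simp only [if_neg hj] at this
      exact this
    have h2 : 0 ≤ pr k F := by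
      unfold pr prob
      exact div_nonneg (Nat.cast_nonneg _) (Nat.cast_nonneg _)
    linarith

end

theorem p_ROUNDS (hI : T_INDEP) : T_ROUNDS := by
  classical
  intro k r w v₀ C M η X _ _ F hk hr hw hv₀ hC hM0 hη hlow hF hne hM
  have hk1 : 1 ≤ k := by omega
  have hrR : (1 : ℝ) ≤ r := by exact_mod_cast hr
  have hr0 : (0 : ℝ) < r := by linarith
  have hrn : (0 : ℝ) < (r : ℝ) ^ Fintype.card X := by positivity
  have h1 : ∑ _τ : X → Fin r, (1 - pr k F) ≤ ∑ τ : X → Fin r,
      (∑ j : Fin r, (if Rich2 F w v₀ C (univ.filter fun x => τ x = j) then (0 : ℝ) else 1) +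
        η ^ r) := sum_le_sum fun τ _ => fail_le hI hk1 hη hv₀ hlow hF τ
  have hcard : ((univ : Finset (X → Fin r)).card : ℝ) = (r : ℝ) ^ Fintype.card X := by
    rw [card_univ, Fintype.card_fun, Fintype.card_fin]
    push_cast
    rfl
  rw [sum_const, nsmul_eq_mul, hcard, sum_add_distrib, sum_const, nsmul_eq_mul, hcard,
    sum_comm] at h1
  have h2 : ∀ j : Fin r, ∑ τ : X → Fin r,
      (if Rich2 F w v₀ C (univ.filter fun x => τ x = j) then (0 : ℝ) else 1) ≤
      (r : ℝ) ^ Fintype.card X * ((r : ℝ) ^ w * ((1 + C) ^ w + M) / F.card) := by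
    intro j
    rw [law_class hr j (fun T => if Rich2 F w v₀ C T then (0 : ℝ) else 1)]
    apply mul_le_mul_of_nonneg_left _ hrn.le
    have := weight_not_rich2 (q := 1 / (r : ℝ)) hC hM0 (by positivity)
      (by rw [div_le_one hr0]; exact hrR) hF hne hM
    rwa [one_div_one_div] at this
  have h3 : (r : ℝ) ^ Fintype.card X * (1 - pr k F) ≤
      (r : ℝ) ^ Fintype.card X * (r * (r : ℝ) ^ w * ((1 + C) ^ w + M) / F.card + η ^ r) := by
    calc (r : ℝ) ^ Fintype.card X * (1 - pr k F) ≤ ∑ j : Fin r, ∑ τ : X → Fin r,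
          (if Rich2 F w v₀ C (univ.filter fun x => τ x = j) then (0 : ℝ) else 1) +
            (r : ℝ) ^ Fintype.card X * η ^ r := h1
      _ ≤ ∑ _j : Fin r, (r : ℝ) ^ Fintype.card X * ((r : ℝ) ^ w * ((1 + C) ^ w + M) / F.card) +
            (r : ℝ) ^ Fintype.card X * η ^ r := by
          linarith [sum_le_sum fun j (_ : j ∈ (univ : Finset (Fin r))) => h2 j]
      _ = _ := by
          rw [sum_const, card_univ, Fintype.card_fin, nsmul_eq_mul]
          ring
  exact le_of_mul_le_mul_left h3 hrn

end Pool.Agent.ZOL
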