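import Pool.Agent.ZOL.Targets

/-!
# Zero-one law for rainbow sunflowers: the Margulis-Russo formula
-/

set_option autoImplicit false

namespace Pool.Agent.ZOL

open Finset Filter

namespace RUSSO_

variable {X A : Type} [Fintype X] [DecidableEq X] [Fintype A]

/-- resampling one coordinate -/
theorem sum_update (x : X) (g : (X → A) → ℝ) :
    ∑ ω : X → A, ∑ s : A, g (Function.update ω x s) =
      (Fintype.card A : ℝ) * ∑ ω : X → A, g ω := by
  rw [← Fintype.sum_prod_type']
  have h1 : ∑ p : (X → A) × A, g (Function.update p.1 x p.2) =
      ∑ p : (X → A) × A, g p.1 := by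
    refine Fintype.sum_bijective (fun p : (X → A) × A => (Function.update p.1 x p.2, p.1 x)) ?_ _ _
      fun p => rfl
    apply Function.Involutive.bijective
    intro p
    ext y
    · simp only [Function.update_idem, Function.update_eq_self]
    · simp only [Function.update_self]
  rw [h1, Fintype.sum_prod_type]
  simp only [sum_const, card_univ, nsmul_eq_mul]
  rw [← mul_sum]

/-- the sign -/
noncomputable def sg {k : ℕ} (s : Bool × Fin k) : ℝ := if s.1 = true then 1 else -1

theorem hasDerivAt_mu (k : ℕ) (s : Bool × Fin k) (q : ℝ) :
    HasDerivAt (fun q => mu k q s) (sg s / k) q := by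
  unfold mu sg
  by_cases h : s.1 = true
  · simp only [if_pos h]
    exact (hasDerivAt_id q).div_const _
  · simp only [if_neg h]
    exact ((hasDerivAt_id q).const_sub 1).div_const _

/-- the weight of the other coordinates -/
noncomputable def wx (m : A → ℝ) (x : X) (ω : X → A) : ℝ := ∏ y ∈ univ.erase x, m (ω y)

theorem wx_update (m : A → ℝ) (x : X) (ω : X → A) (s : A) :
    wx m x (Function.update ω x s) = wx m x ω := by
  unfold wx
  refine prod_congr rfl fun y hy => ?_
  rw [Function.update_of_ne (ne_of_mem_erase hy)]

theorem wt_eq (m : A → ℝ) (x : X) (ω : X → A) : wt m ω = wx m x ω * m (ω x) := by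
  unfold wt wx
  rw [prod_erase_mul _ _ (mem_univ x)]

theorem piv_update (f : (X → A) → ℝ) (x : X) (ω : X → A) (s : A) :
    Piv f x (Function.update ω x s) ↔ Piv f x ω := by
  unfold Piv
  simp only [Function.update_idem]

end RUSSO_

open RUSSO_ in
theorem p_RUSSO : T_RUSSO := by
  classical
  intro X _ _ k hk f h01 hdead hmono
  have hk0 : (0 : ℝ) < k := by exact_mod_cast hk
  refine ⟨fun q => ∑ x, ∑ ω : X → Bool × Fin k, wx (mu k q) x ω * (sg (ω x) / k) * f ω, ?_, ?_⟩
  · intro q
    have h1 : ∀ ω : X → Bool × Fin k, HasDerivAt (fun q => wt (mu k q) ω * f ω)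
        ((∑ x, wx (mu k q) x ω * (sg (ω x) / k)) * f ω) q := by
      intro ω
      have h2 := (HasDerivAt.fun_finsetProd (u := univ) (x := q)
        (f := fun x q => mu k q (ω x)) (f' := fun x => sg (ω x) / k)
        fun x _ => hasDerivAt_mu k (ω x) q).mul_const (f ω)
      exact h2
    have h3 := HasDerivAt.fun_sum (u := univ) fun ω _ => h1 ω
    have h4 : ∑ ω : X → Bool × Fin k, (∑ x, wx (mu k q) x ω * (sg (ω x) / k)) * f ω =
        ∑ x, ∑ ω : X → Bool × Fin k, wx (mu k q) x ω * (sg (ω x) / k) * f ω := by
      rw [sum_comm]
      exact sum_congr rfl fun ω _ => sum_mul _ _ _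
    have h5 : HasDerivAt (fun q => ∑ ω : X → Bool × Fin k, wt (mu k q) ω * f ω)
        (∑ x, ∑ ω : X → Bool × Fin k, wx (mu k q) x ω * (sg (ω x) / k) * f ω) q := h4 ▸ h3
    exact h5
  · intro q hq0 hq1
    have hmu : ∀ s : Bool × Fin k, 0 ≤ mu k q s := by
      intro s
      unfold mu
      apply div_nonneg _ hk0.le
      split_ifs
      · exact hq0
      · linarith
    have hsum : ∑ s : Bool × Fin k, mu k q s = 1 := by
      rw [Fintype.sum_prod_type]
      simp only [Fintype.sum_bool, mu, if_true, Bool.false_eq_true, if_false, sum_const, card_univ,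
        Fintype.card_fin, nsmul_eq_mul]
      field_simp
      ring
    have hcard : (0 : ℝ) < (Fintype.card (Bool × Fin k) : ℝ) := by
      simp only [Fintype.card_prod, Fintype.card_bool, Fintype.card_fin]
      push_cast
      linarith
    unfold tot
    rw [mul_sum]
    refine sum_le_sum fun x _ => ?_
    have key : ∀ ω : X → Bool × Fin k, (if Piv f x ω then (1 : ℝ) else 0) ≤
        ∑ s : Bool × Fin k, sg s * f (Function.update ω x s) := by
      intro ω
      have h1 : ∑ s : Bool × Fin k, sg s * f (Function.update ω x s) =
          ∑ c : Fin k, (f (Function.update ω x (true, c)) -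
            f (Function.update ω x (false, c))) := by
        rw [Fintype.sum_prod_type]
        simp only [Fintype.sum_bool, sg, if_true, Bool.false_eq_true, if_false]
        rw [← sum_add_distrib]
        refine sum_congr rfl fun c _ => ?_
        ring
      rw [h1]
      have h2 : ∀ c ∈ (univ : Finset (Fin k)), 0 ≤ f (Function.update ω x (true, c)) -
          f (Function.update ω x (false, c)) := fun c _ => sub_nonneg.mpr (hmono ω x c c)
      split_ifs with hp
      · obtain ⟨a, b, hab⟩ := hp
        have c0 : Fin k := ⟨0, hk⟩
        have h3 : ∃ c, f (Function.update ω x (true, c)) ≠ f (Function.update ω x (false, c)) := by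
          by_contra hcon
          push Not at hcon
          apply hab
          have h4 : ∀ s : Bool × Fin k, f (Function.update ω x s) =
              f (Function.update ω x (false, c0)) := by
            rintro ⟨t, c⟩
            cases t
            · exact hdead ω x c c0
            · rw [hcon c]
              exact hdead ω x c c0
          rw [h4 a, h4 b]
        obtain ⟨c, hc⟩ := h3
        have h4 : 1 ≤ f (Function.update ω x (true, c)) - f (Function.update ω x (false, c)) := by
          have h5 := hmono ω x c c
          rcases h01 (Function.update ω x (true, c)) with h6 | h6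
          · rcases h01 (Function.update ω x (false, c)) with h7 | h7
            · exact absurd (h6.trans h7.symm) hc
            · rw [h6, h7] at h5
              norm_num at h5
          · rcases h01 (Function.update ω x (false, c)) with h7 | h7
            · rw [h6, h7]
              norm_num
            · exact absurd (h6.trans h7.symm) hc
        exact h4.trans (single_le_sum h2 (mem_univ c))
      · exact sum_nonneg h2
    have hI : (Fintype.card (Bool × Fin k) : ℝ) * infl (mu k q) f x =
        ∑ ω : X → Bool × Fin k, wx (mu k q) x ω * (if Piv f x ω then (1 : ℝ) else 0) := by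
      unfold infl Ex
      rw [← sum_update x]
      refine sum_congr rfl fun ω _ => ?_
      simp only [piv_update, wt_eq _ x, wx_update, Function.update_self]
      rw [← sum_mul, ← mul_sum, hsum, mul_one]
    have hD : (Fintype.card (Bool × Fin k) : ℝ) *
        (k * ∑ ω : X → Bool × Fin k, wx (mu k q) x ω * (sg (ω x) / k) * f ω) =
        ∑ ω : X → Bool × Fin k, wx (mu k q) x ω *
          ∑ s : Bool × Fin k, sg s * f (Function.update ω x s) := by
      rw [mul_left_comm, ← sum_update x, mul_sum]
      refine sum_congr rfl fun ω _ => ?_
      simp only [wx_update, Function.update_self]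
      rw [mul_sum, mul_sum]
      refine sum_congr rfl fun s _ => ?_
      field_simp
    have hfin : (Fintype.card (Bool × Fin k) : ℝ) * infl (mu k q) f x ≤
        (Fintype.card (Bool × Fin k) : ℝ) *
        (k * ∑ ω : X → Bool × Fin k, wx (mu k q) x ω * (sg (ω x) / k) * f ω) := by
      rw [hI, hD]
      refine sum_le_sum fun ω _ => ?_
      apply mul_le_mul_of_nonneg_left (key ω)
      unfold wx
      exact prod_nonneg fun y _ => hmu _
    exact le_of_mul_le_mul_left hfin hcard

end Pool.Agent.ZOL
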