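import Pool.Agent.ZOL.Targets

/-!
# Zero-one law for rainbow sunflowers: robustness
-/

set_option autoImplicit false

namespace Pool.Agent.ZOL

open Finset

/-- STEP 3: robustness -/
theorem p_TRACE (h : T_RICH) : T_TRACE := by
  intro k C2 C q w X _ _ F hk hC2 hlow hq0 hq1 hC hw hbig U hU ω
  classical
  obtain ⟨hF, hcard⟩ := hbig
  have hCq : q * C ≤ C ∨ C < 0 := by
    rcases le_or_gt 0 C with h0 | h0
    · left
      nlinarith
    · right
      exact h0
  have hC8 : 8 ≤ C := by
    rcases hCq with h1 | h1
    · linarith
    · nlinarith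
  -- the popular trace
  have hfib : F.card = ∑ Q ∈ U.powerset, (F.filter fun S => S ∩ U = Q).card := by
    refine card_eq_sum_card_fiberwise ?_
    intro S _
    simp only [coe_powerset, Set.mem_preimage, Set.mem_powerset_iff, coe_subset]
    exact inter_subset_right
  have hpop : ∃ Q ∈ U.powerset, (F.card : ℝ) ≤
      2 ^ U.card * ((F.filter fun S => S ∩ U = Q).card : ℝ) := by
    by_contra hcon
    push Not at hcon
    have h1 : ∑ Q ∈ U.powerset, 2 ^ U.card * ((F.filter fun S => S ∩ U = Q).card : ℝ) <
        ∑ _Q ∈ U.powerset, (F.card : ℝ) :=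
      sum_lt_sum_of_nonempty ⟨∅, empty_mem_powerset U⟩ hcon
    rw [← mul_sum, sum_const, card_powerset, nsmul_eq_mul] at h1
    have h2 : ∑ Q ∈ U.powerset, ((F.filter fun S => S ∩ U = Q).card : ℝ) = F.card := by
      rw [hfib]
      push_cast
      rfl
    rw [h2] at h1
    push_cast at h1
    exact lt_irrefl _ h1
  obtain ⟨Q, hQ, hpopQ⟩ := hpop
  rw [mem_powerset] at hQ
  set G : Finset (Finset X) := (F.filter fun S => S ∩ U = Q).image fun S => S \ U with hG
  have hinj : Set.InjOn (fun S : Finset X => S \ U) (F.filter fun S => S ∩ U = Q) := by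
    intro S1 h1 S2 h2 h12
    have h1' := (mem_filter.mp (Finset.mem_coe.mp h1)).2
    have h2' := (mem_filter.mp (Finset.mem_coe.mp h2)).2
    simp only at h12
    rw [← sdiff_union_inter S1 U, ← sdiff_union_inter S2 U, h12, h1', h2']
  have hQU : Q.card ≤ U.card := card_le_card hQ
  have hGbig : Big (w - Q.card) (C / 2) G := by
    refine ⟨?_, ?_⟩
    · intro S' hS'
      obtain ⟨S, hS, rfl⟩ := mem_image.mp hS'
      obtain ⟨hS1, hS2⟩ := mem_filter.mp hS
      have h1 := card_sdiff_add_card_inter S U
      rw [hS2, hF S hS1] at h1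
      omega
    · rw [hG, card_image_of_injOn hinj]
      have hUv : U.card ≤ w - Q.card := by omega
      have h1 : (C / 2) ^ (w - Q.card) * 2 ^ U.card ≤ C ^ w := by
        calc (C / 2) ^ (w - Q.card) * 2 ^ U.card
            ≤ (C / 2) ^ (w - Q.card) * 2 ^ (w - Q.card) := by
              refine mul_le_mul_of_nonneg_left ?_ (by positivity)
              exact pow_le_pow_right₀ (by norm_num) hUv
          _ = C ^ (w - Q.card) := by
              rw [← mul_pow]
              congr 1
              ring
          _ ≤ C ^ w := pow_le_pow_right₀ (by linarith) (Nat.sub_le _ _)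
      have h2 : (C / 2) ^ (w - Q.card) * 2 ^ U.card ≤
          ((F.filter fun S => S ∩ U = Q).card : ℝ) * 2 ^ U.card := by
        rw [mul_comm ((F.filter fun S => S ∩ U = Q).card : ℝ)]
        exact h1.trans (hcard.trans hpopQ)
      exact le_of_mul_le_mul_right h2 (by positivity)
  have hmain := h k C2 (C / 2) q (w - Q.card) X G hk hC2 hlow hq0 hq1 (by linarith) (by omega)
    hGbig
  refine hmain.trans ?_
  unfold cond Ex
  refine sum_le_sum fun η _ => ?_
  refine mul_le_mul_of_nonneg_left ?_ ?_
  · unfold suc
    by_cases hs : Succ G η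
    · have hs' : Succ F (mix U ω η) := by
        obtain ⟨S, hSinj, hSG, hSub⟩ := hs
        have hSK : ∀ i, S i ∪ Q ∈ F ∧ Disjoint (S i) U := by
          intro i
          obtain ⟨S', hS', hS''⟩ := mem_image.mp (hSG i)
          obtain ⟨h1, h2⟩ := mem_filter.mp hS'
          rw [← hS'']
          refine ⟨?_, sdiff_disjoint⟩
          rw [← h2, sdiff_union_inter]
          exact h1
        refine ⟨fun i => S i ∪ Q, ?_, fun i => (hSK i).1, ?_⟩
        · intro i j hij
          apply hSinj
          have hi : (S i ∪ Q) \ U = S i := by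
            rw [union_sdiff_distrib, sdiff_eq_empty_iff_subset.mpr hQ, union_empty]
            exact sdiff_eq_self_of_disjoint (hSK i).2
          have hj : (S j ∪ Q) \ U = S j := by
            rw [union_sdiff_distrib, sdiff_eq_empty_iff_subset.mpr hQ, union_empty]
            exact sdiff_eq_self_of_disjoint (hSK j).2
          simp only at hij
          rw [← hi, ← hj, hij]
        · intro i j hij x hx
          simp only [mem_sdiff, mem_union, not_or] at hx
          obtain ⟨hx1, hx2, hx3⟩ := hx
          have hxi : x ∈ S i := by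
            rcases hx1 with h | h
            · exact h
            · exact absurd h hx3
          have hxU : x ∉ U := fun hx' => disjoint_left.mp (hSK i).2 hxi hx'
          have hp := hSub i j hij x (mem_sdiff.mpr ⟨hxi, hx2⟩)
          unfold mix
          rw [if_neg hxU]
          exact hp
      simp only
      rw [if_pos hs, if_pos hs']
    · rw [if_neg hs]
      simp only
      split_ifs <;> norm_num
  · unfold wt mu
    refine prod_nonneg fun x _ => div_nonneg ?_ (Nat.cast_nonneg _)
    split_ifs
    · exact hq0.le
    · linarith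

end Pool.Agent.ZOL
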