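import Pool.Agent.ZOL.MAIN
import Pool.Agent.ZOL.HYPER
import Pool.Agent.ZOL.RUSSO
import Pool.Agent.ZOL.TRACE
import Pool.Agent.ZOL.RICH
import Pool.Agent.ZOL.EXP
import Pool.Agent.ZOL.FAR
import Pool.Agent.ZOL.CODE2
import Pool.Agent.ZOL.INDEP
import Pool.Agent.ZOL.ROUNDS

/-!
# The zero-one law, strong form: assembly
-/

set_option autoImplicit false

namespace Pool.Agent.ZOL

open Finset

/-- the base needed for the amplification -/
noncomputable def base (δ C : ℝ) : ℝ := (2 * (2 * C ^ 2) ^ (2 / δ)) ^ (1 / δ)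

theorem one_le_base {δ C : ℝ} (hδ : 0 < δ) (hC : 1 ≤ C) : 1 ≤ base δ C := by
  unfold base
  have h1 : (1 : ℝ) ≤ C ^ 2 := one_le_pow₀ hC
  have h2 : (1 : ℝ) ≤ (2 * C ^ 2) ^ (2 / δ) :=
    Real.one_le_rpow (by linarith) (by positivity)
  exact Real.one_le_rpow (by linarith) (by positivity)

theorem base_pow {δ C : ℝ} (hδ : 0 < δ) (hC : 1 ≤ C) :
    base δ C ^ δ / 2 = (2 * C ^ 2) ^ (2 / δ) := by
  unfold base
  have h1 : (1 : ℝ) ≤ C ^ 2 := one_le_pow₀ hC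
  have h2 : (0 : ℝ) ≤ (2 * C ^ 2) ^ (2 / δ) := by positivity
  rw [← Real.rpow_mul (by positivity), one_div_mul_cancel hδ.ne', Real.rpow_one]
  ring

theorem base_pow_four {δ C : ℝ} (hδ : 0 < δ) (hC : 1 ≤ C) :
    base (δ / 4) C ^ 4 = (2 : ℝ) ^ (16 / δ + 128 / δ ^ 2) * C ^ (256 / δ ^ 2) := by
  have hC0 : 0 ≤ C := by linarith
  unfold base
  have h1 : (0 : ℝ) ≤ (2 * C ^ 2) ^ (2 / (δ / 4)) := by positivity
  rw [← Real.rpow_natCast, ← Real.rpow_mul (by positivity), Real.mul_rpow (by norm_num) h1,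
    ← Real.rpow_mul (by positivity), Real.mul_rpow (by norm_num) (by positivity), ← mul_assoc,
    ← Real.rpow_add (by norm_num), ← Real.rpow_natCast C 2, ← Real.rpow_mul hC0]
  have e1 : 1 / (δ / 4) * ((4 : ℕ) : ℝ) + 2 / (δ / 4) * (1 / (δ / 4) * ((4 : ℕ) : ℝ)) =
      16 / δ + 128 / δ ^ 2 := by
    push_cast
    field_simp
    ring
  have e2 : ((2 : ℕ) : ℝ) * (2 / (δ / 4) * (1 / (δ / 4) * ((4 : ℕ) : ℝ))) = 256 / δ ^ 2 := by
    push_cast
    field_simp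
    ring
  rw [e1, e2]

theorem pr_nonneg {X : Type} [Fintype X] [DecidableEq X] (k : ℕ) (F : Finset (Finset X)) :
    0 ≤ pr k F := by
  unfold pr prob
  positivity

/-- amplification with small intersections -/
theorem amplify3 {k : ℕ} (hk : 2 ≤ k) {δ C : ℝ} (hδ0 : 0 < δ) (hδ1 : δ < 1) (hC : 1 ≤ C)
    {u : ℕ} (hu : 1 ≤ u) {X : Type} [Fintype X] [DecidableEq X] {G : Finset (Finset X)}
    (hG : Big u (base (δ / 4) C) G) (hpr : pr k G < 1 / 16) :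
    ∃ z : ℝ, 0 < z ∧ ∃ w₀ : ℕ, ∀ w : ℕ, w₀ ≤ w →
      ∃ (X : Type) (_ : Fintype X) (_ : DecidableEq X) (F : Finset (Finset X)),
        Big w C F ∧ (∀ S ∈ F, ∀ S' ∈ F, S ≠ S' → ((S ∩ S').card : ℝ) ≤ δ * w) ∧
        pr k F ≤ Real.exp (-z * w) ∧ (pr k G = 0 → pr k F = 0) := by
  have hδ4 : 0 < δ / 4 := by linarith
  obtain ⟨v, G', hv1, -, hG', hint, hprle⟩ := p_FAR k u (base (δ / 4) C) (δ / 4) X G hu
    (one_le_base hδ4 hC) hδ4 (by linarith) hG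
  rw [base_pow hδ4 hC] at hG'
  have hvR : (1 : ℝ) ≤ v := by exact_mod_cast hv1
  have hvpos : (0 : ℝ) < v := by linarith
  have hlog4 : 0 < Real.log 4 := Real.log_pos (by norm_num)
  have hC2 : (1 : ℝ) ≤ C ^ 2 := one_le_pow₀ hC
  obtain ⟨n, hn⟩ := exists_nat_ge (8 * v / δ)
  refine ⟨Real.log 4 / (2 * v), by positivity, n + v, ?_⟩
  intro w hw
  obtain ⟨N, hN⟩ : ∃ N, N = w / v := ⟨_, rfl⟩
  obtain ⟨r, hr⟩ : ∃ r, r = w % v := ⟨_, rfl⟩
  have hNr : v * N + r = w := by rw [hN, hr]; exact Nat.div_add_mod w v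
  have hrv : r < v := by rw [hr]; exact Nat.mod_lt _ (by omega)
  have hN1 : 1 ≤ N := by
    rw [hN, Nat.le_div_iff_mul_le (by omega)]
    omega
  have hNR : (1 : ℝ) ≤ N := by exact_mod_cast hN1
  have hNrR : (v : ℝ) * N + r = w := by exact_mod_cast hNr
  have hrvR : (r : ℝ) ≤ v := by exact_mod_cast hrv.le
  have hr0 : (0 : ℝ) ≤ r := Nat.cast_nonneg _
  have hw2 : (w : ℝ) ≤ 2 * v * N := by nlinarith
  have hwn : (n : ℝ) ≤ w := by
    have : n ≤ w := by omega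
    exact_mod_cast this
  have hw8 : 8 * v ≤ δ * w := by
    have : 8 * v / δ ≤ w := hn.trans hwn
    rw [div_le_iff₀ hδ0] at this
    linarith
  have hδN : 1 ≤ δ / 4 * N := by
    have h1 : 8 * (v : ℝ) ≤ δ * (2 * v * N) :=
      hw8.trans (mul_le_mul_of_nonneg_left hw2 hδ0.le)
    have h2 : (v : ℝ) * 1 ≤ v * (δ / 4 * N) := by nlinarith
    exact le_of_mul_le_mul_left h2 hvpos
  have hB1 : (1 : ℝ) ≤ (2 * C ^ 2) ^ (2 / (δ / 4)) :=
    Real.one_le_rpow (by linarith) (by positivity)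
  obtain ⟨Y, j1, j2, F, hFu, hFc, hFi, hFp, hFz⟩ := p_CODE2 k v N r ((2 * C ^ 2) ^ (2 / (δ / 4)))
    (δ / 4) X G' hk hv1 hδ4 (by linarith) hδN hB1 hG' (lt_of_le_of_lt hprle hpr) hint
  refine ⟨Y, j1, j2, F, ⟨fun S hS => by rw [hFu S hS, hNr], ?_⟩, ?_, ?_, fun h0 => hFz
    (le_antisymm (hprle.trans h0.le) (pr_nonneg k G'))⟩
  · -- the size
    refine le_trans ?_ hFc
    have e1 : ((2 * C ^ 2) ^ (2 / (δ / 4))) ^ (δ / 4 / 2) / 2 = C ^ 2 := by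
      rw [← Real.rpow_mul (by positivity)]
      have : 2 / (δ / 4) * (δ / 4 / 2) = 1 := by field_simp
      rw [this, Real.rpow_one]
      ring
    rw [e1, ← pow_mul]
    apply pow_le_pow_right₀ hC
    have : (w : ℝ) ≤ ((2 * (v * N) : ℕ) : ℝ) := by
      push_cast
      linarith
    exact_mod_cast this
  · -- the intersections
    intro S hS S' hS' hne
    refine (hFi S hS S' hS' hne).trans ?_
    have h1 : (v : ℝ) * N ≤ w := by linarith
    have h2 : 2 * (δ / 4) * ((v : ℝ) * N) ≤ 2 * (δ / 4) * w :=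
      mul_le_mul_of_nonneg_left h1 (by positivity)
    linarith
  · -- the probability
    refine hFp.trans ?_
    have e1 : ((1 : ℝ) / 4) ^ N = Real.exp (-(N * Real.log 4)) := by
      rw [Real.exp_neg, mul_comm, Real.exp_mul, Real.exp_log (by norm_num), Real.rpow_natCast,
        one_div, inv_pow]
    rw [e1]
    apply Real.exp_le_exp.2
    have h1 : (w : ℝ) / (2 * v) ≤ N := by
      rw [div_le_iff₀ (by positivity)]
      linarith
    have h2 := mul_le_mul_of_nonneg_right h1 hlog4.le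
    have e2 : -(Real.log 4 / (2 * v)) * (w : ℝ) = -((w : ℝ) / (2 * v) * Real.log 4) := by ring
    rw [e2]
    linarith

/-- amplification from a failure of the lower bound -/
theorem amplify2 {k : ℕ} (hk : 2 ≤ k) {δ C : ℝ} (hδ0 : 0 < δ) (hδ1 : δ < 1) (hC : 1 ≤ C)
    (h : ¬ ∀ u, 1 ≤ u → Low k (base (δ / 4) C) u (1 / 16)) :
    ∃ z : ℝ, 0 < z ∧ ∃ w₀ : ℕ, ∀ w : ℕ, w₀ ≤ w →
      ∃ (X : Type) (_ : Fintype X) (_ : DecidableEq X) (F : Finset (Finset X)),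
        Big w C F ∧ (∀ S ∈ F, ∀ S' ∈ F, S ≠ S' → ((S ∩ S').card : ℝ) ≤ δ * w) ∧
        pr k F ≤ Real.exp (-z * w) := by
  push Not at h
  obtain ⟨u, hu, hlow⟩ := h
  unfold Low at hlow
  push Not at hlow
  obtain ⟨X, i1, i2, G, hG, hpr⟩ := hlow
  obtain ⟨z, hz, w₀, h1⟩ := amplify3 hk hδ0 hδ1 hC hu hG hpr
  refine ⟨z, hz, w₀, fun w hw => ?_⟩
  obtain ⟨Y, j1, j2, F, h2, h3, h4, -⟩ := h1 w hw
  exact ⟨Y, j1, j2, F, h2, h3, h4⟩

theorem p_MAIN2 : T_MAIN2 := by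
  intro k δ a hk hδ0 hδ1 ha
  obtain ⟨a₀, ha₀, hS⟩ := sharp_explicit (p_LEVEL p_HYPER) p_RUSSO (p_TRACE p_RICH) p_RICH k hk
  obtain ⟨A₀, hA₀, hE⟩ := p_EXP p_SPR p_LINKPR (p_ROUNDS p_INDEP) k a₀ a hk ha₀ ha
  have h2pos : (1 : ℝ) ≤ (2 : ℝ) ^ (16 / δ + 128 / δ ^ 2) :=
    Real.one_le_rpow (by norm_num) (by positivity)
  refine ⟨A₀ * (32 ^ 4 * (2 : ℝ) ^ (16 / δ + 128 / δ ^ 2)), by nlinarith, ?_⟩
  intro C hC
  by_cases h : ∀ u, 1 ≤ u → Low k (base (δ / 4) C) u (1 / 16)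
  · left
    set R := base (δ / 4) C with hR
    have hR1 : 1 ≤ R := one_le_base (by linarith) hC
    have h1 : ∀ v, 1 ≤ v → Low k (16 * (1 + R)) v (1 / 16) :=
      fun v hv => Low_mono (by linarith) (by linarith) (h v hv)
    have h2 := hS R hR1 h
    intro w hw
    have h3 := hE (16 * (1 + R)) (by linarith) h1 h2 w hw
    refine Low_mono (by positivity) ?_ h3
    have h4 : (16 * (1 + R)) ^ 4 ≤ (32 * R) ^ 4 := pow_le_pow_left₀ (by positivity) (by linarith) 4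
    have h5 : (32 * R) ^ 4 = 32 ^ 4 * ((2 : ℝ) ^ (16 / δ + 128 / δ ^ 2) * C ^ (256 / δ ^ 2)) := by
      rw [mul_pow, hR, base_pow_four hδ0 hC]
    calc A₀ * (16 * (1 + R)) ^ 4 ≤ A₀ * (32 * R) ^ 4 :=
          mul_le_mul_of_nonneg_left h4 (by linarith)
      _ = _ := by rw [h5]; ring
  · exact Or.inr (amplify2 hk hδ0 hδ1 hC h)

end Pool.Agent.ZOL
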