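import Pool.Agent.ZOL.LEVEL

/-!
# From constant probability to high probability
-/

set_option autoImplicit false

namespace Pool.Agent.ZOL

open Finset

section

theorem mu_nonneg {k : ℕ} {q : ℝ} (h0 : 0 ≤ q) (h1 : q ≤ 1) (s : Bool × Fin k) :
    0 ≤ mu k q s := by
  unfold mu
  apply div_nonneg
  · split <;> linarith
  · exact Nat.cast_nonneg _

theorem sum_mu {k : ℕ} (hk : 1 ≤ k) (q : ℝ) : ∑ s : Bool × Fin k, mu k q s = 1 := by
  have hk0 : (k : ℝ) ≠ 0 := by
    have : k ≠ 0 := by omega
    exact_mod_cast this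
  have e : ∀ b : Bool, ∑ c : Fin k, mu k q (b, c) = if b = true then q else 1 - q := by
    intro b
    change ∑ _c : Fin k, (if b = true then q else 1 - q) / (k : ℝ) = _
    rw [sum_const, card_univ, Fintype.card_fin, nsmul_eq_mul]
    field_simp
  rw [Fintype.sum_prod_type, Fintype.sum_bool, e, e]
  simp

variable {X : Type} [Fintype X] [DecidableEq X] {k : ℕ}

omit [Fintype X] in
theorem suc_zero_or_one (F : Finset (Finset X)) (ω : X → Bool × Fin k) :
    suc F ω = 0 ∨ suc F ω = 1 := by
  unfold suc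
  split
  · exact Or.inr rfl
  · exact Or.inl rfl

omit [Fintype X] in
theorem suc_mono {F : Finset (Finset X)} {ω η : X → Bool × Fin k}
    (h : Succ F ω → Succ F η) : suc F ω ≤ suc F η := by
  unfold suc
  by_cases h1 : Succ F ω
  · rw [if_pos h1, if_pos (h h1)]
  · rw [if_neg h1]
    split <;> norm_num

omit [Fintype X] in
theorem Succ_update {F : Finset (Finset X)} {ω : X → Bool × Fin k} {x : X} {c : Fin k}
    (h : Succ F (Function.update ω x (false, c))) (s : Bool × Fin k) :
    Succ F (Function.update ω x s) := by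
  obtain ⟨S, h1, h2, h3⟩ := h
  refine ⟨S, h1, h2, ?_⟩
  intro i j hij y hy
  have := h3 i j hij y hy
  by_cases hyx : y = x
  · subst hyx
    rw [Function.update_self] at this
    exact absurd (congrArg Prod.fst this) (by simp)
  · rw [Function.update_of_ne hyx] at this ⊢
    exact this

omit [Fintype X] in
theorem suc_update_dead (F : Finset (Finset X)) (ω : X → Bool × Fin k) (x : X) (c c' : Fin k) :
    suc F (Function.update ω x (false, c)) = suc F (Function.update ω x (false, c')) :=
  le_antisymm (suc_mono fun h => Succ_update h _) (suc_mono fun h => Succ_update h _)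

omit [Fintype X] in
theorem suc_update_alive (F : Finset (Finset X)) (ω : X → Bool × Fin k) (x : X) (c c' : Fin k) :
    suc F (Function.update ω x (false, c)) ≤ suc F (Function.update ω x (true, c')) :=
  suc_mono fun h => Succ_update h _

/-- `P(1/2) ≤ P(1)` -/
theorem Ex_suc_le_pr (hk : 1 ≤ k) {q : ℝ} (h0 : 0 ≤ q) (h1 : q ≤ 1) (F : Finset (Finset X)) :
    Ex (mu k q) (suc (k := k) F) ≤ pr k F := by
  classical
  have hk0 : (k : ℝ) ≠ 0 := by
    have : k ≠ 0 := by omega
    exact_mod_cast this
  have e1 : Ex (mu k q) (suc (k := k) F) =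
      ∑ b : X → Bool, (∏ x, (if b x = true then q else 1 - q)) *
        ∑ χ : X → Fin k, (1 / (k : ℝ)) ^ Fintype.card X * suc F (fun x => (b x, χ x)) := by
    unfold Ex
    rw [← Equiv.sum_comp (Equiv.arrowProdEquivProdArrow X (fun _ => Bool) (fun _ => Fin k)).symm,
      Fintype.sum_prod_type]
    apply sum_congr rfl
    intro b _
    rw [mul_sum]
    apply sum_congr rfl
    intro χ _
    have : wt (mu k q) (fun x => (b x, χ x)) =
        (∏ x, (if b x = true then q else 1 - q)) * (1 / (k : ℝ)) ^ Fintype.card X := by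
      unfold wt mu
      have e0 : ∀ x, (if b x = true then q else 1 - q) / (k : ℝ) =
          (if b x = true then q else 1 - q) * (1 / (k : ℝ)) := fun x => div_eq_mul_one_div _ _
      dsimp only
      rw [prod_congr rfl fun x _ => e0 x, prod_mul_distrib, prod_const, card_univ]
    change wt (mu k q) (fun x => (b x, χ x)) * suc F (fun x => (b x, χ x)) = _
    rw [this]
    ring
  have e2 : ∀ b : X → Bool, ∑ χ : X → Fin k, (1 / (k : ℝ)) ^ Fintype.card X *
      suc F (fun x => (b x, χ x)) ≤ pr k F := by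
    intro b
    have f1 : pr k F = ∑ χ : X → Fin k, (1 / (k : ℝ)) ^ Fintype.card X *
        (if HasRainbowSunflower F χ then 1 else 0) := by
      unfold pr prob
      rw [← mul_sum, sum_boole, Nat.card_eq_fintype_card, Nat.card_eq_fintype_card,
        Fintype.card_subtype, Fintype.card_fun, Fintype.card_fin]
      push_cast
      rw [one_div, inv_pow]
      ring
    rw [f1]
    apply sum_le_sum
    intro χ _
    apply mul_le_mul_of_nonneg_left _ (by positivity)
    unfold suc
    by_cases hs : Succ F (fun x => (b x, χ x))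
    · rw [if_pos hs, if_pos]
      obtain ⟨S, g1, g2, g3⟩ := hs
      refine ⟨S, g1, g2, ?_⟩
      intro i j hij y hy
      have := g3 i j hij y hy
      exact mem_filter.2 ⟨mem_univ _, (Prod.mk.inj this).2⟩
    · rw [if_neg hs]
      split <;> norm_num
  rw [e1]
  calc ∑ b : X → Bool, (∏ x, (if b x = true then q else 1 - q)) *
        ∑ χ : X → Fin k, (1 / (k : ℝ)) ^ Fintype.card X * suc F (fun x => (b x, χ x))
      ≤ ∑ b : X → Bool, (∏ x, (if b x = true then q else 1 - q)) * pr k F := by
        apply sum_le_sum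
        intro b _
        apply mul_le_mul_of_nonneg_left (e2 b)
        apply prod_nonneg
        intro x _
        split <;> linarith
    _ = pr k F := by
        rw [← sum_mul]
        have := sum_wt (X := X) (μ := fun c : Bool => if c = true then q else 1 - q)
          (by simp)
        unfold wt at this
        rw [this, one_mul]

end

theorem log_le_sqrt {w : ℝ} (hw : 0 < w) : Real.log w ≤ 2 * Real.sqrt w := by
  have h1 : Real.log (Real.sqrt w) ≤ Real.sqrt w := by
    have := Real.log_le_sub_one_of_pos (Real.sqrt_pos.2 hw)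
    linarith
  rw [Real.log_sqrt hw.le] at h1
  linarith

theorem log_le_eighth {w : ℝ} (hw : 0 < w) : Real.log w ≤ 8 * w ^ (1 / 8 : ℝ) := by
  have h1 : Real.log (w ^ (1 / 8 : ℝ)) ≤ w ^ (1 / 8 : ℝ) := by
    have := Real.log_le_sub_one_of_pos (Real.rpow_pos_of_pos hw (1 / 8))
    linarith
  rw [Real.log_rpow hw] at h1
  linarith

theorem one_le_log_two_mul {k : ℕ} (hk : 2 ≤ k) : 1 ≤ Real.log (2 * k) := by
  have h1 : (4 : ℝ) ≤ 2 * k := by
    have : (2 : ℝ) ≤ k := by exact_mod_cast hk
    linarith
  have h2 : Real.exp 1 ≤ 2 * k := by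
    have := Real.exp_one_lt_d9
    linarith
  calc (1 : ℝ) = Real.log (Real.exp 1) := (Real.log_exp 1).symm
    _ ≤ _ := Real.log_le_log (Real.exp_pos 1) h2

/-- the key lower bound of the total influence -/
theorem tot_lower (hL : T_LEVEL) {X : Type} [Fintype X] [DecidableEq X] {k w : ℕ} (hk : 2 ≤ k)
    {q : ℝ} (hq0 : 1 / 4 ≤ q) (hq1 : q ≤ 1 / 2) {f : (X → Bool × Fin k) → ℝ}
    (hf : ∀ ω, f ω = 0 ∨ f ω = 1)
    (hU : ∀ U : Finset X, 2 * U.card ≤ w → ∀ ω, 1 / 32 ≤ cond (mu k q) U f ω)
    (hw1 : 1 ≤ w) (hw : 16 * Real.log (2 * k) ≤ Real.log w) :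
    Real.log w / (2048 * Real.log (2 * k)) * (1 - Ex (mu k q) f) ≤ tot (mu k q) f := by
  classical
  have hk1 : 1 ≤ k := by omega
  have hkR : (2 : ℝ) ≤ k := by exact_mod_cast hk
  have hl := one_le_log_two_mul hk
  set l := Real.log (2 * k) with hldef
  have hwR : (1 : ℝ) ≤ w := by exact_mod_cast hw1
  have hw0 : (0 : ℝ) < w := by linarith
  have hμ : ∀ s, 0 ≤ mu k q s := mu_nonneg (by linarith) (by linarith)
  have hμ1 : ∑ s : Bool × Fin k, mu k q s = 1 := sum_mu hk1 q
  set P := Ex (mu k q) f with hP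
  set J := tot (mu k q) f with hJ
  have hJ0 : 0 ≤ J := tot_nonneg hμ f
  have hP0 : 0 ≤ P := Ex_nonneg hμ fun ω => by rcases hf ω with h | h <;> rw [h]; norm_num
  have hP1 : P ≤ 1 := by
    calc P ≤ Ex (mu k q) (fun _ : X → Bool × Fin k => (1 : ℝ)) := by
          apply Ex_mono hμ
          intro ω
          rcases hf ω with h | h <;> rw [h]
          norm_num
      _ = 1 := Ex_const hμ1 _
  have hlw : 0 ≤ Real.log w := Real.log_nonneg hwR
  set lw := Real.log w with hlwdef
  by_cases hbig : Real.sqrt w / 2 < J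
  · have h1 : lw ≤ 2 * Real.sqrt w := log_le_sqrt hw0
    have h2 : lw / (2048 * l) ≤ lw / 4 := by
      apply div_le_div_of_nonneg_left hlw (by norm_num)
      linarith
    have h3 : lw / (2048 * l) * (1 - P) ≤ lw / (2048 * l) * 1 :=
      mul_le_mul_of_nonneg_left (by linarith) (div_nonneg hlw (by linarith))
    linarith
  · push Not at hbig
    -- the set of influential coordinates
    set s := Real.sqrt w with hs
    have hs0 : 0 < s := Real.sqrt_pos.2 hw0
    have hss : s * s = w := Real.mul_self_sqrt hw0.le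
    let U : Finset X := univ.filter fun x => 1 / s < infl (mu k q) f x
    have hUc : 2 * U.card ≤ w := by
      have h1 : (U.card : ℝ) * (1 / s) ≤ J := by
        calc (U.card : ℝ) * (1 / s) = ∑ x ∈ U, 1 / s := by rw [sum_const, nsmul_eq_mul]
          _ ≤ ∑ x ∈ U, infl (mu k q) f x :=
            sum_le_sum fun x hx => (mem_filter.1 hx).2.le
          _ ≤ J := sum_le_sum_of_subset_of_nonneg (subset_univ _)
            fun x _ _ => infl_nonneg hμ f x
      have h2 : (U.card : ℝ) ≤ J * s := by
        rw [mul_one_div, div_le_iff₀ hs0] at h1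
        exact h1
      have h3 : 2 * (U.card : ℝ) ≤ w := by nlinarith
      exact_mod_cast h3
    have hcond := hU U hUc
    -- the variance
    have hv : 1 / 32 * (1 - P) ≤ Ex (mu k q) (fun ω => cond (mu k q) U f ω *
        (1 - cond (mu k q) U f ω)) := by
      have e1 : 1 / 32 * (1 - P) = Ex (mu k q) (fun ω => 1 / 32 * (1 - cond (mu k q) U f ω)) := by
        rw [Ex_const_mul, Ex_sub, Ex_const hμ1]
        have : Ex (mu k q) (fun ω => cond (mu k q) U f ω) = P := Ex_cond hμ1 U f
        rw [this]
      rw [e1]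
      apply Ex_mono hμ
      intro ω
      apply mul_le_mul_of_nonneg_right (hcond ω)
      linarith [(cond_mem hμ hμ1 hf U ω).2]
    -- the parameters
    set y := lw / (16 * l) with hy
    have hl0 : 0 < l := by linarith
    have hy1 : 1 ≤ y := by
      rw [hy, le_div_iff₀ (by linarith)]
      linarith
    set L := ⌊y⌋₊ with hLdef
    have hL1 : 1 ≤ L := by
      rw [hLdef]
      exact (Nat.one_le_floor_iff y).2 hy1
    have hL1R : (1 : ℝ) ≤ L := by exact_mod_cast hL1
    have hLle : (L : ℝ) ≤ y := Nat.floor_le (by linarith)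
    have hLlt : y < L + 1 := Nat.lt_floor_add_one y
    have hLhalf : y / 2 ≤ L := by linarith
    set τ := (w : ℝ) ^ (-(1 / 4) : ℝ) with hτ
    have hτ0 : 0 ≤ τ := Real.rpow_nonneg hw0.le _
    have hττ : τ ^ 2 = 1 / s := by
      have e1 : 1 / s = (w : ℝ) ^ (-(1 / 2) : ℝ) := by
        rw [hs, Real.sqrt_eq_rpow, Real.rpow_neg hw0.le]
        exact one_div _
      rw [e1, hτ, ← Real.rpow_natCast, ← Real.rpow_mul hw0.le]
      congr 1
      norm_num
    have hlevel := hL X (Bool × Fin k) (mu k q) (1 / (4 * k)) (1 / (2 * k)) (by positivity)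
      (by
        rintro ⟨b, c⟩
        unfold mu
        rw [show (1 : ℝ) / (4 * k) = (1 / 4) / k by field_simp]
        apply div_le_div_of_nonneg_right _ (by linarith)
        dsimp only
        split <;> linarith)
      hμ1 (by positivity)
      (by
        rw [div_le_div_iff₀ (by positivity) (by norm_num)]
        linarith)
      (by
        have hk4 : (k : ℝ) ≤ k ^ 4 := by
          calc (k : ℝ) = k ^ 1 := (pow_one _).symm
            _ ≤ k ^ 4 := pow_le_pow_right₀ (by linarith) (by norm_num)
        rw [div_pow, one_pow, mul_pow, mul_one_div, div_le_div_iff₀ (by positivity) (by positivity)]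
        nlinarith)
      f hf U L hL1 τ hτ0
      (by
        intro x hx
        rw [hττ]
        by_contra hcon
        push Not at hcon
        exact hx (mem_filter.2 ⟨mem_univ _, hcon⟩))
    have hpow : (1 / (1 / (2 * (k : ℝ)))) ^ (2 * L) * τ ≤ 1 / L := by
      rw [one_div_one_div]
      have h2k : (0 : ℝ) < 2 * k := by linarith
      -- (2k)^(2L) = exp (2 L l) ≤ exp (lw / 8) = w^(1/8)
      have g1 : (2 * (k : ℝ)) ^ (2 * L) ≤ (w : ℝ) ^ (1 / 8 : ℝ) := by
        rw [← Real.rpow_natCast, Real.rpow_def_of_pos h2k, Real.rpow_def_of_pos hw0]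
        apply Real.exp_le_exp.2
        rw [← hldef, ← hlwdef]
        push_cast
        have : l * L ≤ lw / 16 := by
          calc l * L ≤ l * y := mul_le_mul_of_nonneg_left hLle hl0.le
            _ = lw / 16 := by rw [hy]; field_simp
        linarith
      have g2 : (w : ℝ) ^ (1 / 8 : ℝ) * τ = (w : ℝ) ^ (-(1 / 8) : ℝ) := by
        rw [hτ, ← Real.rpow_add hw0]
        congr 1
        norm_num
      have g3 : (L : ℝ) ≤ (w : ℝ) ^ (1 / 8 : ℝ) := by
        have h8 := log_le_eighth hw0
        have : y ≤ lw / 16 := by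
          rw [hy]
          apply div_le_div_of_nonneg_left hlw (by norm_num)
          linarith
        have hpos : 0 ≤ (w : ℝ) ^ (1 / 8 : ℝ) := Real.rpow_nonneg hw0.le _
        linarith
      calc (2 * (k : ℝ)) ^ (2 * L) * τ ≤ (w : ℝ) ^ (1 / 8 : ℝ) * τ :=
            mul_le_mul_of_nonneg_right g1 hτ0
        _ = (w : ℝ) ^ (-(1 / 8) : ℝ) := g2
        _ = 1 / (w : ℝ) ^ (1 / 8 : ℝ) := by
          rw [Real.rpow_neg hw0.le]
          exact (one_div _).symm
        _ ≤ 1 / L := one_div_le_one_div_of_le (by linarith) g3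
    have hfin : 1 / 32 * (1 - P) ≤ J / L + 1 / L * J := by
      refine hv.trans (hlevel.trans ?_)
      have := mul_le_mul_of_nonneg_right hpow hJ0
      linarith
    have hfin2 : L * (1 - P) ≤ 64 * J := by
      have hLpos : (0 : ℝ) < L := by linarith
      have e : J / L + 1 / L * J = 2 * J / L := by ring
      rw [e, le_div_iff₀ hLpos] at hfin
      linarith
    have e3 : lw / (2048 * l) = y / 2 / 64 := by
      rw [hy]
      ring
    rw [e3]
    have h1P : 0 ≤ 1 - P := by linarith
    have := mul_le_mul_of_nonneg_right hLhalf h1P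
    linarith

/-- integration of the differential inequality -/
theorem gronwall {P D : ℝ → ℝ} {β : ℝ} (hD : ∀ q, HasDerivAt P (D q) q)
    (h : ∀ q, 1 / 4 ≤ q → q ≤ 1 / 2 → β * (1 - P q) ≤ D q) (h0 : 0 ≤ P (1 / 4)) :
    1 - P (1 / 2) ≤ Real.exp (-(β / 4)) := by
  have hG : AntitoneOn (fun q => (1 - P q) * Real.exp (β * q)) (Set.Icc (1 / 4) (1 / 2)) := by
    have hd : ∀ q, HasDerivAt (fun q => (1 - P q) * Real.exp (β * q))
        (-D q * Real.exp (β * q) + (1 - P q) * (Real.exp (β * q) * β)) q := by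
      intro q
      have h1 : HasDerivAt (fun q => 1 - P q) (-D q) q := by
        simpa using (hD q).const_sub 1
      have h2 : HasDerivAt (fun q => Real.exp (β * q)) (Real.exp (β * q) * β) q := by
        have : HasDerivAt (fun q => β * q) β q := by
          simpa using (hasDerivAt_id q).const_mul β
        exact this.exp
      exact h1.mul h2
    apply antitoneOn_of_deriv_nonpos (convex_Icc _ _)
    · exact fun q _ => (hd q).continuousAt.continuousWithinAt
    · exact fun q _ => (hd q).differentiableAt.differentiableWithinAt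
    · intro q hq
      rw [interior_Icc] at hq
      rw [(hd q).deriv]
      have := h q hq.1.le hq.2.le
      have he := Real.exp_pos (β * q)
      nlinarith
  have h1 := hG (Set.left_mem_Icc.2 (by norm_num)) (Set.right_mem_Icc.2 (by norm_num))
    (by norm_num : (1 / 4 : ℝ) ≤ 1 / 2)
  dsimp only at h1
  have h2 : (1 - P (1 / 4)) * Real.exp (β * (1 / 4)) ≤ 1 * Real.exp (β * (1 / 4)) :=
    mul_le_mul_of_nonneg_right (by linarith) (Real.exp_pos _).le
  have h3 : (1 - P (1 / 2)) * Real.exp (β * (1 / 2)) ≤ Real.exp (β * (1 / 4)) := by linarith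
  have h4 : Real.exp (β * (1 / 4)) = Real.exp (-(β / 4)) * Real.exp (β * (1 / 2)) := by
    rw [← Real.exp_add]
    congr 1
    ring
  rw [h4] at h3
  exact le_of_mul_le_mul_right h3 (Real.exp_pos _)

/-- the explicit form: the exponent depends only on `k` -/
theorem sharp_explicit (hL : T_LEVEL) (hR : T_RUSSO) (hT : T_TRACE) (hRich : T_RICH) (k : ℕ)
    (hk : 2 ≤ k) : ∃ a : ℝ, 0 < a ∧ ∀ C2 : ℝ, 1 ≤ C2 → (∀ u, 1 ≤ u → Low k C2 u (1 / 16)) →
    ∀ w : ℕ, 1 ≤ w → Low k (16 * (1 + C2)) w (1 - (w : ℝ) ^ (-a)) := by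
  have hk1 : 1 ≤ k := by omega
  have hkR : (2 : ℝ) ≤ k := by exact_mod_cast hk
  have hl := one_le_log_two_mul hk
  set l := Real.log (2 * k) with hldef
  -- the threshold
  obtain ⟨w0, hw0⟩ : ∃ w0 : ℕ, 2 ≤ w0 ∧ ∀ w : ℕ, w0 ≤ w → 16 * l ≤ Real.log w := by
    obtain ⟨n, hn⟩ := exists_nat_ge (Real.exp (16 * l))
    refine ⟨n + 2, by omega, ?_⟩
    intro w hw
    have h1 : Real.exp (16 * l) ≤ w := by
      have : (n : ℝ) ≤ w := by
        have : n ≤ w := by omega
        exact_mod_cast this
      linarith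
    calc 16 * l = Real.log (Real.exp (16 * l)) := (Real.log_exp _).symm
      _ ≤ _ := Real.log_le_log (Real.exp_pos _) h1
  obtain ⟨hw02, hw0⟩ := hw0
  have hw02R : (2 : ℝ) ≤ w0 := by exact_mod_cast hw02
  have hlw0 : 0 < Real.log w0 := Real.log_pos (by linarith)
  set a1 : ℝ := 1 / (2048 * l) / k / 4 with ha1
  have ha1pos : 0 < a1 := by positivity
  set a2 : ℝ := Real.log (32 / 31) / Real.log w0 with ha2
  have ha2pos : 0 < a2 := div_pos (Real.log_pos (by norm_num)) hlw0
  refine ⟨min a1 a2, lt_min ha1pos ha2pos, ?_⟩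
  intro C2 hC2 hlow w hw1 X _ _ F hF
  have hwR : (1 : ℝ) ≤ w := by exact_mod_cast hw1
  have hwpos : (0 : ℝ) < w := by linarith
  have hhalf : Ex (mu k (1 / 2)) (suc (k := k) F) ≤ pr k F :=
    Ex_suc_le_pr hk1 (by norm_num) (by norm_num) F
  by_cases hcase : w0 ≤ w
  · -- large `w`
    obtain ⟨D, hD, hDt⟩ := hR X k hk1 (suc (k := k) F) (suc_zero_or_one F)
      (fun ω x c c' => suc_update_dead F ω x c c') (fun ω x c c' => suc_update_alive F ω x c c')
    have key := gronwall (P := fun q => Ex (mu k q) (suc (k := k) F)) (D := D)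
      (β := Real.log w / (2048 * l) / k) hD
      (by
        intro q hq0 hq1
        have h1 := tot_lower hL hk hq0 hq1 (suc_zero_or_one (k := k) F)
          (hT k C2 (16 * (1 + C2)) q w X F hk hC2 hlow (by linarith) (by linarith)
            (by nlinarith) hw1 hF)
          hw1 (hw0 w hcase)
        have h2 := hDt q (by linarith) (by linarith)
        have hkpos : (0 : ℝ) < k := by linarith
        rw [← hldef] at h1
        calc Real.log w / (2048 * l) / k * (1 - Ex (mu k q) (suc (k := k) F))
            = (Real.log w / (2048 * l) * (1 - Ex (mu k q) (suc (k := k) F))) / k := by ring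
          _ ≤ (k * D q) / k := div_le_div_of_nonneg_right (h1.trans h2) hkpos.le
          _ = D q := by field_simp)
      (Ex_nonneg (mu_nonneg (by norm_num) (by norm_num)) fun ω => by
        rcases suc_zero_or_one F ω with h | h <;> rw [h]
        norm_num)
    have e1 : Real.exp (-(Real.log w / (2048 * l) / k / 4)) = (w : ℝ) ^ (-a1) := by
      rw [Real.rpow_def_of_pos hwpos, ha1]
      congr 1
      ring
    rw [e1] at key
    have e2 : (w : ℝ) ^ (-a1) ≤ (w : ℝ) ^ (-(min a1 a2)) :=
      Real.rpow_le_rpow_of_exponent_le hwR (by linarith [min_le_left a1 a2])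
    linarith
  · -- small `w`
    push Not at hcase
    have h1 : 1 / 32 ≤ Ex (mu k (1 / 2)) (suc (k := k) F) :=
      hRich k C2 (16 * (1 + C2)) (1 / 2) w X F hk hC2 hlow (by norm_num) (by norm_num)
        (by linarith) hw1 hF
    have h2 : (31 / 32 : ℝ) ≤ (w : ℝ) ^ (-(min a1 a2)) := by
      have g1 : (w0 : ℝ) ^ (-a2) = 31 / 32 := by
        rw [Real.rpow_def_of_pos (by linarith), ha2]
        rw [show Real.log w0 * -(Real.log (32 / 31) / Real.log w0) = -Real.log (32 / 31) by
          field_simp]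
        rw [← Real.log_inv, Real.exp_log (by norm_num)]
        norm_num
      rw [← g1]
      have hww0 : (w : ℝ) ≤ w0 := by exact_mod_cast hcase.le
      calc (w0 : ℝ) ^ (-a2) ≤ (w : ℝ) ^ (-a2) :=
            Real.rpow_le_rpow_of_nonpos hwpos hww0 (by linarith)
        _ ≤ _ := Real.rpow_le_rpow_of_exponent_le hwR (by linarith [min_le_right a1 a2])
    linarith

theorem p_SHARP (hL : T_LEVEL) (hR : T_RUSSO) (hT : T_TRACE) (hRich : T_RICH) : T_SHARP := by
  intro k C2 hk hC2 hlow
  obtain ⟨a, ha, h⟩ := sharp_explicit hL hR hT hRich k hk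
  exact ⟨16 * (1 + C2), a, ha, h C2 hC2 hlow⟩

end Pool.Agent.ZOL
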