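import Pool.Agent.ZOL.Defs

/-!
# Zero-one law for rainbow sunflowers: the targets

Each `T_XXX : Prop` is one job; the proof is a theorem `p_XXX : T_XXX`.
-/

set_option autoImplicit false

namespace Pool.Agent.ZOL

open Finset Filter

/-! ## Analysis on finite product spaces -/

/-- hypercontractivity: `R` is the noise operator `ω ↦ ∑_S ρ^|S| (1-ρ)^(n-|S|) E(g | S)` -/
noncomputable def noise {X A : Type} [Fintype X] [DecidableEq X] [Fintype A] (μ : A → ℝ) (ρ : ℝ)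
    (g : (X → A) → ℝ) (ω : X → A) : ℝ :=
  ∑ S : Finset X, ρ ^ S.card * (1 - ρ) ^ (Fintype.card X - S.card) * cond μ S g ω

/-- (2, 4)-hypercontractivity on a product space with atoms at least `lam` -/
def T_HYPER : Prop := ∀ (X A : Type) [Fintype X] [DecidableEq X] [Fintype A]
  (μ : A → ℝ) (lam ρ : ℝ), 0 < lam → (∀ a, lam ≤ μ a) → ∑ a, μ a = 1 →
  0 ≤ ρ → ρ ≤ 1 / 2 → 3 * ρ ^ 4 ≤ lam → ∀ g : (X → A) → ℝ,
  Ex μ (fun ω => noise μ ρ g ω ^ 4) ≤ (Ex μ (fun ω => g ω ^ 2)) ^ 2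

/-- Friedgut type inequality -/
def T_LEVEL : Prop := ∀ (X A : Type) [Fintype X] [DecidableEq X] [Fintype A]
  (μ : A → ℝ) (lam ρ : ℝ), 0 < lam → (∀ a, lam ≤ μ a) → ∑ a, μ a = 1 →
  0 < ρ → ρ ≤ 1 / 2 → 3 * ρ ^ 4 ≤ lam → ∀ f : (X → A) → ℝ, (∀ ω, f ω = 0 ∨ f ω = 1) →
  ∀ (U : Finset X) (L : ℕ), 1 ≤ L → ∀ τ : ℝ, 0 ≤ τ → (∀ x ∉ U, infl μ f x ≤ τ ^ 2) →
  Ex μ (fun ω => cond μ U f ω * (1 - cond μ U f ω)) ≤
    tot μ f / L + (1 / ρ) ^ (2 * L) * τ * tot μ f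

/-- Margulis-Russo -/
def T_RUSSO : Prop := ∀ (X : Type) [Fintype X] [DecidableEq X] (k : ℕ), 1 ≤ k →
  ∀ f : (X → Bool × Fin k) → ℝ, (∀ ω, f ω = 0 ∨ f ω = 1) →
  (∀ ω x c c', f (Function.update ω x (false, c)) = f (Function.update ω x (false, c'))) →
  (∀ ω x c c', f (Function.update ω x (false, c)) ≤ f (Function.update ω x (true, c'))) →
  ∃ D : ℝ → ℝ, (∀ q, HasDerivAt (fun q => Ex (mu k q) f) (D q) q) ∧
    ∀ q, 0 ≤ q → q ≤ 1 → tot (mu k q) f ≤ k * D q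

/-! ## Combinatorics -/

/-- STEP 1: amplification by codes -/
def T_CODE : Prop := ∀ (k u M w : ℕ) (C1 : ℝ) (X : Type) [Fintype X] [DecidableEq X]
  (G : Finset (Finset X)), 2 ≤ k → 1 ≤ u → 1 ≤ M → 2 * u * M ≤ w → w ≤ 2 * u * (M + 1) →
  1 ≤ C1 → Big u (4 * C1 ^ 4) G → pr k G < 1 / 16 →
  ∃ (Y : Type) (_ : Fintype Y) (_ : DecidableEq Y) (F : Finset (Finset Y)),
    Big w C1 F ∧ pr k F ≤ (1 / 4) ^ M

/-- STEP 2: rich restrictions -/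
def T_RICH : Prop := ∀ (k : ℕ) (C2 C q : ℝ) (w : ℕ) (X : Type) [Fintype X] [DecidableEq X]
  (F : Finset (Finset X)), 2 ≤ k → 1 ≤ C2 → (∀ u, 1 ≤ u → Low k C2 u (1 / 16)) →
  0 < q → q ≤ 1 → 2 * (1 + C2) ≤ q * C → 1 ≤ w → Big w C F →
  1 / 32 ≤ Ex (mu k q) (suc (k := k) F)

/-- STEP 3: robustness -/
def T_TRACE : Prop := ∀ (k : ℕ) (C2 C q : ℝ) (w : ℕ) (X : Type) [Fintype X] [DecidableEq X]
  (F : Finset (Finset X)), 2 ≤ k → 1 ≤ C2 → (∀ u, 1 ≤ u → Low k C2 u (1 / 16)) →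
  0 < q → q ≤ 1 → 4 * (1 + C2) ≤ q * C → 1 ≤ w → Big w C F →
  ∀ U : Finset X, 2 * U.card ≤ w → ∀ ω : X → Bool × Fin k,
  1 / 32 ≤ cond (mu k q) U (suc (k := k) F) ω

/-! ## Assembly -/

/-- STEP 4: constant probability gives high probability -/
def T_SHARP : Prop := ∀ (k : ℕ) (C2 : ℝ), 2 ≤ k → 1 ≤ C2 →
  (∀ u, 1 ≤ u → Low k C2 u (1 / 16)) →
  ∃ C a : ℝ, 0 < a ∧ ∀ w : ℕ, 1 ≤ w → Low k C w (1 - (w : ℝ) ^ (-a))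

/-- the zero-one law -/
def T_MAIN : Prop := ∀ k : ℕ, 2 ≤ k →
  (∃ C a : ℝ, 0 < a ∧ ∀ w : ℕ, 1 ≤ w → Low k C w (1 - (w : ℝ) ^ (-a))) ∨
  (∀ C : ℝ, ∃ z : ℝ, 0 < z ∧ ∃ w0 : ℕ, ∀ w : ℕ, w0 ≤ w →
    ∃ (X : Type) (_ : Fintype X) (_ : DecidableEq X) (F : Finset (Finset X)),
      Big w C F ∧ pr k F ≤ Real.exp (-z * w))

end Pool.Agent.ZOL
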